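import Mathlib

set_option autoImplicit false

namespace Pool.Agent.H95.GC

open Set MeasureTheory

/-- Hadamard's three circles theorem. -/
theorem three_circles (f : ℂ → ℂ) (c : ℂ) (r₁ r₂ r₃ R M₁ M₃ : ℝ) (h₁ : 0 < r₁) (h₁₂ : r₁ < r₂)
    (h₂₃ : r₂ < r₃) (h₃ : r₃ < R) (hf : DifferentiableOn ℂ f (Metric.ball c R))
    (hM₁ : 0 < M₁) (hM₃ : 0 < M₃)
    (hb₁ : ∀ z, dist z c = r₁ → ‖f z‖ ≤ M₁) (hb₃ : ∀ z, dist z c = r₃ → ‖f z‖ ≤ M₃)
    (z : ℂ) (hz : dist z c = r₂) :
    ‖f z‖ ≤ M₁ ^ (Real.log (r₃ / r₂) / Real.log (r₃ / r₁))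
      * M₃ ^ (Real.log (r₂ / r₁) / Real.log (r₃ / r₁)) := by
  have hr2 : 0 < r₂ := h₁.trans h₁₂
  have hr3 : 0 < r₃ := hr2.trans h₂₃
  -- the composed function
  set g : ℂ → ℂ := fun w => f (c + Complex.exp w) with hg
  have hdist : ∀ w : ℂ, dist (c + Complex.exp w) c = Real.exp w.re := by
    intro w
    rw [dist_eq_norm, add_sub_cancel_left, Complex.norm_exp]
  have hlul : Real.log r₁ < Real.log r₃ := Real.log_lt_log h₁ (h₁₂.trans h₂₃)
  have hgd : ∀ w : ℂ, w.re < Real.log R → DifferentiableAt ℂ g w := by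
    intro w hw
    have hmem : c + Complex.exp w ∈ Metric.ball c R := by
      rw [Metric.mem_ball, hdist]
      have : Real.exp w.re < Real.exp (Real.log R) := Real.exp_lt_exp.mpr hw
      rwa [Real.exp_log (hr3.trans h₃)] at this
    have h1 : DifferentiableAt ℂ f (c + Complex.exp w) :=
      hf.differentiableAt (Metric.isOpen_ball.mem_nhds hmem)
    exact DifferentiableAt.comp w h1 (by fun_prop)
  have hlR : Real.log r₃ < Real.log R := Real.log_lt_log hr3 h₃
  have hdc : DiffContOnCl ℂ g (Complex.HadamardThreeLines.verticalStrip (Real.log r₁) (Real.log r₃)) := by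
    apply DifferentiableOn.diffContOnCl
    intro w hw
    apply DifferentiableAt.differentiableWithinAt
    apply hgd
    have hcl : closure (Complex.HadamardThreeLines.verticalStrip (Real.log r₁) (Real.log r₃)) ⊆
        Complex.re ⁻¹' (Set.Icc (Real.log r₁) (Real.log r₃)) := by
      apply closure_minimal
      · intro x hx
        exact Set.Ioo_subset_Icc_self hx
      · exact IsClosed.preimage Complex.continuous_re isClosed_Icc
    exact lt_of_le_of_lt (hcl hw).2 hlR
  obtain ⟨w, hw⟩ : ∃ w : ℂ, Complex.exp w = z - c := by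
    have hne : z - c ≠ 0 := by
      intro h0
      rw [dist_eq_norm, h0, norm_zero] at hz
      exact hr2.ne hz
    exact ⟨Complex.log (z - c), Complex.exp_log hne⟩
  have hwre : w.re = Real.log r₂ := by
    have h := hdist w
    rw [hw, add_sub_cancel, hz] at h
    rw [h, Real.log_exp]
  have hbd : BddAbove ((norm ∘ g) '' Complex.HadamardThreeLines.verticalClosedStrip (Real.log r₁) (Real.log r₃)) := by
    have hK : IsCompact (Metric.closedBall c r₃) := isCompact_closedBall c r₃
    have hcont : ContinuousOn (fun z => ‖f z‖) (Metric.closedBall c r₃) :=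
      (hf.continuousOn.mono (Metric.closedBall_subset_ball h₃)).norm
    have hb := hK.bddAbove_image hcont
    refine hb.mono ?_
    rintro _ ⟨x, hx, rfl⟩
    refine ⟨c + Complex.exp x, ?_, rfl⟩
    rw [Metric.mem_closedBall, hdist]
    have : Real.exp x.re ≤ Real.exp (Real.log r₃) := Real.exp_le_exp.mpr hx.2
    rwa [Real.exp_log hr3] at this
  have hzs : w ∈ Complex.HadamardThreeLines.verticalClosedStrip (Real.log r₁) (Real.log r₃) := by
    change w.re ∈ Set.Icc (Real.log r₁) (Real.log r₃)
    rw [hwre]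
    exact ⟨(Real.log_lt_log h₁ h₁₂).le, (Real.log_lt_log hr2 h₂₃).le⟩
  have key := Complex.HadamardThreeLines.norm_le_interp_of_mem_verticalClosedStrip' (f := g)
    (z := w) (a := M₁) (b := M₃) hlul hzs hdc hbd
    (by
      intro x hx
      have hx' : x.re = Real.log r₁ := hx
      apply hb₁
      rw [hdist, hx', Real.exp_log h₁])
    (by
      intro x hx
      have hx' : x.re = Real.log r₃ := hx
      apply hb₃
      rw [hdist, hx', Real.exp_log hr3])
  have hgw : g w = f z := by
    simp only [hg]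
    rw [hw]
    congr 1
    ring
  rw [hgw, hwre] at key
  have hpos : 0 < Real.log r₃ - Real.log r₁ := sub_pos.mpr hlul
  have e1 : 1 - (Real.log r₂ - Real.log r₁) / (Real.log r₃ - Real.log r₁)
      = Real.log (r₃ / r₂) / Real.log (r₃ / r₁) := by
    rw [Real.log_div hr3.ne' hr2.ne', Real.log_div hr3.ne' h₁.ne']
    field_simp
    ring
  have e2 : (Real.log r₂ - Real.log r₁) / (Real.log r₃ - Real.log r₁)
      = Real.log (r₂ / r₁) / Real.log (r₃ / r₁) := by
    rw [Real.log_div hr2.ne' h₁.ne', Real.log_div hr3.ne' h₁.ne']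
  rw [e1, e2] at key
  exact key

/-- A zero-free holomorphic function on a disc has a holomorphic logarithm. -/
theorem exists_log (f : ℂ → ℂ) (c : ℂ) (R : ℝ) (hR : 0 < R)
    (hf : DifferentiableOn ℂ f (Metric.ball c R)) (hf0 : ∀ z ∈ Metric.ball c R, f z ≠ 0) :
    ∃ L : ℂ → ℂ, DifferentiableOn ℂ L (Metric.ball c R) ∧ L c = 0 ∧
      ∀ z ∈ Metric.ball c R, f z = f c * Complex.exp (L z) := by
  have hdf : DifferentiableOn ℂ (deriv f) (Metric.ball c R) := hf.deriv Metric.isOpen_ball
  have hq : DifferentiableOn ℂ (fun z => deriv f z / f z) (Metric.ball c R) := hdf.div hf hf0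
  have hex := hq.isExactOn_ball
  obtain ⟨L, hL0, hL⟩ := hex.with_val_at c 0
  refine ⟨L, fun z hz => (hL z hz).differentiableAt.differentiableWithinAt, hL0, ?_⟩
  -- f * exp (-L) is constant
  set h : ℂ → ℂ := fun z => f z * Complex.exp (-(L z)) with hh
  have hcmem : c ∈ Metric.ball c R := Metric.mem_ball_self hR
  have hder : ∀ z ∈ Metric.ball c R, HasDerivAt h 0 z := by
    intro z hz
    have hfz : HasDerivAt f (deriv f z) z :=
      (hf.differentiableAt (Metric.isOpen_ball.mem_nhds hz)).hasDerivAt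
    have h1 := hfz.mul ((hL z hz).neg.cexp)
    refine h1.congr_deriv ?_
    have := hf0 z hz
    field_simp
    ring
  have hconst : ∀ z ∈ Metric.ball c R, h z = h c := by
    intro z hz
    have hconv : Convex ℝ (Metric.ball c R) := convex_ball c R
    apply hconv.is_const_of_fderivWithin_eq_zero (𝕜 := ℂ)
      (fun x hx => (hder x hx).differentiableAt.differentiableWithinAt) ?_ hz hcmem
    intro x hx
    have := (hder x hx).hasFDerivAt.fderiv
    rw [fderivWithin_of_isOpen Metric.isOpen_ball hx, this]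
    ext
    simp
  intro z hz
  have := hconst z hz
  simp only [hh, hL0, neg_zero, Complex.exp_zero, mul_one] at this
  rw [← this, mul_assoc, ← Complex.exp_add, neg_add_cancel, Complex.exp_zero, mul_one]

end Pool.Agent.H95.GC
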