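import Mathlib

set_option autoImplicit false

namespace Pool.Agent.H95.GC

open Set MeasureTheory

private theorem reflect_gamma (t : ℝ) (ht : t ≠ 0) :
    ‖Complex.Gamma (1 + t * Complex.I)‖ ^ 2 * Real.sinh (Real.pi * t) = Real.pi * t := by
  have h0 : (t * Complex.I : ℂ) ≠ 0 := mul_ne_zero (by exact_mod_cast ht) Complex.I_ne_zero
  have hconj : (starRingEnd ℂ) (1 + t * Complex.I) = 1 - t * Complex.I := by
    simp [Complex.ext_iff]
  have h1 : ((‖Complex.Gamma (1 + t * Complex.I)‖ ^ 2 : ℝ) : ℂ) =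
      Complex.Gamma (1 + t * Complex.I) * Complex.Gamma (1 - t * Complex.I) := by
    rw [← hconj, Complex.Gamma_conj, Complex.mul_conj, Complex.normSq_eq_norm_sq]
  have h2 : Complex.Gamma (1 + t * Complex.I) =
      (t * Complex.I) * Complex.Gamma (t * Complex.I) := by
    rw [add_comm, Complex.Gamma_add_one _ h0]
  have h3 := Complex.Gamma_mul_Gamma_one_sub (t * Complex.I)
  have h4 : Complex.sin (Real.pi * (t * Complex.I)) =
      Complex.sinh (Real.pi * t : ℂ) * Complex.I := by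
    rw [← mul_assoc, Complex.sin_mul_I]
  have hs : Complex.sinh ((Real.pi : ℂ) * t) ≠ 0 := by
    have h5 : Real.sinh (Real.pi * t) ≠ 0 := by
      rw [Ne, Real.sinh_eq_zero]
      exact mul_ne_zero Real.pi_ne_zero ht
    rw [← Complex.ofReal_mul, ← Complex.ofReal_sinh]
    exact_mod_cast h5
  have h6 : ((‖Complex.Gamma (1 + t * Complex.I)‖ ^ 2 * Real.sinh (Real.pi * t) : ℝ) : ℂ) =
      ((Real.pi * t : ℝ) : ℂ) := by
    rw [Complex.ofReal_mul, h1, h2, mul_assoc (t * Complex.I : ℂ), h3, h4]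
    push_cast
    have hI := Complex.I_ne_zero
    rw [mul_div_assoc', div_mul_eq_mul_div]
    rw [div_eq_iff (mul_ne_zero hs hI)]
    ring
  exact_mod_cast h6

private theorem reflect_cos (t : ℝ) :
    ‖Complex.cos (Real.pi * (1 + t * Complex.I) / 2)‖ ^ 2 = Real.sinh (Real.pi * t / 2) ^ 2 := by
  have h : Complex.cos (Real.pi * (1 + t * Complex.I) / 2) =
      -(((Real.sinh (Real.pi * t / 2) : ℝ) : ℂ) * Complex.I) := by
    have h1 : (Real.pi * (1 + t * Complex.I) / 2 : ℂ) =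
        ((Real.pi * t / 2 : ℝ) : ℂ) * Complex.I + Real.pi / 2 := by
      push_cast; ring
    rw [h1, Complex.cos_add_pi_div_two, Complex.sin_mul_I, Complex.ofReal_sinh]
  rw [h, norm_neg, norm_mul, Complex.norm_I, mul_one, Complex.norm_real, Real.norm_eq_abs, sq_abs]

private theorem reflect_tanh (y : ℝ) (hy : 3 / 2 ≤ y) : 4 / 5 * Real.cosh y ≤ Real.sinh y := by
  rw [Real.cosh_eq, Real.sinh_eq]
  have h1 : (9 : ℝ) ≤ Real.exp (2 * y) := by
    have h2 : (2.7 : ℝ) ≤ Real.exp 1 := by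
      have := Real.exp_one_gt_d9
      linarith
    have h3 : Real.exp 3 = Real.exp 1 ^ 3 := by
      rw [← Real.exp_nat_mul]; norm_num
    have h4 : Real.exp 3 ≤ Real.exp (2 * y) := Real.exp_le_exp.mpr (by linarith)
    have h5 : (2.7 : ℝ) ^ 3 ≤ Real.exp 1 ^ 3 := by gcongr
    norm_num at h5
    linarith
  have h6 : Real.exp (2 * y) = Real.exp y * Real.exp y := by
    rw [← Real.exp_add]; ring_nf
  have h7 : Real.exp y * Real.exp (-y) = 1 := by
    rw [← Real.exp_add]; simp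
  have h8 : 0 < Real.exp (-y) := Real.exp_pos _
  have h9 : 9 * Real.exp (-y) ≤ Real.exp y := by
    have : Real.exp (2 * y) * Real.exp (-y) = Real.exp y := by
      rw [← Real.exp_add]; ring_nf
    nlinarith
  linarith

private theorem reflect_ratio (t N : ℝ) (ht : 1 ≤ |t|)
    (hN : N * Real.sinh (Real.pi * t) = Real.pi * t) (hN0 : 0 ≤ N) :
    Real.pi ^ 2 * (|t| / 8) ≤ N * Real.sinh (Real.pi * t / 2) ^ 2 := by
  set y := Real.pi * t / 2 with hy
  have hpi := Real.pi_gt_three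
  have hpi2 := Real.pi_lt_d2
  have h1 : Real.sinh (Real.pi * t) = 2 * Real.sinh y * Real.cosh y := by
    rw [← Real.sinh_two_mul]; congr 1; rw [hy]; ring
  have h2 : N * (2 * |Real.sinh y| * Real.cosh y) = Real.pi * |t| := by
    have h3 := congrArg abs hN
    rw [h1, abs_mul, abs_mul, abs_mul, abs_mul, abs_of_nonneg hN0, abs_of_pos Real.pi_pos,
      abs_of_pos (Real.cosh_pos y), abs_of_pos (by norm_num : (0 : ℝ) < 2)] at h3
    exact h3
  have h4 : |y| = Real.pi * |t| / 2 := by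
    rw [hy, abs_div, abs_mul, abs_of_pos Real.pi_pos, abs_of_pos (by norm_num : (0 : ℝ) < 2)]
  have h5 : 3 / 2 ≤ |y| := by rw [h4]; nlinarith
  have h6 := reflect_tanh |y| h5
  have h7 : Real.cosh |y| = Real.cosh y := Real.cosh_abs y
  have h8 : Real.sinh |y| = |Real.sinh y| := by
    rcases le_total 0 y with h | h
    · rw [abs_of_nonneg h, abs_of_nonneg (Real.sinh_nonneg_iff.mpr h)]
    · rw [abs_of_nonpos h, abs_of_nonpos (Real.sinh_nonpos_iff.mpr h), Real.sinh_neg]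
  rw [h7, h8] at h6
  have h9 : Real.sinh y ^ 2 = |Real.sinh y| * |Real.sinh y| := by
    rw [← sq, sq_abs]
  have hc := Real.cosh_pos y
  -- N * |sinh y| * (4/5) * cosh y ≤ N * |sinh y|^2
  have h10 : N * |Real.sinh y| * (4 / 5 * Real.cosh y) ≤
      N * |Real.sinh y| * |Real.sinh y| := by
    gcongr
  have h11 : N * |Real.sinh y| * (4 / 5 * Real.cosh y) = 2 / 5 * (Real.pi * |t|) := by
    rw [← h2]; ring
  rw [h9, ← mul_assoc]
  refine le_trans ?_ h10
  rw [h11]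
  have h12 : 0 < Real.pi * |t| := mul_pos Real.pi_pos (by linarith)
  nlinarith

/-- The functional equation between the lines `Re s = 1` and `Re s = 0`. -/
theorem reflect (t : ℝ) (ht : 1 ≤ |t|) :
    |t| / 8 * ‖riemannZeta (1 + t * Complex.I)‖ ^ 2 ≤ ‖riemannZeta (-(t * Complex.I))‖ ^ 2 := by
  have ht0 : t ≠ 0 := by
    rintro rfl
    norm_num at ht
  have hpi := Real.pi_pos
  have h1 : riemannZeta (1 - (1 + t * Complex.I)) =
      2 * (2 * Real.pi) ^ (-(1 + t * Complex.I) : ℂ) * Complex.Gamma (1 + t * Complex.I) *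
        Complex.cos (Real.pi * (1 + t * Complex.I) / 2) * riemannZeta (1 + t * Complex.I) := by
    apply riemannZeta_one_sub
    · intro n hn
      have := congrArg Complex.re hn
      simp at this
      have h2 : (0 : ℝ) ≤ n := Nat.cast_nonneg n
      linarith
    · intro h
      have := congrArg Complex.im h
      simp at this
      exact ht0 this
  have h2 : (1 - (1 + t * Complex.I) : ℂ) = -(t * Complex.I) := by ring
  rw [h2] at h1
  have h3 : ‖((2 * Real.pi : ℂ)) ^ (-(1 + t * Complex.I) : ℂ)‖ = (2 * Real.pi)⁻¹ := by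
    have h4 : (2 * Real.pi : ℂ) = ((2 * Real.pi : ℝ) : ℂ) := by push_cast; ring
    rw [h4, Complex.norm_cpow_eq_rpow_re_of_pos (by positivity)]
    have h5 : (-(1 + t * Complex.I) : ℂ).re = -1 := by simp
    rw [h5, Real.rpow_neg_one]
  have h4 : ‖riemannZeta (-(t * Complex.I))‖ ^ 2 =
      (‖Complex.Gamma (1 + t * Complex.I)‖ ^ 2 * Real.sinh (Real.pi * t / 2) ^ 2) / Real.pi ^ 2 *
        ‖riemannZeta (1 + t * Complex.I)‖ ^ 2 := by
    rw [h1, norm_mul, norm_mul, norm_mul, norm_mul, h3, mul_pow, mul_pow, mul_pow, mul_pow,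
      reflect_cos]
    have : ‖(2 : ℂ)‖ = 2 := by simp
    rw [this]
    field_simp
  rw [h4]
  refine mul_le_mul_of_nonneg_right ?_ (by positivity)
  rw [le_div_iff₀ (by positivity)]
  have := reflect_ratio t _ ht (reflect_gamma t ht0) (by positivity)
  linarith

private theorem zeta_tsum_bound (s : ℂ) (σ : ℝ) (hσ : 1 < σ) (hs : σ ≤ s.re) :
    ‖riemannZeta s‖ ≤ ∑' n : ℕ, 1 / ((n : ℝ) + 1) ^ σ := by
  have h1 : 1 < s.re := lt_of_lt_of_le hσ hs
  rw [zeta_eq_tsum_one_div_nat_add_one_cpow h1]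
  have hsum : Summable fun n : ℕ => 1 / ((n : ℝ) + 1) ^ σ := by
    have := (Real.summable_one_div_nat_rpow (p := σ)).mpr hσ
    have h2 := (summable_nat_add_iff 1).mpr this
    simpa using h2
  refine tsum_of_norm_bounded hsum.hasSum (fun n => ?_)
  have hpos : (0 : ℝ) < (n : ℝ) + 1 := by positivity
  have h3 : ((n : ℂ) + 1) = (((n : ℝ) + 1 : ℝ) : ℂ) := by push_cast; ring
  rw [norm_div, norm_one, h3, Complex.norm_cpow_eq_rpow_re_of_pos hpos]
  refine one_div_le_one_div_of_le (by positivity) ?_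
  exact Real.rpow_le_rpow_of_exponent_le (by linarith) hs

private theorem tsum_two : ∑' n : ℕ, 1 / ((n : ℝ) + 1) ^ (2 : ℝ) = Real.pi ^ 2 / 6 := by
  have h := hasSum_zeta_two
  have h2 := (hasSum_nat_add_iff' 1).mpr h
  simp only [Finset.range_one, Finset.sum_singleton, Nat.cast_zero, ne_eq, OfNat.ofNat_ne_zero,
    not_false_eq_true, zero_pow, div_zero, sub_zero] at h2
  rw [← h2.tsum_eq]
  refine tsum_congr fun n => ?_
  rw [Real.rpow_two]
  push_cast
  rfl

theorem zeta_two_lower (t : ℝ) : 1 / 3 ≤ ‖riemannZeta (2 + t * Complex.I)‖ := by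
  have h1 : 1 < (2 + t * Complex.I : ℂ).re := by simp
  rw [zeta_eq_tsum_one_div_nat_add_one_cpow h1]
  have hsumR : Summable fun n : ℕ => 1 / ((n : ℝ) + 1) ^ (2 : ℝ) := by
    have := (Real.summable_one_div_nat_rpow (p := 2)).mpr (by norm_num)
    have h2 := (summable_nat_add_iff 1).mpr this
    simpa using h2
  have hn : ∀ n : ℕ, ‖(1 / ((n : ℂ) + 1) ^ (2 + t * Complex.I : ℂ))‖ =
      1 / ((n : ℝ) + 1) ^ (2 : ℝ) := by
    intro n
    have hpos : (0 : ℝ) < (n : ℝ) + 1 := by positivity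
    have h3 : ((n : ℂ) + 1) = (((n : ℝ) + 1 : ℝ) : ℂ) := by push_cast; ring
    rw [norm_div, norm_one, h3, Complex.norm_cpow_eq_rpow_re_of_pos hpos]
    simp
  have hsumC : Summable fun n : ℕ => (1 / ((n : ℂ) + 1) ^ (2 + t * Complex.I : ℂ)) := by
    apply Summable.of_norm
    simp_rw [hn]
    exact hsumR
  rw [hsumC.tsum_eq_zero_add]
  have h0 : (1 / (((0 : ℕ) : ℂ) + 1) ^ (2 + t * Complex.I : ℂ)) = 1 := by simp
  rw [h0]
  have htail : ‖∑' n : ℕ, (1 / (((n + 1 : ℕ) : ℂ) + 1) ^ (2 + t * Complex.I : ℂ))‖ ≤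
      Real.pi ^ 2 / 6 - 1 := by
    have h4 := hsumR.tsum_eq_zero_add
    rw [tsum_two] at h4
    have h5 : (1 : ℝ) / (((0 : ℕ) : ℝ) + 1) ^ (2 : ℝ) = 1 := by simp
    rw [h5] at h4
    have h6 : Real.pi ^ 2 / 6 - 1 = ∑' n : ℕ, 1 / (((n + 1 : ℕ) : ℝ) + 1) ^ (2 : ℝ) := by
      linarith
    rw [h6]
    refine tsum_of_norm_bounded ((summable_nat_add_iff 1).mpr hsumR).hasSum (fun n => ?_)
    rw [hn (n + 1)]
  have h7 : (1 : ℝ) - (Real.pi ^ 2 / 6 - 1) ≤
      ‖(1 : ℂ) + ∑' n : ℕ, (1 / (((n + 1 : ℕ) : ℂ) + 1) ^ (2 + t * Complex.I : ℂ))‖ := by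
    have h8 := norm_sub_norm_le (1 : ℂ)
      (-∑' n : ℕ, (1 / (((n + 1 : ℕ) : ℂ) + 1) ^ (2 + t * Complex.I : ℂ)))
    rw [norm_neg, norm_one, sub_neg_eq_add] at h8
    linarith
  have hpi2 := Real.pi_lt_d2
  have hpi0 := Real.pi_pos
  nlinarith

theorem zeta_two_upper (t : ℝ) : ‖riemannZeta (2 + t * Complex.I)‖ ≤ 2 := by
  have h := zeta_tsum_bound (2 + t * Complex.I) 2 (by norm_num) (by simp)
  rw [tsum_two] at h
  have hpi2 := Real.pi_lt_d2
  have hpi0 := Real.pi_pos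
  nlinarith

private theorem step (n : ℕ) (hn : 1 ≤ n) :
    1 / ((n : ℝ) + 1) ^ (5 / 4 : ℝ) ≤
      4 / (n : ℝ) ^ (1 / 4 : ℝ) - 4 / ((n : ℝ) + 1) ^ (1 / 4 : ℝ) := by
  have hn' : (1 : ℝ) ≤ n := by exact_mod_cast hn
  have hpos : (0 : ℝ) < (n : ℝ) + 1 := by positivity
  have hn0 : (0 : ℝ) < n := by linarith
  set b := ((n : ℝ) + 1) ^ (1 / 4 : ℝ) with hb
  set a := (n : ℝ) ^ (1 / 4 : ℝ) with ha
  have hb0 : 0 < b := Real.rpow_pos_of_pos hpos _
  have ha0 : 0 < a := Real.rpow_pos_of_pos hn0 _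
  have hb4 : b ^ 4 = (n : ℝ) + 1 := by
    rw [hb, ← Real.rpow_natCast, ← Real.rpow_mul hpos.le]; norm_num
  have ha4 : a ^ 4 = (n : ℝ) := by
    rw [ha, ← Real.rpow_natCast, ← Real.rpow_mul hn0.le]; norm_num
  have h5 : ((n : ℝ) + 1) ^ (5 / 4 : ℝ) = ((n : ℝ) + 1) * b := by
    rw [hb]
    nth_rewrite 2 [← Real.rpow_one ((n : ℝ) + 1)]
    rw [← Real.rpow_add hpos]; norm_num
  rw [h5]
  -- key: a * (1 + 1 / (4 (n+1))) ≤ b
  have key : a * (1 + 1 / (4 * ((n : ℝ) + 1))) ≤ b := by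
    refine le_of_pow_le_pow_left₀ (n := 4) (by norm_num) hb0.le ?_
    rw [mul_pow, ha4, hb4]
    have h6 : (1 + 1 / (4 * ((n : ℝ) + 1))) = (4 * n + 5) / (4 * ((n : ℝ) + 1)) := by
      field_simp; ring
    rw [h6, div_pow, mul_div_assoc', div_le_iff₀ (by positivity)]
    nlinarith [pow_pos hn0 2, pow_pos hn0 3, pow_pos hn0 4]
  rw [div_sub_div _ _ ha0.ne' hb0.ne', div_le_div_iff₀ (by positivity) (by positivity)]
  have key2 : a ≤ 4 * ((n : ℝ) + 1) * (b - a) := by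
    have h7 : a * (1 + 1 / (4 * ((n : ℝ) + 1))) * (4 * ((n : ℝ) + 1)) ≤
        b * (4 * ((n : ℝ) + 1)) := by gcongr
    have h8 : a * (1 + 1 / (4 * ((n : ℝ) + 1))) * (4 * ((n : ℝ) + 1)) =
        a * (4 * ((n : ℝ) + 1)) + a := by
      field_simp
    rw [h8] at h7
    linarith
  nlinarith

theorem zeta_right_upper (s : ℂ) (hs : 5 / 4 ≤ s.re) : ‖riemannZeta s‖ ≤ 5 := by
  refine (zeta_tsum_bound s (5 / 4) (by norm_num) hs).trans ?_
  refine Real.tsum_le_of_sum_range_le (fun n => by positivity) (fun N => ?_)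
  have h : ∀ N : ℕ, ∑ i ∈ Finset.range (N + 1), 1 / ((i : ℝ) + 1) ^ (5 / 4 : ℝ) ≤
      5 - 4 / ((N : ℝ) + 1) ^ (1 / 4 : ℝ) := by
    intro N
    induction N with
    | zero => norm_num
    | succ N ih =>
      rw [Finset.sum_range_succ]
      have := step (N + 1) (by omega)
      push_cast at this ⊢
      linarith
  rcases N with _ | N
  · norm_num
  · refine (h N).trans ?_
    have : 0 ≤ 4 / ((N : ℝ) + 1) ^ (1 / 4 : ℝ) := by positivity
    linarith

end Pool.Agent.H95.GC
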