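import Pool.Agent.H95.GC.CoreA

set_option autoImplicit false

namespace Pool.Agent.H95.GC

open Set MeasureTheory

theorem lower_K (δ : ℝ) (hδ0 : 0 < δ) (hδ1 : δ ≤ 1 / 2) (s : ℂ) (hs : ‖s‖ * δ ≤ 1 / 4) :
    δ / 4 ≤ ‖∫ v in Ioo (-Real.log (1 + δ / 2)) (-Real.log (1 - δ / 2)),
      Complex.exp (-s * v)‖ := by
  have hl1 : 0 ≤ Real.log (1 + δ / 2) := Real.log_nonneg (by linarith)
  have hl2 : Real.log (1 + δ / 2) ≤ δ / 2 := by
    have := Real.log_le_sub_one_of_pos (show 0 < 1 + δ / 2 by linarith)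
    linarith
  have hl3 : Real.log (1 - δ / 2) ≤ -(δ / 2) := by
    have := Real.log_le_sub_one_of_pos (show 0 < 1 - δ / 2 by linarith)
    linarith
  have hl4 : -δ ≤ Real.log (1 - δ / 2) := by
    rw [Real.le_log_iff_exp_le (by linarith), Real.exp_neg]
    have h1 : 1 + δ ≤ Real.exp δ := by
      have := Real.add_one_le_exp δ; linarith
    have h2 : (Real.exp δ)⁻¹ ≤ (1 + δ)⁻¹ := inv_anti₀ (by linarith) h1
    have h3 : (1 + δ)⁻¹ ≤ 1 - δ / 2 := by
      rw [inv_le_iff_one_le_mul₀ (by linarith)]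
      nlinarith
    linarith
  have hab : -Real.log (1 + δ / 2) ≤ -Real.log (1 - δ / 2) := by linarith
  have hint : IntegrableOn (fun v : ℝ => Complex.exp (-s * v))
      (Ioo (-Real.log (1 + δ / 2)) (-Real.log (1 - δ / 2))) := by
    apply IntegrableOn.mono_set (t := Icc (-Real.log (1 + δ / 2)) (-Real.log (1 - δ / 2))) _
      Ioo_subset_Icc_self
    exact (by fun_prop : Continuous (fun v : ℝ => Complex.exp (-s * v))).continuousOn.integrableOn_Icc
  have hre : ∀ v ∈ Ioo (-Real.log (1 + δ / 2)) (-Real.log (1 - δ / 2)),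
      (1 / 2 : ℝ) ≤ (Complex.exp (-s * v)).re := by
    intro v hv
    have hv1 : |v| ≤ δ := by
      rw [abs_le]; constructor <;> linarith [hv.1, hv.2]
    have h1 : ‖-s * (v : ℂ)‖ ≤ 1 / 4 := by
      rw [norm_mul, norm_neg, Complex.norm_real, Real.norm_eq_abs]
      calc ‖s‖ * |v| ≤ ‖s‖ * δ := mul_le_mul_of_nonneg_left hv1 (norm_nonneg _)
        _ ≤ 1 / 4 := hs
    have h2 : ‖Complex.exp (-s * v) - 1‖ ≤ 2 * ‖-s * (v : ℂ)‖ :=
      Complex.norm_exp_sub_one_le (by linarith)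
    have h3 : |(Complex.exp (-s * v) - 1).re| ≤ 1 / 2 :=
      (Complex.abs_re_le_norm _).trans (by linarith)
    rw [Complex.sub_re, Complex.one_re, abs_le] at h3
    linarith [h3.1]
  have h4 : (∫ v in Ioo (-Real.log (1 + δ / 2)) (-Real.log (1 - δ / 2)),
      Complex.exp (-s * v)).re = ∫ v in Ioo (-Real.log (1 + δ / 2)) (-Real.log (1 - δ / 2)),
      (Complex.exp (-s * v)).re := by
    exact (integral_re hint).symm
  have h5 : ∫ v in Ioo (-Real.log (1 + δ / 2)) (-Real.log (1 - δ / 2)), (1 / 2 : ℝ)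
      ≤ ∫ v in Ioo (-Real.log (1 + δ / 2)) (-Real.log (1 - δ / 2)),
      (Complex.exp (-s * v)).re := by
    apply setIntegral_mono_on _ hint.re measurableSet_Ioo hre
    apply integrableOn_const (by simp)
  have h6 : ∫ v in Ioo (-Real.log (1 + δ / 2)) (-Real.log (1 - δ / 2)), (1 / 2 : ℝ)
      = (-Real.log (1 - δ / 2) - -Real.log (1 + δ / 2)) * (1 / 2) := by
    rw [setIntegral_const, smul_eq_mul, Measure.real, Real.volume_Ioo,
      ENNReal.toReal_ofReal (by linarith)]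
  calc δ / 4 ≤ (-Real.log (1 - δ / 2) - -Real.log (1 + δ / 2)) * (1 / 2) := by linarith
    _ ≤ (∫ v in Ioo (-Real.log (1 + δ / 2)) (-Real.log (1 - δ / 2)),
      Complex.exp (-s * v)).re := by rw [h4, ← h6]; exact h5
    _ ≤ _ := Complex.re_le_norm _

theorem upper_P1 (δ n ν : ℝ) (hδ0 : 0 < δ) (hδ1 : δ ≤ 1 / 2) (hn : 0 ≤ n)
    (s : ℂ) (hs0 : 0 ≤ s.re) (hs1 : s.re ≤ 1) (η : ℝ)
    (hZ : ∀ u ∈ Icc (-1) n, ‖Z s (ν - u)‖ ≤ η) :
    ‖∫ u in (-1 : ℝ)..n, (g δ u : ℂ) * Complex.exp (-s * u) * Z s (ν - u)‖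
      ≤ 6 * Real.exp n * η * (n + 1) := by
  have h1 : ∀ u ∈ uIoc (-1 : ℝ) n, ‖(g δ u : ℂ) * Complex.exp (-s * u) * Z s (ν - u)‖
      ≤ 6 * Real.exp n * η := by
    intro u hu
    rw [uIoc_of_le (by linarith)] at hu
    have hη : 0 ≤ η := (norm_nonneg _).trans (hZ u ⟨hu.1.le, hu.2⟩)
    rw [norm_mul, norm_mul, Complex.norm_real, Complex.norm_exp, Real.norm_eq_abs]
    have h2 : |g δ u| ≤ 2 * Real.exp n := by
      have h3 := abs_g_le δ u hδ0 (by linarith)
      have h4 : Real.exp u ≤ Real.exp n := Real.exp_le_exp.mpr hu.2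
      have h5 : 1 ≤ Real.exp n := Real.one_le_exp hn
      linarith
    have h6 : Real.exp ((-s * (u : ℂ)).re) ≤ 3 := by
      have h7 : (-s * (u : ℂ)).re ≤ 1 := by
        rw [Complex.re_mul_ofReal, Complex.neg_re]
        nlinarith [hu.1]
      calc Real.exp ((-s * (u : ℂ)).re) ≤ Real.exp 1 := Real.exp_le_exp.mpr h7
        _ ≤ 3 := by linarith [Real.exp_one_lt_d9]
    calc |g δ u| * Real.exp ((-s * (u : ℂ)).re) * ‖Z s (ν - u)‖
        ≤ (2 * Real.exp n) * 3 * η := by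
          apply mul_le_mul _ (hZ u ⟨hu.1.le, hu.2⟩) (norm_nonneg _) (by positivity)
          apply mul_le_mul h2 h6 (Real.exp_pos _).le (by positivity)
      _ = 6 * Real.exp n * η := by ring
  have h2 := intervalIntegral.norm_integral_le_of_norm_le_const h1
  rw [abs_of_nonneg (by linarith : (0 : ℝ) ≤ n - -1)] at h2
  calc _ ≤ _ := h2
    _ = _ := by ring

end Pool.Agent.H95.GC
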