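import Pool.Agent.H95.GC.Ident

set_option autoImplicit false

namespace Pool.Agent.H95.GC

open Set MeasureTheory

private theorem measurable_M_left (H : ℝ) : Measurable fun x => M x H := by
  have h : (fun x => M x H) = Function.uncurry M ∘ fun x : ℝ => (x, H) := by
    funext x; rfl
  rw [h]
  exact measurable_M.comp (by fun_prop)

private theorem intervalIntegrable_M_sq (H : ℝ) (hH : 0 ≤ H) (a b : ℝ) :
    IntervalIntegrable (fun x => (M x H) ^ 2) volume a b := by
  rw [intervalIntegrable_iff]
  refine Measure.integrableOn_of_bounded (M := (H + 1) ^ 2) ?_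
    ((measurable_M_left H).pow_const 2).aestronglyMeasurable ?_
  · rw [uIoc]
    simp
  · refine Filter.Eventually.of_forall fun x => ?_
    rw [Real.norm_eq_abs, abs_pow]
    exact pow_le_pow_left₀ (abs_nonneg _) (abs_M_le x H hH) 2

/-- the pointwise identity away from the end points of the small windows -/
private theorem M_split (x H : ℝ) (m : ℕ) (hm : 1 ≤ m) (hH : 0 < H)
    (hx : ∀ n j : ℕ, x ≠ (n : ℝ) - ((j : ℝ) - m / 2) * (H / m)) :
    M x H = ∑ i ∈ Finset.range m, M (x + ((i : ℝ) - ((m : ℝ) - 1) / 2) * (H / m)) (H / m) := by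
  have hm0 : (0 : ℝ) < m := by exact_mod_cast hm
  set h := H / m with hh
  have hh0 : 0 < h := by positivity
  have hHh : H = m * h := by rw [hh]; field_simp
  obtain ⟨L, hL⟩ := exists_nat_ge (x + 2 * H)
  rw [M_eq_sum x H L (by linarith)]
  have hi : ∀ i ∈ Finset.range m, M (x + ((i : ℝ) - ((m : ℝ) - 1) / 2) * h) h
      = ∑ n ∈ Finset.range L, (if |(n : ℝ) - (x + ((i : ℝ) - ((m : ℝ) - 1) / 2) * h)| < h / 2 then
          ((ArithmeticFunction.moebius n : ℤ) : ℝ) else 0) := by
    intro i hi
    apply M_eq_sum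
    refine le_trans ?_ hL
    have him : (i : ℝ) + 1 ≤ m := by
      have := Finset.mem_range.1 hi
      exact_mod_cast this
    have : ((i : ℝ) - ((m : ℝ) - 1) / 2) * h + h / 2 ≤ 2 * (m * h) := by
      have : ((i : ℝ) - ((m : ℝ) - 1) / 2) + 1 / 2 ≤ 2 * m := by linarith
      nlinarith
    rw [hHh]
    linarith
  rw [Finset.sum_congr rfl hi, Finset.sum_comm]
  refine Finset.sum_congr rfl fun n _ => ?_
  -- for each `n`, exactly one window contains it, or none
  by_cases hn : |(n : ℝ) - x| < H / 2
  · rw [if_pos hn]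
    have h1 := abs_lt.1 hn
    -- the index
    set y : ℝ := ((n : ℝ) - x) / h + m / 2 with hy
    have hy0 : 0 < y := by
      rw [hy]
      have : -(m / 2 : ℝ) < ((n : ℝ) - x) / h := by
        rw [lt_div_iff₀ hh0]
        rw [hHh] at h1
        linarith [h1.1]
      linarith
    have hym : y < m := by
      rw [hy]
      have : ((n : ℝ) - x) / h < (m / 2 : ℝ) := by
        rw [div_lt_iff₀ hh0]
        rw [hHh] at h1
        linarith [h1.2]
      linarith
    set i := ⌊y⌋₊ with hi'
    have hi1 : (i : ℝ) ≤ y := Nat.floor_le hy0.le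
    have hi2 : y < (i : ℝ) + 1 := Nat.lt_floor_add_one y
    have hi3 : (i : ℝ) ≠ y := by
      intro heq
      apply hx n i
      rw [heq, hy]
      field_simp
      ring
    have hi4 : (i : ℝ) < y := lt_of_le_of_ne hi1 hi3
    have him : i ∈ Finset.range m := by
      rw [Finset.mem_range]
      have : (i : ℝ) < m := by linarith
      exact_mod_cast this
    have hnx : (n : ℝ) - x = (y - m / 2) * h := by
      rw [hy]; field_simp; ring
    rw [Finset.sum_eq_single_of_mem i him]
    · rw [if_pos]
      have e : (n : ℝ) - (x + ((i : ℝ) - ((m : ℝ) - 1) / 2) * h) = (y - i - 1 / 2) * h := by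
        have : (n : ℝ) = x + (y - m / 2) * h := by linarith
        rw [this]; ring
      rw [e, abs_lt]
      constructor <;> nlinarith
    · intro j _ hj
      rw [if_neg]
      intro hlt
      have e : (n : ℝ) - (x + ((j : ℝ) - ((m : ℝ) - 1) / 2) * h) = (y - j - 1 / 2) * h := by
        have : (n : ℝ) = x + (y - m / 2) * h := by linarith
        rw [this]; ring
      rw [e, abs_lt] at hlt
      have h3 : (j : ℝ) < y := by
        by_contra hcon
        push Not at hcon
        nlinarith [hlt.1]
      have h4 : y < (j : ℝ) + 1 := by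
        by_contra hcon
        push Not at hcon
        nlinarith [hlt.2]
      apply hj
      rw [hi']
      symm
      rw [Nat.floor_eq_iff hy0.le]
      exact ⟨h3.le, h4⟩
  · rw [if_neg hn]
    symm
    apply Finset.sum_eq_zero
    intro i hi
    rw [if_neg]
    intro hlt
    apply hn
    have him : (i : ℝ) + 1 ≤ m := by
      have := Finset.mem_range.1 hi
      exact_mod_cast this
    have hi0 : (0 : ℝ) ≤ i := Nat.cast_nonneg i
    rw [abs_lt] at hlt ⊢
    rw [hHh]
    constructor
    · have : -(m * h / 2) ≤ ((i : ℝ) - ((m : ℝ) - 1) / 2) * h - h / 2 := by nlinarith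
      linarith [hlt.1]
    · have : ((i : ℝ) - ((m : ℝ) - 1) / 2) * h + h / 2 ≤ m * h / 2 := by nlinarith
      linarith [hlt.2]

/-- Splitting a window into `m` equal windows. -/
theorem subdiv (Y H : ℝ) (m : ℕ) (hm : 1 ≤ m) (hH : 0 < H) (hY : 5 * H ≤ 2 * Y) :
    ∫ x in Y..(7 / 5 * Y), (M x H) ^ 2
      ≤ (m : ℝ) ^ 2 * ∫ x in (4 / 5 * Y)..(2 * (4 / 5 * Y)), (M x (H / m)) ^ 2 := by
  have hm0 : (0 : ℝ) < m := by exact_mod_cast hm
  have hY0 : 0 < Y := by linarith
  set h := H / m with hh
  have hh0 : 0 < h := by positivity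
  have hHh : H = m * h := by rw [hh]; field_simp
  set s : ℕ → ℝ := fun i => ((i : ℝ) - ((m : ℝ) - 1) / 2) * h with hs
  have hs1 : ∀ i ∈ Finset.range m, |s i| ≤ H / 2 := by
    intro i hi
    have him : (i : ℝ) + 1 ≤ m := by
      have := Finset.mem_range.1 hi
      exact_mod_cast this
    have hi0 : (0 : ℝ) ≤ i := Nat.cast_nonneg i
    rw [hs, abs_le]
    simp only
    rw [hHh]
    constructor <;> nlinarith
  -- exceptional set
  have hae : ∀ᵐ x ∂(volume : Measure ℝ),
      ∀ n j : ℕ, x ≠ (n : ℝ) - ((j : ℝ) - m / 2) * (H / m) := by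
    rw [ae_all_iff]
    intro n
    rw [ae_all_iff]
    intro j
    exact (measure_eq_zero_iff_ae_notMem.1 (measure_singleton _)).mono fun x hx => by simpa using hx
  have hle : Y ≤ 7 / 5 * Y := by linarith
  have step1 : ∫ x in Y..(7 / 5 * Y), (M x H) ^ 2
      ≤ ∫ x in Y..(7 / 5 * Y), (m : ℝ) * ∑ i ∈ Finset.range m, (M (x + s i) h) ^ 2 := by
    apply intervalIntegral.integral_mono_ae hle (intervalIntegrable_M_sq H hH.le _ _)
    · apply IntervalIntegrable.const_mul
      have e : (fun x => ∑ i ∈ Finset.range m, M (x + s i) h ^ 2)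
          = ∑ i ∈ Finset.range m, fun x => M (x + s i) h ^ 2 := by
        funext x
        rw [Finset.sum_apply]
      rw [e]
      apply IntervalIntegrable.sum
      intro i _
      have := (intervalIntegrable_M_sq h hh0.le (Y + s i) (7 / 5 * Y + s i)).comp_add_right (s i)
      simpa using this
    · filter_upwards [hae] with x hx
      rw [M_split x H m hm hH hx]
      have := sq_sum_le_card_mul_sum_sq (s := Finset.range m)
        (f := fun i : ℕ => M (x + ((i : ℝ) - ((m : ℝ) - 1) / 2) * (H / m)) (H / m))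
      rw [Finset.card_range] at this
      exact this
  refine step1.trans ?_
  rw [intervalIntegral.integral_const_mul, intervalIntegral.integral_finsetSum]
  · have step2 : ∀ i ∈ Finset.range m, ∫ x in Y..(7 / 5 * Y), (M (x + s i) h) ^ 2
        ≤ ∫ x in (4 / 5 * Y)..(2 * (4 / 5 * Y)), (M x h) ^ 2 := by
      intro i hi
      have h1 := abs_le.1 (hs1 i hi)
      rw [intervalIntegral.integral_comp_add_right (fun x => (M x h) ^ 2)]
      apply intervalIntegral.integral_mono_interval
      · linarith
      · linarith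
      · linarith
      · exact Filter.Eventually.of_forall fun x => sq_nonneg _
      · exact intervalIntegrable_M_sq h hh0.le _ _
    have step3 := Finset.sum_le_sum step2
    rw [Finset.sum_const, Finset.card_range, nsmul_eq_mul] at step3
    calc (m : ℝ) * ∑ i ∈ Finset.range m, ∫ x in Y..(7 / 5 * Y), (M (x + s i) h) ^ 2
        ≤ (m : ℝ) * ((m : ℝ) * ∫ x in (4 / 5 * Y)..(2 * (4 / 5 * Y)), (M x h) ^ 2) :=
          mul_le_mul_of_nonneg_left step3 hm0.le
      _ = _ := by ring
  · intro i _
    have := (intervalIntegrable_M_sq h hh0.le (Y + s i) (7 / 5 * Y + s i)).comp_add_right (s i)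
    simpa using this

end Pool.Agent.H95.GC
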