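import Pool.Agent.H95.GC.Defs

set_option autoImplicit false

namespace Pool.Agent.H95.GC

open Set MeasureTheory

/-- `M x H` as a sum over any longer range. -/
theorem M_eq_sum (x H : ℝ) (L : ℕ) (hL : x + H / 2 ≤ L) :
    M x H = ∑ n ∈ Finset.range L,
      (if |(n : ℝ) - x| < H / 2 then ((ArithmeticFunction.moebius n : ℤ) : ℝ) else 0) := by
  unfold M
  rw [← Finset.sum_filter]
  refine Finset.sum_congr ?_ fun _ _ => rfl
  ext n
  simp only [Finset.mem_filter, Finset.mem_range, and_congr_left_iff]
  intro hn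
  have hH : 0 < H := by
    have := (abs_nonneg _).trans_lt hn
    linarith
  have h1 : (n : ℝ) < x + H / 2 := by
    have := (abs_lt.1 hn).2
    linarith
  constructor
  · intro _
    exact_mod_cast h1.trans_le hL
  · intro _
    have h2 : (n : ℝ) < (⌈x + H⌉₊ : ℝ) + 1 := by
      have := Nat.le_ceil (x + H)
      linarith
    exact_mod_cast h2

theorem measurable_M : Measurable (Function.uncurry M) := by
  have hlim : ∀ p : ℝ × ℝ, Filter.Tendsto (fun L : ℕ => ∑ n ∈ Finset.range L,
      (if |(n : ℝ) - p.1| < p.2 / 2 then ((ArithmeticFunction.moebius n : ℤ) : ℝ) else 0))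
      Filter.atTop (nhds (Function.uncurry M p)) := by
    intro p
    apply tendsto_const_nhds.congr'
    filter_upwards [Filter.eventually_ge_atTop ⌈p.1 + p.2 / 2⌉₊] with L hL
    rw [← M_eq_sum p.1 p.2 L ((Nat.le_ceil _).trans (by exact_mod_cast hL))]
    rfl
  refine measurable_of_tendsto_metrizable (f := fun (L : ℕ) (p : ℝ × ℝ) => ∑ n ∈ Finset.range L,
      (if |(n : ℝ) - p.1| < p.2 / 2 then ((ArithmeticFunction.moebius n : ℤ) : ℝ) else 0))
      ?_ (tendsto_pi_nhds.2 hlim)
  intro L
  apply Finset.measurable_sum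
  intro n _
  apply Measurable.ite
  · apply measurableSet_lt
    · fun_prop
    · fun_prop
  · exact measurable_const
  · exact measurable_const

theorem abs_M_le (x H : ℝ) (hH : 0 ≤ H) : |M x H| ≤ H + 1 := by
  unfold M
  set S := (Finset.range (⌈x + H⌉₊ + 1)).filter (fun n : ℕ => |(n : ℝ) - x| < H / 2) with hS
  have h1 : |∑ n ∈ S, ((ArithmeticFunction.moebius n : ℤ) : ℝ)| ≤ S.card := by
    refine (Finset.abs_sum_le_sum_abs _ _).trans ?_
    rw [Finset.card_eq_sum_ones, Nat.cast_sum]
    apply Finset.sum_le_sum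
    intro n _
    have := ArithmeticFunction.abs_moebius_le_one (n := n)
    rw [Nat.cast_one]
    exact_mod_cast this
  refine h1.trans ?_
  rcases S.eq_empty_or_nonempty with h0 | hne
  · rw [h0]; simp; linarith
  · set a := S.min' hne with ha
    set b := S.max' hne with hb
    have haS : a ∈ S := S.min'_mem hne
    have hbS : b ∈ S := S.max'_mem hne
    have hsub : S ⊆ Finset.Icc a b := by
      intro n hn
      rw [Finset.mem_Icc]
      exact ⟨S.min'_le n hn, S.le_max' n hn⟩
    have hcard : S.card ≤ b + 1 - a := by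
      have := Finset.card_le_card hsub
      simpa using this
    have hab : a ≤ b := S.min'_le b hbS
    have h2 : ((b + 1 - a : ℕ) : ℝ) = (b : ℝ) + 1 - a := by
      rw [Nat.cast_sub (by omega)]
      push_cast
      ring
    have h3 : (S.card : ℝ) ≤ (b : ℝ) + 1 - a := by
      rw [← h2]; exact_mod_cast hcard
    have h4 := (abs_lt.1 (Finset.mem_filter.1 haS).2).1
    have h5 := (abs_lt.1 (Finset.mem_filter.1 hbS).2).2
    linarith

/-- no integer `n ≥ 1` in the window -/
theorem M_eq_zero (x δ : ℝ) (hδ0 : 0 < δ) (hδ1 : δ ≤ 1) (hx0 : 0 < x) (hx : x ≤ 2 / 3) :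
    M x (δ * x) = 0 := by
  unfold M
  apply Finset.sum_eq_zero
  intro n hn
  have h := (Finset.mem_filter.1 hn).2
  have h1 := abs_lt.1 h
  have hdx : δ * x ≤ x := by nlinarith
  rcases Nat.eq_zero_or_pos n with h0 | hpos
  · exfalso
    rw [h0] at h1
    have := h1.1
    push_cast at this
    linarith
  · exfalso
    have h2 : (1 : ℝ) ≤ n := by exact_mod_cast hpos
    linarith [h1.2]

/-- The Möbius inversion identity for proportional windows. -/
theorem window_identity (δ x : ℝ) (hδ0 : 0 < δ) (hδ1 : δ ≤ 1) (hx : 0 < x) (K : ℕ)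
    (hK : 3 * x / 2 ≤ K) :
    ∑ k ∈ Finset.Icc 1 K, M (x / k) (δ * (x / k)) = if |1 - x| < δ * x / 2 then 1 else 0 := by
  classical
  have hdx : δ * x ≤ x := by nlinarith
  have hdx0 : 0 < δ * x := by positivity
  -- the inner sums, over a common range
  have hM : ∀ k ∈ Finset.Icc 1 K, M (x / k) (δ * (x / k))
      = ∑ n ∈ Finset.range (K + 1),
        (if |((k * n : ℕ) : ℝ) - x| < δ * x / 2 then
          ((ArithmeticFunction.moebius n : ℤ) : ℝ) else 0) := by
    intro k hk
    have hk1 : (1 : ℝ) ≤ k := by exact_mod_cast (Finset.mem_Icc.1 hk).1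
    have hk0 : (0 : ℝ) < k := by linarith
    rw [M_eq_sum (x / k) (δ * (x / k)) (K + 1)]
    · refine Finset.sum_congr rfl fun n _ => ?_
      have : (|(n : ℝ) - x / k| < δ * (x / k) / 2) ↔ (|((k * n : ℕ) : ℝ) - x| < δ * x / 2) := by
        have e1 : |((k * n : ℕ) : ℝ) - x| = k * |(n : ℝ) - x / k| := by
          rw [← abs_of_pos hk0, ← abs_mul, abs_of_pos hk0]
          congr 1
          push_cast
          field_simp
        have e2 : δ * x / 2 = k * (δ * (x / k) / 2) := by field_simp
        rw [e1, e2]
        exact (mul_lt_mul_iff_right₀ hk0).symm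
      simp only [this]
    · have h1 : x / k ≤ x := div_le_self hx.le hk1
      have h2 : δ * (x / k) ≤ x / k := by
        have : 0 < x / k := by positivity
        nlinarith
      push_cast
      linarith
  rw [Finset.sum_congr rfl hM]
  -- reorganise by `m = k * n`
  have key : ∀ k ∈ Finset.Icc 1 K, ∀ n ∈ Finset.range (K + 1),
      (if |((k * n : ℕ) : ℝ) - x| < δ * x / 2 then
          ((ArithmeticFunction.moebius n : ℤ) : ℝ) else 0)
      = ∑ m ∈ Finset.Icc 1 K, if k * n = m then (if |(m : ℝ) - x| < δ * x / 2 then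
          ((ArithmeticFunction.moebius n : ℤ) : ℝ) else 0) else 0 := by
    intro k hk n hn
    by_cases hw : |((k * n : ℕ) : ℝ) - x| < δ * x / 2
    · have h1 := abs_lt.1 hw
      have hpos : 1 ≤ k * n := by
        rcases Nat.eq_zero_or_pos (k * n) with h0 | hpos
        · exfalso
          rw [h0] at h1
          have := h1.1
          push_cast at this
          linarith
        · exact hpos
      have hle : k * n ≤ K := by
        have : ((k * n : ℕ) : ℝ) < K := by linarith [h1.2]
        exact (by exact_mod_cast this : k * n < K).le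
      rw [Finset.sum_eq_single_of_mem (k * n) (Finset.mem_Icc.2 ⟨hpos, hle⟩)]
      · simp
      · intro m _ hm
        rw [if_neg (fun h => hm h.symm)]
    · rw [if_neg hw]
      symm
      apply Finset.sum_eq_zero
      intro m _
      split_ifs with h1 h2
      · subst h1
        exact absurd h2 hw
      · rfl
      · rfl
  have step1 : ∑ k ∈ Finset.Icc 1 K, ∑ n ∈ Finset.range (K + 1),
        (if |((k * n : ℕ) : ℝ) - x| < δ * x / 2 then
          ((ArithmeticFunction.moebius n : ℤ) : ℝ) else 0)
      = ∑ m ∈ Finset.Icc 1 K, (if |(m : ℝ) - x| < δ * x / 2 then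
          (∑ k ∈ Finset.Icc 1 K, ∑ n ∈ Finset.range (K + 1),
            if k * n = m then ((ArithmeticFunction.moebius n : ℤ) : ℝ) else 0) else 0) := by
    calc _ = ∑ k ∈ Finset.Icc 1 K, ∑ n ∈ Finset.range (K + 1), ∑ m ∈ Finset.Icc 1 K,
            (if k * n = m then (if |(m : ℝ) - x| < δ * x / 2 then
          ((ArithmeticFunction.moebius n : ℤ) : ℝ) else 0) else 0) :=
          Finset.sum_congr rfl fun k hk => Finset.sum_congr rfl fun n hn => key k hk n hn
      _ = ∑ k ∈ Finset.Icc 1 K, ∑ m ∈ Finset.Icc 1 K, ∑ n ∈ Finset.range (K + 1),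
            (if k * n = m then (if |(m : ℝ) - x| < δ * x / 2 then
          ((ArithmeticFunction.moebius n : ℤ) : ℝ) else 0) else 0) :=
          Finset.sum_congr rfl fun k hk => Finset.sum_comm
      _ = ∑ m ∈ Finset.Icc 1 K, ∑ k ∈ Finset.Icc 1 K, ∑ n ∈ Finset.range (K + 1),
            (if k * n = m then (if |(m : ℝ) - x| < δ * x / 2 then
          ((ArithmeticFunction.moebius n : ℤ) : ℝ) else 0) else 0) := Finset.sum_comm
      _ = _ := by
          refine Finset.sum_congr rfl fun m hm => ?_
          by_cases hw : |(m : ℝ) - x| < δ * x / 2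
          · simp only [hw, if_true]
          · simp only [hw, if_false, ite_self, Finset.sum_const_zero]
  rw [step1]
  -- the divisor sum
  have hdiv : ∀ m ∈ Finset.Icc 1 K, (∑ k ∈ Finset.Icc 1 K, ∑ n ∈ Finset.range (K + 1),
            if k * n = m then ((ArithmeticFunction.moebius n : ℤ) : ℝ) else 0)
        = if m = 1 then 1 else 0 := by
    intro m hm
    obtain ⟨hm1, hmK⟩ := Finset.mem_Icc.1 hm
    have h1 : ∑ n ∈ m.divisors, ((ArithmeticFunction.moebius n : ℤ) : ℝ)
        = if m = 1 then 1 else 0 := by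
      have h := congrArg (fun f => f m) ArithmeticFunction.moebius_mul_coe_zeta
      simp only [ArithmeticFunction.mul_zeta_apply, ArithmeticFunction.coe_mul_zeta_apply, ArithmeticFunction.one_apply] at h
      exact_mod_cast h
    rw [← h1, Finset.sum_comm]
    symm
    have hsub : m.divisors ⊆ Finset.range (K + 1) := by
      intro d hd
      have := Nat.divisor_le hd
      simp only [Finset.mem_range]
      omega
    rw [← Finset.sum_subset hsub]
    · refine Finset.sum_congr rfl fun d hd => ?_
      have hdm := Nat.dvd_of_mem_divisors hd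
      obtain ⟨c, hc⟩ := hdm
      have hd0 : 0 < d := Nat.pos_of_mem_divisors hd
      have hc1 : 1 ≤ c := by
        rcases Nat.eq_zero_or_pos c with h0 | h0
        · rw [h0] at hc; omega
        · exact h0
      have hcK : c ≤ K := by
        refine le_trans ?_ hmK
        rw [hc]
        exact Nat.le_mul_of_pos_left c hd0
      rw [Finset.sum_eq_single_of_mem c (Finset.mem_Icc.2 ⟨hc1, hcK⟩)]
      · rw [if_pos (by rw [hc]; ring)]
      · intro k _ hk
        rw [if_neg]
        intro h
        apply hk
        have : k * d = c * d := by rw [h, hc]; ring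
        exact Nat.eq_of_mul_eq_mul_right hd0 this
    · intro n _ hn
      apply Finset.sum_eq_zero
      intro k _
      rw [if_neg]
      intro h
      apply hn
      rw [Nat.mem_divisors]
      exact ⟨⟨k, by rw [← h]; ring⟩, by omega⟩
  have step2 : ∑ m ∈ Finset.Icc 1 K, (if |(m : ℝ) - x| < δ * x / 2 then
          (∑ k ∈ Finset.Icc 1 K, ∑ n ∈ Finset.range (K + 1),
            if k * n = m then ((ArithmeticFunction.moebius n : ℤ) : ℝ) else 0) else 0)
      = ∑ m ∈ Finset.Icc 1 K, if m = 1 then (if |(1 : ℝ) - x| < δ * x / 2 then 1 else 0) else 0 := by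
    refine Finset.sum_congr rfl fun m hm => ?_
    rw [hdiv m hm]
    by_cases h1 : m = 1
    · subst h1
      simp
    · simp [h1]
  rw [step2]
  by_cases hw : |(1 : ℝ) - x| < δ * x / 2
  · have h1 := abs_lt.1 hw
    have hK1 : 1 ≤ K := by
      have : (0 : ℝ) < K := by linarith
      exact_mod_cast this
    rw [Finset.sum_eq_single_of_mem 1 (Finset.mem_Icc.2 ⟨le_rfl, hK1⟩)]
    · simp
    · intro m _ hm
      rw [if_neg hm]
  · simp [hw]

end Pool.Agent.H95.GC
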