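import Pool.Agent.H95.GC.Ident

set_option autoImplicit false

namespace Pool.Agent.H95.GC

open Set MeasureTheory

/-- the window function in the logarithmic variable -/
noncomputable def g (δ u : ℝ) : ℝ := M (Real.exp u) (δ * Real.exp u)

theorem measurable_g (δ : ℝ) : Measurable (g δ) := by
  have h : g δ = fun u => Function.uncurry M (Real.exp u, δ * Real.exp u) := by
    funext u; rfl
  rw [h]
  exact measurable_M.comp (by fun_prop)

theorem abs_g_le (δ u : ℝ) (hδ0 : 0 < δ) (hδ1 : δ ≤ 1) : |g δ u| ≤ Real.exp u + 1 := by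
  have h := abs_M_le (Real.exp u) (δ * Real.exp u) (by positivity)
  have h2 : δ * Real.exp u ≤ 1 * Real.exp u :=
    mul_le_mul_of_nonneg_right hδ1 (Real.exp_pos u).le
  unfold g
  linarith

theorem g_eq_zero (δ u : ℝ) (hδ0 : 0 < δ) (hδ1 : δ ≤ 1) (hu : u ≤ -1) : g δ u = 0 := by
  unfold g
  apply M_eq_zero _ _ hδ0 hδ1 (Real.exp_pos u)
  have h1 : Real.exp u ≤ Real.exp (-1) := Real.exp_le_exp.mpr hu
  have h2 : Real.exp (-1) ≤ 2 / 3 := by
    rw [Real.exp_neg]
    have := Real.exp_one_gt_d9
    rw [inv_le_comm₀ (Real.exp_pos 1) (by norm_num)]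
    linarith
  linarith

theorem stp_of_nonpos {v : ℝ} (h : v ≤ 0) : stp v = 1 :=
  Real.smoothTransition.one_of_one_le (by linarith)

theorem stp_of_one_le {v : ℝ} (h : 1 ≤ v) : stp v = 0 :=
  Real.smoothTransition.zero_of_nonpos (by linarith)

theorem stp_nonneg (v : ℝ) : 0 ≤ stp v := Real.smoothTransition.nonneg _

theorem stp_le_one (v : ℝ) : stp v ≤ 1 := Real.smoothTransition.le_one _

theorem continuous_stp : Continuous stp := by
  unfold stp
  exact Real.smoothTransition.continuous.comp (by fun_prop)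

theorem integrable_of_bdd (f : ℝ → ℂ) (hf : Measurable f) (a b C : ℝ)
    (hb : ∀ x ∈ Icc a b, ‖f x‖ ≤ C) (h0 : ∀ x, x ∉ Icc a b → f x = 0) : Integrable f := by
  have h1 : IntegrableOn f (Icc a b) := by
    apply Measure.integrableOn_of_bounded (M := C) (by simp) hf.aestronglyMeasurable
    filter_upwards [ae_restrict_mem measurableSet_Icc] with x hx using hb x hx
  rw [← integrableOn_univ]
  have : IntegrableOn f (Icc a b ∪ (Icc a b)ᶜ) := by
    apply IntegrableOn.union h1
    exact (integrableOn_zero).congr_fun (fun x hx => (h0 x hx).symm) measurableSet_Icc.compl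
  rwa [union_compl_self] at this

/-- The sum defining `Z` over any longer range. -/
theorem Z_eq_sum (s : ℂ) (w : ℝ) (K : ℕ) (hK : 3 * Real.exp w ≤ K) :
    Z s w = ∑ k ∈ Finset.Icc 1 K, (k : ℂ) ^ (-s) * (stp (Real.log k - w) : ℂ) := by
  unfold Z
  apply Finset.sum_subset
  · intro k hk
    rw [Finset.mem_Icc] at hk ⊢
    refine ⟨hk.1, hk.2.trans ?_⟩
    exact Nat.floor_le_of_le hK
  · intro k hk hk'
    rw [Finset.mem_Icc] at hk hk'
    have h1 : 3 * Real.exp w < k := by
      by_contra hcon
      push Not at hcon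
      exact hk' ⟨hk.1, Nat.le_floor hcon⟩
    have h2 : stp (Real.log k - w) = 0 := by
      apply stp_of_one_le
      have h3 : Real.exp (1 + w) ≤ k := by
        rw [Real.exp_add]
        have := Real.exp_one_lt_d9
        have h4 : Real.exp 1 * Real.exp w ≤ 3 * Real.exp w := by
          apply mul_le_mul_of_nonneg_right _ (Real.exp_pos w).le
          linarith
        linarith
      have h5 : 1 + w ≤ Real.log k := by
        rw [Real.le_log_iff_exp_le (by
          have : (0:ℝ) < Real.exp (1+w) := Real.exp_pos _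
          linarith)]
        exact h3
      linarith
    rw [h2]; simp

theorem cpow_neg_eq (k : ℕ) (hk : 1 ≤ k) (s : ℂ) :
    (k : ℂ) ^ (-s) = Complex.exp (-s * (Real.log k : ℂ)) := by
  have hk0 : (k : ℂ) ≠ 0 := by
    have : 0 < k := hk
    exact_mod_cast this.ne'
  rw [Complex.cpow_def_of_ne_zero hk0]
  congr 1
  rw [Complex.ofReal_log (by positivity)]
  push_cast
  ring

theorem step_one (δ n ν : ℝ) (hδ0 : 0 < δ) (hδ1 : δ ≤ 1 / 2) (hn : 0 ≤ n) (hν : n ≤ ν)
    (hν1 : 1 ≤ ν) (s : ℂ) :
    ∫ v in Ioo (-Real.log (1 + δ / 2)) (-Real.log (1 - δ / 2)), Complex.exp (-s * v)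
      = (∫ u in (-1 : ℝ)..n, (g δ u : ℂ) * Complex.exp (-s * u) * Z s (ν - u))
        + ∫ u in n..(ν + 1), (g δ u : ℂ) * Complex.exp (-s * u) * Z s (ν - u) := by
  obtain ⟨K, hK⟩ := exists_nat_ge (3 * Real.exp (ν + 1))
  set S : Set ℝ := Ioo (-Real.log (1 + δ / 2)) (-Real.log (1 - δ / 2)) with hS
  have hδ1' : δ ≤ 1 := by linarith
  -- membership in S
  have hmem : ∀ v : ℝ, v ∈ S ↔ |1 - Real.exp v| < δ * Real.exp v / 2 := by
    intro v
    have e0 := Real.exp_pos v
    rw [hS, mem_Ioo, abs_lt]
    have h1 : -Real.log (1 + δ / 2) < v ↔ 1 < Real.exp v * (1 + δ / 2) := by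
      rw [neg_lt, Real.lt_log_iff_exp_lt (by linarith), Real.exp_neg,
        inv_lt_iff_one_lt_mul₀ e0, mul_comm]
    have h2 : v < -Real.log (1 - δ / 2) ↔ Real.exp v * (1 - δ / 2) < 1 := by
      rw [lt_neg, Real.log_lt_iff_lt_exp (by linarith), Real.exp_neg,
        lt_inv_comm₀ (by linarith) e0, ← one_div, lt_div_iff₀ (by linarith)]
    rw [h1, h2]
    constructor
    · rintro ⟨h3, h4⟩
      constructor <;> nlinarith
    · rintro ⟨h3, h4⟩
      constructor <;> nlinarith
  -- the key pointwise identity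
  have key : ∀ v : ℝ, (S.indicator (fun v : ℝ => Complex.exp (-s * v)) v)
      = ∑ k ∈ Finset.Icc 1 K, (stp (v - ν) : ℂ) * (g δ (v - Real.log k) : ℂ)
          * Complex.exp (-s * v) := by
    intro v
    rw [← Finset.sum_mul, ← Finset.mul_sum]
    by_cases hv : ν + 1 ≤ v
    · rw [stp_of_one_le (by linarith)]
      have : v ∉ S := by
        intro hvS
        rw [hmem, abs_lt] at hvS
        have h3 : Real.exp 2 ≤ Real.exp v := Real.exp_le_exp.mpr (by linarith)
        have h4 : (2 : ℝ) + 1 ≤ Real.exp 2 := Real.add_one_le_exp 2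
        nlinarith [hvS.1, hvS.2, Real.exp_pos v]
      rw [indicator_of_notMem this]
      simp
    · push Not at hv
      have hev : Real.exp v ≤ Real.exp (ν + 1) := Real.exp_le_exp.mpr hv.le
      have hsum : ∑ k ∈ Finset.Icc 1 K, (g δ (v - Real.log k) : ℂ)
          = if |1 - Real.exp v| < δ * Real.exp v / 2 then 1 else 0 := by
        have h5 := window_identity δ (Real.exp v) hδ0 hδ1' (Real.exp_pos v) K (by
          nlinarith [Real.exp_pos (ν + 1)])
        have h6 : ∑ k ∈ Finset.Icc 1 K, g δ (v - Real.log k)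
            = if |1 - Real.exp v| < δ * Real.exp v / 2 then 1 else 0 := by
          rw [← h5]
          apply Finset.sum_congr rfl
          intro k hk
          rw [Finset.mem_Icc] at hk
          have hk0 : (0 : ℝ) < k := by exact_mod_cast hk.1
          unfold g
          rw [Real.exp_sub, Real.exp_log hk0]
        have h7 := congrArg (fun x : ℝ => (x : ℂ)) h6
        push_cast at h7
        rw [h7]
        split_ifs <;> simp
      rw [hsum]
      by_cases hvS : v ∈ S
      · rw [indicator_of_mem hvS, if_pos ((hmem v).mp hvS)]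
        have hv0 : v ≤ ν := by
          rw [hmem, abs_lt] at hvS
          have h8 : Real.exp v ≤ Real.exp ν := by
            have h9 : (1 : ℝ) + 1 ≤ Real.exp 1 := Real.add_one_le_exp 1
            have h10 : Real.exp 1 ≤ Real.exp ν := Real.exp_le_exp.mpr hν1
            nlinarith [hvS.1, hvS.2, Real.exp_pos v]
          exact Real.exp_le_exp.mp h8
        rw [stp_of_nonpos (by linarith)]
        simp
      · rw [indicator_of_notMem hvS, if_neg (fun h => hvS ((hmem v).mpr h))]
        simp
  -- measurability and integrability of the terms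
  have hmeas : ∀ k : ℕ, Measurable (fun v : ℝ => (stp (v - ν) : ℂ) * (g δ (v - Real.log k) : ℂ)
      * Complex.exp (-s * v)) := by
    intro k
    have h1 : Measurable (fun v : ℝ => (stp (v - ν) : ℂ)) :=
      (Complex.continuous_ofReal.comp (continuous_stp.comp (by fun_prop))).measurable
    have h2 : Measurable (fun v : ℝ => (g δ (v - Real.log k) : ℂ)) :=
      Complex.measurable_ofReal.comp ((measurable_g δ).comp (by fun_prop))
    exact (h1.mul h2).mul (by fun_prop)
  have hint : ∀ k ∈ Finset.Icc 1 K, Integrable (fun v : ℝ => (stp (v - ν) : ℂ)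
      * (g δ (v - Real.log k) : ℂ) * Complex.exp (-s * v)) := by
    intro k hk
    rw [Finset.mem_Icc] at hk
    have hlog : 0 ≤ Real.log k := Real.log_natCast_nonneg k
    apply integrable_of_bdd _ (hmeas k) (-1) (ν + 1)
      ((Real.exp (ν + 1) + 1) * Real.exp (|s.re| * (ν + 2)))
    · intro v hv
      rw [mem_Icc] at hv
      rw [norm_mul, norm_mul, Complex.norm_real, Complex.norm_real, Complex.norm_exp,
        Real.norm_eq_abs, Real.norm_eq_abs, abs_of_nonneg (stp_nonneg _)]
      have h1 : |g δ (v - Real.log k)| ≤ Real.exp (ν + 1) + 1 := by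
        refine (abs_g_le δ _ hδ0 hδ1').trans ?_
        have := Real.exp_le_exp.mpr (show v - Real.log k ≤ ν + 1 by linarith)
        linarith
      have h2 : (-s * (v : ℂ)).re ≤ |s.re| * (ν + 2) := by
        rw [Complex.re_mul_ofReal]
        have h3 : (-s).re * v ≤ |s.re| * |v| := by
          rw [← abs_mul]
          calc (-s).re * v = -(s.re * v) := by simp
            _ ≤ |s.re * v| := neg_le_abs _
        have h4 : |v| ≤ ν + 2 := by
          rw [abs_le]; constructor <;> linarith
        exact h3.trans (mul_le_mul_of_nonneg_left h4 (abs_nonneg _))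
      calc stp (v - ν) * |g δ (v - Real.log k)| * Real.exp ((-s * (v : ℂ)).re)
          ≤ 1 * (Real.exp (ν + 1) + 1) * Real.exp (|s.re| * (ν + 2)) := by
            apply mul_le_mul _ (Real.exp_le_exp.mpr h2) (Real.exp_pos _).le (by positivity)
            apply mul_le_mul (stp_le_one _) h1 (abs_nonneg _) zero_le_one
        _ = _ := by ring
    · intro v hv
      rw [mem_Icc, not_and_or] at hv
      push Not at hv
      rcases hv with hv | hv
      · rw [g_eq_zero δ _ hδ0 hδ1' (by linarith)]; simp
      · rw [stp_of_one_le (by linarith)]; simp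
  -- integrate
  have hLHS : ∫ v in S, Complex.exp (-s * v)
      = ∑ k ∈ Finset.Icc 1 K, ∫ v : ℝ, (stp (v - ν) : ℂ) * (g δ (v - Real.log k) : ℂ)
          * Complex.exp (-s * v) := by
    rw [← integral_indicator measurableSet_Ioo, ← integral_finsetSum _ hint]
    apply integral_congr_ae
    exact Filter.Eventually.of_forall key
  have hshift : ∀ k : ℕ, ∫ v : ℝ, (stp (v - ν) : ℂ) * (g δ (v - Real.log k) : ℂ)
          * Complex.exp (-s * v)
        = ∫ u : ℝ, (stp (u + Real.log k - ν) : ℂ) * (g δ u : ℂ)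
          * Complex.exp (-s * ((u + Real.log k : ℝ) : ℂ)) := by
    intro k
    rw [← integral_add_right_eq_self _ (Real.log k)]
    congr 1
    funext u
    rw [add_sub_cancel_right]
  have hint2 : ∀ k ∈ Finset.Icc 1 K, Integrable (fun u : ℝ => (stp (u + Real.log k - ν) : ℂ)
      * (g δ u : ℂ) * Complex.exp (-s * ((u + Real.log k : ℝ) : ℂ))) := by
    intro k hk
    have h1 := (hint k hk).comp_add_right (Real.log k)
    refine h1.congr (Filter.Eventually.of_forall fun u => ?_)
    show _ = _
    simp only []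
    rw [add_sub_cancel_right]
  have hfun : ∀ u : ℝ, -1 < u → ∑ k ∈ Finset.Icc 1 K, (stp (u + Real.log k - ν) : ℂ)
      * (g δ u : ℂ) * Complex.exp (-s * ((u + Real.log k : ℝ) : ℂ))
      = (g δ u : ℂ) * Complex.exp (-s * u) * Z s (ν - u) := by
    intro u hu
    rw [Z_eq_sum s (ν - u) K (by
      have : Real.exp (ν - u) ≤ Real.exp (ν + 1) := Real.exp_le_exp.mpr (by linarith)
      linarith), Finset.mul_sum]
    apply Finset.sum_congr rfl
    intro k hk
    rw [Finset.mem_Icc] at hk
    rw [cpow_neg_eq k hk.1]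
    have h1 : Complex.exp (-s * ((u + Real.log k : ℝ) : ℂ))
        = Complex.exp (-s * u) * Complex.exp (-s * (Real.log k : ℂ)) := by
      rw [← Complex.exp_add]; congr 1; push_cast; ring
    rw [h1, show u + Real.log k - ν = Real.log k - (ν - u) by ring]
    ring
  have hzero : ∀ u : ℝ, u ∉ Ioc (-1) (ν + 1) → ∑ k ∈ Finset.Icc 1 K,
      (stp (u + Real.log k - ν) : ℂ)
      * (g δ u : ℂ) * Complex.exp (-s * ((u + Real.log k : ℝ) : ℂ)) = 0 := by
    intro u hu
    apply Finset.sum_eq_zero
    intro k hk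
    have hlog : 0 ≤ Real.log k := Real.log_natCast_nonneg k
    rw [mem_Ioc, not_and_or] at hu
    push Not at hu
    rcases hu with hu | hu
    · rw [g_eq_zero δ _ hδ0 hδ1' (by linarith)]; simp
    · rw [stp_of_one_le (by linarith)]; simp
  have htot : Integrable (fun u : ℝ => ∑ k ∈ Finset.Icc 1 K, (stp (u + Real.log k - ν) : ℂ)
      * (g δ u : ℂ) * Complex.exp (-s * ((u + Real.log k : ℝ) : ℂ))) :=
    integrable_finsetSum _ hint2
  rw [hLHS, Finset.sum_congr rfl (fun k _ => hshift k), ← integral_finsetSum _ hint2]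
  have h10 : ∫ u : ℝ, ∑ k ∈ Finset.Icc 1 K, (stp (u + Real.log k - ν) : ℂ)
      * (g δ u : ℂ) * Complex.exp (-s * ((u + Real.log k : ℝ) : ℂ))
      = ∫ u in Ioc (-1 : ℝ) (ν + 1), ∑ k ∈ Finset.Icc 1 K, (stp (u + Real.log k - ν) : ℂ)
      * (g δ u : ℂ) * Complex.exp (-s * ((u + Real.log k : ℝ) : ℂ)) := by
    rw [setIntegral_eq_integral_of_forall_compl_eq_zero]
    intro u hu
    exact hzero u hu
  have hII : ∀ a b : ℝ, IntervalIntegrable (fun u : ℝ => ∑ k ∈ Finset.Icc 1 K,
      (stp (u + Real.log k - ν) : ℂ)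
      * (g δ u : ℂ) * Complex.exp (-s * ((u + Real.log k : ℝ) : ℂ))) volume a b :=
    fun a b => htot.intervalIntegrable
  rw [h10, ← intervalIntegral.integral_of_le (by linarith : (-1 : ℝ) ≤ ν + 1),
    ← intervalIntegral.integral_add_adjacent_intervals (hII (-1) n) (hII n (ν + 1))]
  congr 1
  · rw [intervalIntegral.integral_of_le (by linarith), intervalIntegral.integral_of_le (by linarith)]
    apply setIntegral_congr_fun measurableSet_Ioc
    intro u hu
    exact hfun u hu.1
  · rw [intervalIntegral.integral_of_le (by linarith), intervalIntegral.integral_of_le (by linarith)]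
    apply setIntegral_congr_fun measurableSet_Ioc
    intro u hu
    exact hfun u (by linarith [hu.1])

end Pool.Agent.H95.GC
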