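import Pool.Agent.H95.GC.Defs

set_option autoImplicit false

namespace Pool.Agent.H95.GC

open Set MeasureTheory
open scoped ENNReal

theorem blocks_log : (3 / 10 : ℝ) ≤ Real.log (7 / 5) := by
  rw [Real.le_log_iff_exp_le (by norm_num)]
  have h1 : Real.exp (3 / 10) ^ 10 = Real.exp 1 ^ 3 := by
    rw [← Real.exp_nat_mul, ← Real.exp_nat_mul]
    norm_num
  have h2 : Real.exp 1 ^ 3 ≤ (7 / 5 : ℝ) ^ 10 := by
    have h3 : Real.exp 1 ≤ 2.7182818286 := Real.exp_one_lt_d9.le
    calc Real.exp 1 ^ 3 ≤ 2.7182818286 ^ 3 := pow_le_pow_left₀ (Real.exp_pos 1).le h3 3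
      _ ≤ _ := by norm_num
  by_contra hcon
  rw [not_le] at hcon
  have := pow_lt_pow_left₀ hcon (by norm_num) (n := 10) (by norm_num)
  linarith

theorem blocks_image_mul (δ₀ u : ℝ) :
    (fun δ : ℝ => δ * Real.exp u) '' Icc δ₀ (2 * δ₀) =
      Icc (δ₀ * Real.exp u) (2 * δ₀ * Real.exp u) :=
  Set.image_mul_right_Icc' _ _ (Real.exp_pos u)

theorem blocks_image_exp (a b : ℝ) :
    Real.exp '' Icc a b = Icc (Real.exp a) (Real.exp b) := by
  ext x
  constructor
  · rintro ⟨u, ⟨h1, h2⟩, rfl⟩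
    exact ⟨Real.exp_le_exp.2 h1, Real.exp_le_exp.2 h2⟩
  · rintro ⟨h1, h2⟩
    have hx : 0 < x := lt_of_lt_of_le (Real.exp_pos a) h1
    exact ⟨Real.log x, ⟨(Real.le_log_iff_exp_le hx).2 h1, (Real.log_le_iff_le_exp hx).2 h2⟩,
      Real.exp_log hx⟩

theorem blocks_inner (g : ℝ → ℝ≥0∞) (δ₀ u : ℝ) :
    ∫⁻ δ in Icc δ₀ (2 * δ₀), g (δ * Real.exp u) * ENNReal.ofReal (Real.exp (-u)) =
      ENNReal.ofReal (Real.exp (-2 * u)) *
        ∫⁻ H in Icc (δ₀ * Real.exp u) (2 * δ₀ * Real.exp u), g H := by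
  have h1 := lintegral_image_eq_lintegral_abs_deriv_mul (s := Icc δ₀ (2 * δ₀))
    (f := fun δ : ℝ => δ * Real.exp u) (f' := fun _ => Real.exp u) measurableSet_Icc
    (fun x _ => ((hasDerivAt_id x).mul_const (Real.exp u)).hasDerivWithinAt.congr_deriv (by simp))
    (fun x _ y _ hxy => mul_right_cancel₀ (Real.exp_pos u).ne' hxy) g
  rw [blocks_image_mul] at h1
  rw [h1, ← lintegral_const_mul' _ _ ENNReal.ofReal_ne_top]
  apply lintegral_congr
  intro δ
  rw [abs_of_pos (Real.exp_pos u), ← mul_assoc, ← ENNReal.ofReal_mul (Real.exp_pos _).le,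
    ← Real.exp_add, mul_comm]
  congr 3
  ring

theorem blocks_one (f : ℝ → ℝ → ℝ≥0∞) (hf : Measurable (Function.uncurry f))
    (δ₀ a b : ℝ) (hδ₀ : 0 < δ₀) (hb : Real.exp b = 7 / 5 * Real.exp a) (K : ℝ≥0∞)
    (hK : ∀ H ∈ Icc (δ₀ * Real.exp a) (14 / 5 * (δ₀ * Real.exp a)),
      ∫⁻ x in Icc (Real.exp a) (7 / 5 * Real.exp a), f x H ≤ K) :
    ∫⁻ δ in Icc δ₀ (2 * δ₀), ∫⁻ u in Icc a b,
        f (Real.exp u) (δ * Real.exp u) * ENNReal.ofReal (Real.exp (-u))
      ≤ ENNReal.ofReal (9 / 5 * δ₀ * Real.exp (-2 * a)) * K := by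
  have m1 : Measurable (Function.uncurry fun (δ : ℝ) (u : ℝ) =>
      f (Real.exp u) (δ * Real.exp u) * ENNReal.ofReal (Real.exp (-u))) := by
    have m2 : Measurable fun p : ℝ × ℝ => ((Real.exp p.2, p.1 * Real.exp p.2) : ℝ × ℝ) := by
      fun_prop
    have m3 : Measurable fun p : ℝ × ℝ => ENNReal.ofReal (Real.exp (-p.2)) := by fun_prop
    exact (hf.comp m2).mul m3
  have m4 : Measurable (Function.uncurry fun (u : ℝ) (H : ℝ) =>
      ENNReal.ofReal (Real.exp u) * f (Real.exp u) H) := by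
    have m2 : Measurable fun p : ℝ × ℝ => ((Real.exp p.1, p.2) : ℝ × ℝ) := by
      fun_prop
    have m3 : Measurable fun p : ℝ × ℝ => ENNReal.ofReal (Real.exp p.1) := by fun_prop
    exact m3.mul (hf.comp m2)
  calc ∫⁻ δ in Icc δ₀ (2 * δ₀), ∫⁻ u in Icc a b,
        f (Real.exp u) (δ * Real.exp u) * ENNReal.ofReal (Real.exp (-u))
      = ∫⁻ u in Icc a b, ∫⁻ δ in Icc δ₀ (2 * δ₀),
        f (Real.exp u) (δ * Real.exp u) * ENNReal.ofReal (Real.exp (-u)) :=
        lintegral_lintegral_swap m1.aemeasurable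
    _ ≤ ∫⁻ u in Icc a b, ENNReal.ofReal (Real.exp (-3 * a)) *
          (∫⁻ H in Icc (δ₀ * Real.exp a) (14 / 5 * (δ₀ * Real.exp a)),
            ENNReal.ofReal (Real.exp u) * f (Real.exp u) H) := by
        refine setLIntegral_mono' measurableSet_Icc fun u hu => ?_
        rw [blocks_inner (fun H => f (Real.exp u) H), lintegral_const_mul' _ _ ENNReal.ofReal_ne_top,
          ← mul_assoc, ← ENNReal.ofReal_mul (Real.exp_pos _).le, ← Real.exp_add]
        have h1 : Real.exp (-2 * u) ≤ Real.exp (-3 * a + u) := by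
          apply Real.exp_le_exp.2
          linarith [hu.1]
        have h2 : Real.exp a ≤ Real.exp u := Real.exp_le_exp.2 hu.1
        have h3 : Real.exp u ≤ 7 / 5 * Real.exp a := hb ▸ Real.exp_le_exp.2 hu.2
        refine mul_le_mul' (ENNReal.ofReal_le_ofReal h1) (lintegral_mono_set ?_)
        apply Icc_subset_Icc
        · gcongr
        · nlinarith
    _ = ENNReal.ofReal (Real.exp (-3 * a)) *
          ∫⁻ H in Icc (δ₀ * Real.exp a) (14 / 5 * (δ₀ * Real.exp a)), ∫⁻ u in Icc a b,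
            ENNReal.ofReal (Real.exp u) * f (Real.exp u) H := by
        rw [lintegral_const_mul' _ _ ENNReal.ofReal_ne_top,
          lintegral_lintegral_swap m4.aemeasurable]
    _ = ENNReal.ofReal (Real.exp (-3 * a)) *
          ∫⁻ H in Icc (δ₀ * Real.exp a) (14 / 5 * (δ₀ * Real.exp a)),
            ∫⁻ x in Icc (Real.exp a) (7 / 5 * Real.exp a), f x H := by
        congr 1
        apply lintegral_congr
        intro H
        have h1 := lintegral_image_eq_lintegral_abs_deriv_mul (s := Icc a b)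
          (f := Real.exp) (f' := Real.exp) measurableSet_Icc
          (fun x _ => (Real.hasDerivAt_exp x).hasDerivWithinAt)
          (Real.exp_injective.injOn) (fun x => f x H)
        rw [blocks_image_exp, hb] at h1
        rw [h1]
        apply lintegral_congr
        intro u
        rw [abs_of_pos (Real.exp_pos u)]
    _ ≤ ENNReal.ofReal (Real.exp (-3 * a)) *
          ∫⁻ _ in Icc (δ₀ * Real.exp a) (14 / 5 * (δ₀ * Real.exp a)), K := by
        exact mul_le_mul' le_rfl (setLIntegral_mono' measurableSet_Icc hK)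
    _ = ENNReal.ofReal (9 / 5 * δ₀ * Real.exp (-2 * a)) * K := by
        rw [setLIntegral_const, Real.volume_Icc, mul_comm K, ← mul_assoc,
          ← ENNReal.ofReal_mul (Real.exp_pos _).le]
        congr 2
        have h1 : Real.exp (-3 * a) * Real.exp a = Real.exp (-2 * a) := by
          rw [← Real.exp_add]
          congr 1
          ring
        rw [← h1]
        ring

/-- Passing from windows of length `δ y` (all `δ` in `[δ₀, 2δ₀]`) to a window of fixed length on a
block `[Y, 7Y/5]`. -/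
theorem blocks (F : ℝ → ℝ → ℝ) (hF : Measurable (Function.uncurry F))
    (hF0 : ∀ x H, 0 ≤ F x H) (hFb : ∀ x H, 0 ≤ H → F x H ≤ (H + 1) ^ 2)
    (δ₀ n n' c : ℝ) (hδ₀ : 0 < δ₀) (hn : n ≤ n') (hc : 0 ≤ c)
    (h : ∀ δ ∈ Icc δ₀ (2 * δ₀),
      c ≤ ∫ u in n..n', F (Real.exp u) (δ * Real.exp u) * Real.exp (-u)) :
    ∃ Y H : ℝ, Real.exp n ≤ Y ∧ Y ≤ Real.exp n' ∧ δ₀ * Y ≤ H ∧ H ≤ 14 / 5 * (δ₀ * Y) ∧
      c * Y ^ 2 ≤ 6 * (n' - n + 1) * ∫ x in Y..(7 / 5 * Y), F x H := by
  rcases hc.eq_or_lt with rfl | hc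
  · refine ⟨Real.exp n, δ₀ * Real.exp n, le_rfl, Real.exp_le_exp.2 hn, le_rfl, ?_, ?_⟩
    · have := mul_pos hδ₀ (Real.exp_pos n)
      linarith
    · rw [zero_mul]
      refine mul_nonneg (by linarith) (intervalIntegral.integral_nonneg ?_ fun x _ => hF0 _ _)
      have := Real.exp_pos n
      linarith
  by_contra hcon
  push Not at hcon
  set f : ℝ → ℝ → ℝ≥0∞ := fun x H => ENNReal.ofReal (F x H) with hf
  have hfm : Measurable (Function.uncurry f) := hF.ennreal_ofReal
  -- number of blocks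
  have hL := blocks_log
  set L := Real.log (7 / 5) with hLdef
  have hLexp : Real.exp L = 7 / 5 := Real.exp_log (by norm_num)
  set J : ℕ := ⌊(n' - n) / L⌋₊ + 1 with hJ
  have hLpos : 0 < L := by linarith
  have hJ1 : (J : ℝ) ≤ (n' - n) / L + 1 := by
    rw [hJ]
    push_cast
    have := Nat.floor_le (div_nonneg (by linarith : (0 : ℝ) ≤ n' - n) hLpos.le)
    linarith
  have hJ2 : ∀ j : Fin J, (j : ℝ) * L ≤ n' - n := by
    intro j
    have h1 : (j : ℕ) ≤ ⌊(n' - n) / L⌋₊ := by have := j.2; omega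
    have h2 : ((j : ℕ) : ℝ) ≤ (n' - n) / L :=
      (Nat.le_floor_iff (div_nonneg (by linarith : (0 : ℝ) ≤ n' - n) hLpos.le)).1 h1
    rwa [le_div_iff₀ hLpos] at h2
  have hcover : Icc n n' ⊆ ⋃ j : Fin J, Icc (n + j * L) (n + j * L + L) := by
    intro u hu
    have h0 : 0 ≤ (u - n) / L := div_nonneg (by linarith [hu.1]) hLpos.le
    have h1 : ⌊(u - n) / L⌋₊ < J := by
      rw [hJ]
      have : ⌊(u - n) / L⌋₊ ≤ ⌊(n' - n) / L⌋₊ := by
        apply Nat.floor_le_floor
        gcongr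
        exact hu.2
      omega
    refine mem_iUnion.2 ⟨⟨_, h1⟩, ?_, ?_⟩
    · have := Nat.floor_le h0
      rw [le_div_iff₀ hLpos] at this
      show n + (⌊(u - n) / L⌋₊ : ℝ) * L ≤ u
      linarith
    · have := Nat.lt_floor_add_one ((u - n) / L)
      rw [div_lt_iff₀ hLpos] at this
      show u ≤ n + (⌊(u - n) / L⌋₊ : ℝ) * L + L
      linarith
  -- step A
  have hA : ∀ δ ∈ Icc δ₀ (2 * δ₀), ENNReal.ofReal c ≤ ∫⁻ u in Icc n n',
      f (Real.exp u) (δ * Real.exp u) * ENNReal.ofReal (Real.exp (-u)) := by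
    intro δ hδ
    have h1 := h δ hδ
    rw [intervalIntegral.integral_of_le hn, ← integral_Icc_eq_integral_Ioc] at h1
    have hmeas : Measurable fun u : ℝ => F (Real.exp u) (δ * Real.exp u) * Real.exp (-u) := by
      have m2 : Measurable fun u : ℝ => ((Real.exp u, δ * Real.exp u) : ℝ × ℝ) := by fun_prop
      exact (hF.comp m2).mul (by fun_prop)
    rw [integral_eq_lintegral_of_nonneg_ae
      (Filter.Eventually.of_forall fun u => mul_nonneg (hF0 _ _) (Real.exp_pos _).le)
      hmeas.aestronglyMeasurable] at h1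
    refine (ENNReal.ofReal_le_ofReal h1).trans (ENNReal.ofReal_toReal_le.trans (le_of_eq ?_))
    apply lintegral_congr
    intro u
    rw [ENNReal.ofReal_mul (hF0 _ _)]
  -- step B
  have hB : ENNReal.ofReal c * ENNReal.ofReal δ₀ ≤ ∑ j : Fin J, ∫⁻ δ in Icc δ₀ (2 * δ₀),
      ∫⁻ u in Icc (n + j * L) (n + j * L + L),
        f (Real.exp u) (δ * Real.exp u) * ENNReal.ofReal (Real.exp (-u)) := by
    have m1 : Measurable (Function.uncurry fun (δ : ℝ) (u : ℝ) =>
        f (Real.exp u) (δ * Real.exp u) * ENNReal.ofReal (Real.exp (-u))) := by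
      have m2 : Measurable fun p : ℝ × ℝ => ((Real.exp p.2, p.1 * Real.exp p.2) : ℝ × ℝ) := by
        fun_prop
      have m3 : Measurable fun p : ℝ × ℝ => ENNReal.ofReal (Real.exp (-p.2)) := by fun_prop
      exact (hfm.comp m2).mul m3
    calc ENNReal.ofReal c * ENNReal.ofReal δ₀ = ∫⁻ _ in Icc δ₀ (2 * δ₀), ENNReal.ofReal c := by
          rw [setLIntegral_const, Real.volume_Icc]
          congr 2
          ring
      _ ≤ ∫⁻ δ in Icc δ₀ (2 * δ₀), ∑ j : Fin J, ∫⁻ u in Icc (n + j * L) (n + j * L + L),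
          f (Real.exp u) (δ * Real.exp u) * ENNReal.ofReal (Real.exp (-u)) := by
          refine setLIntegral_mono' measurableSet_Icc fun δ hδ => ?_
          refine (hA δ hδ).trans ((lintegral_mono_set hcover).trans ?_)
          refine (lintegral_iUnion_le _ _).trans ?_
          rw [tsum_fintype]
      _ = _ := by
          rw [lintegral_finsetSum]
          intro j _
          exact Measurable.lintegral_prod_right m1
  -- step C
  have hpos : 0 < n' - n + 1 := by linarith
  have hC : ∀ j : Fin J, ∫⁻ δ in Icc δ₀ (2 * δ₀),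
      ∫⁻ u in Icc (n + j * L) (n + j * L + L),
        f (Real.exp u) (δ * Real.exp u) * ENNReal.ofReal (Real.exp (-u)) ≤
      ENNReal.ofReal (3 / 10 * δ₀ * c / (n' - n + 1)) := by
    intro j
    set a := n + j * L with ha
    have ha1 : n ≤ a := by
      rw [ha]
      have : 0 ≤ (j : ℝ) * L := by positivity
      linarith
    have ha2 : a ≤ n' := by
      rw [ha]
      linarith [hJ2 j]
    have hYpos := Real.exp_pos a
    refine (blocks_one f hfm δ₀ a (a + L) hδ₀ (by rw [Real.exp_add, hLexp]; ring)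
      (ENNReal.ofReal (c * Real.exp a ^ 2 / (6 * (n' - n + 1)))) ?_).trans (le_of_eq ?_)
    · intro H hH
      have h1 := hcon (Real.exp a) H (Real.exp_le_exp.2 ha1) (Real.exp_le_exp.2 ha2) hH.1 hH.2
      have hH0 : 0 ≤ H := le_trans (by positivity) hH.1
      have hle : Real.exp a ≤ 7 / 5 * Real.exp a := by linarith
      rw [intervalIntegral.integral_of_le hle, ← integral_Icc_eq_integral_Ioc] at h1
      have hmeas : Measurable fun x : ℝ => F x H := hF.comp (by fun_prop : Measurable fun x : ℝ => ((x, H) : ℝ × ℝ))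
      have hint : Integrable (fun x : ℝ => F x H)
          (volume.restrict (Icc (Real.exp a) (7 / 5 * Real.exp a))) := by
        refine Integrable.of_bound hmeas.aestronglyMeasurable ((H + 1) ^ 2)
          (Filter.Eventually.of_forall fun x => ?_)
        rw [Real.norm_of_nonneg (hF0 _ _)]
        exact hFb x H hH0
      rw [← ofReal_integral_eq_lintegral_ofReal hint (Filter.Eventually.of_forall fun x => hF0 _ _)]
      apply ENNReal.ofReal_le_ofReal
      rw [le_div_iff₀ (by positivity)]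
      linarith
    · rw [← ENNReal.ofReal_mul (by positivity)]
      congr 1
      have h1 : Real.exp (-2 * a) * Real.exp a ^ 2 = 1 := by
        rw [← Real.exp_nat_mul, ← Real.exp_add]
        simp
      calc 9 / 5 * δ₀ * Real.exp (-2 * a) * (c * Real.exp a ^ 2 / (6 * (n' - n + 1)))
          = (3 / 10 * δ₀ * c / (n' - n + 1)) * (Real.exp (-2 * a) * Real.exp a ^ 2) := by
            field_simp
            ring
        _ = _ := by rw [h1, mul_one]
  -- step D
  have hD : ENNReal.ofReal c * ENNReal.ofReal δ₀ ≤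
      (J : ℝ≥0∞) * ENNReal.ofReal (3 / 10 * δ₀ * c / (n' - n + 1)) := by
    refine hB.trans ((Finset.sum_le_sum fun j _ => hC j).trans (le_of_eq ?_))
    rw [Finset.sum_const, Finset.card_univ, Fintype.card_fin, nsmul_eq_mul]
  rw [← ENNReal.ofReal_mul hc.le, ← ENNReal.ofReal_natCast, ← ENNReal.ofReal_mul (by positivity),
    ENNReal.ofReal_le_ofReal_iff (by positivity)] at hD
  have h1 : (J : ℝ) * (3 / 10) < n' - n + 1 := by
    have h2 : (n' - n) / L ≤ (n' - n) / (3 / 10) := by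
      gcongr
    have h3 : (n' - n) / (3 / 10) = (n' - n) * (10 / 3) := by ring
    linarith
  have h2 : (J : ℝ) * (3 / 10 * δ₀ * c / (n' - n + 1)) < c * δ₀ := by
    have : (J : ℝ) * (3 / 10 * δ₀ * c / (n' - n + 1)) = (J : ℝ) * (3 / 10) / (n' - n + 1) * (c * δ₀) := by
      ring
    rw [this]
    have h3 : (J : ℝ) * (3 / 10) / (n' - n + 1) < 1 := by rwa [div_lt_one hpos]
    have h4 : 0 < c * δ₀ := by positivity
    nlinarith
  linarith

end Pool.Agent.H95.GC
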