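import Pool.Agent.H95.GC.Defs

set_option autoImplicit false

namespace Pool.Agent.H95.GC

open Set MeasureTheory

private theorem md_stp_one {v : ℝ} (h : v ≤ 0) : stp v = 1 := by
  unfold stp; exact Real.smoothTransition.one_of_one_le (by linarith)

private theorem md_stp_zero {v : ℝ} (h : 1 ≤ v) : stp v = 0 := by
  unfold stp; exact Real.smoothTransition.zero_of_nonpos (by linarith)

private theorem md_stp_contDiff : ContDiff ℝ (⊤ : ℕ∞) stp := by
  unfold stp
  exact Real.smoothTransition.contDiff.comp (contDiff_const.sub contDiff_id)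

private def mdP (ψ : ℝ → ℝ) : Prop :=
  ContDiff ℝ (⊤ : ℕ∞) ψ ∧ ∀ v, v ≤ 0 ∨ 1 ≤ v → ψ v = 0

private theorem md_deriv_contDiff {ψ : ℝ → ℝ} (h : ContDiff ℝ (⊤ : ℕ∞) ψ) :
    ContDiff ℝ (⊤ : ℕ∞) (deriv ψ) := by
  have h1 : ContDiff ℝ ((⊤ : ℕ∞) + 1) ψ := by simpa using h
  exact (contDiff_succ_iff_deriv.1 h1).2.2

/-- If `ψ` is locally constant on `(-∞, 0)` and `(1, ∞)` then the derivative vanishes there. -/
private theorem md_deriv {ψ : ℝ → ℝ} (h : ContDiff ℝ (⊤ : ℕ∞) ψ) {c d : ℝ}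
    (h0 : ∀ v ≤ 0, ψ v = c) (h1 : ∀ v, 1 ≤ v → ψ v = d) : mdP (deriv ψ) := by
  have hc := md_deriv_contDiff h
  refine ⟨hc, ?_⟩
  have hclosed : IsClosed {v | deriv ψ v = 0} := isClosed_eq hc.continuous continuous_const
  rintro v (hv | hv)
  · have h2 : Iio (0 : ℝ) ⊆ {v | deriv ψ v = 0} := by
      intro x hx
      have : ψ =ᶠ[nhds x] fun _ => c := by
        filter_upwards [Iio_mem_nhds hx] with y hy
        exact h0 y (le_of_lt hy)
      rw [mem_ofPred_eq, this.deriv_eq, deriv_const]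
    have h3 := hclosed.closure_subset_iff.2 h2
    rw [closure_Iio] at h3
    exact h3 hv
  · have h2 : Ioi (1 : ℝ) ⊆ {v | deriv ψ v = 0} := by
      intro x hx
      have : ψ =ᶠ[nhds x] fun _ => d := by
        filter_upwards [Ioi_mem_nhds hx] with y hy
        exact h1 y (le_of_lt hy)
      rw [mem_ofPred_eq, this.deriv_eq, deriv_const]
    have h3 := hclosed.closure_subset_iff.2 h2
    rw [closure_Ioi] at h3
    exact h3 hv

private theorem md_parts {ψ : ℝ → ℝ} (h : ContDiff ℝ (⊤ : ℕ∞) ψ) {a : ℂ} (ha : a ≠ 0) :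
    ∫ v in (0 : ℝ)..1, Complex.exp (a * v) * (ψ v : ℂ) =
      Complex.exp a / a * ψ 1 - ψ 0 / a -
        (1 / a) * ∫ v in (0 : ℝ)..1, Complex.exp (a * v) * ((deriv ψ v : ℝ) : ℂ) := by
  have hc := md_deriv_contDiff h
  have hd : ∀ v : ℝ, HasDerivAt (fun v : ℝ => (ψ v : ℂ)) ((deriv ψ v : ℝ) : ℂ) v := fun v =>
    ((h.differentiable (by simp)).differentiableAt.hasDerivAt).ofReal_comp
  have he : ∀ v : ℝ, HasDerivAt (fun v : ℝ => Complex.exp (a * v) / a) (Complex.exp (a * v)) v := by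
    intro v
    have h1 : HasDerivAt (fun v : ℝ => a * (v : ℂ)) a v := by
      simpa using ((hasDerivAt_id v).ofReal_comp).const_mul a
    have h2 := (h1.cexp).div_const a
    refine h2.congr_deriv ?_
    field_simp
  have := intervalIntegral.integral_mul_deriv_eq_deriv_mul
    (u := fun v : ℝ => (ψ v : ℂ)) (v := fun v : ℝ => Complex.exp (a * v) / a)
    (u' := fun v : ℝ => ((deriv ψ v : ℝ) : ℂ)) (v' := fun v : ℝ => Complex.exp (a * v))
    (a := (0 : ℝ)) (b := 1) (fun v _ => hd v) (fun v _ => he v)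
    ((Complex.continuous_ofReal.comp hc.continuous).intervalIntegrable _ _)
    (by apply Continuous.intervalIntegrable; fun_prop)
  have e1 : ∀ v : ℝ, Complex.exp (a * v) * (ψ v : ℂ) = (ψ v : ℂ) * Complex.exp (a * v) :=
    fun v => mul_comm _ _
  have e2 : ∀ v : ℝ, ((deriv ψ v : ℝ) : ℂ) * (Complex.exp (a * v) / a) =
      (1 / a) * (Complex.exp (a * v) * ((deriv ψ v : ℝ) : ℂ)) := fun v => by ring
  simp only [e1, this, e2, intervalIntegral.integral_const_mul]
  push_cast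
  rw [mul_one, mul_zero, Complex.exp_zero]
  ring

private theorem md_iter (J : ℕ) : ∀ ψ : ℝ → ℝ, mdP ψ → ∃ C : ℝ, 0 < C ∧ ∀ a : ℂ, 0 < a.re →
    a.re ≤ 1 → ‖∫ v in (0 : ℝ)..1, Complex.exp (a * v) * (ψ v : ℂ)‖ ≤ C / ‖a‖ ^ J := by
  induction J with
  | zero =>
    intro ψ hψ
    obtain ⟨C, hC⟩ := isCompact_Icc.exists_bound_of_continuousOn
      (s := Icc (0 : ℝ) 1) hψ.1.continuous.continuousOn
    refine ⟨Real.exp 1 * (|C| + 1), by positivity, fun a ha0 ha1 => ?_⟩
    rw [pow_zero, div_one]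
    have := intervalIntegral.norm_integral_le_of_norm_le_const (a := (0 : ℝ)) (b := 1)
      (f := fun v : ℝ => Complex.exp (a * v) * (ψ v : ℂ)) (C := Real.exp 1 * (|C| + 1)) (by
      intro v hv
      rw [uIoc_of_le zero_le_one] at hv
      rw [norm_mul, Complex.norm_exp, Complex.norm_real]
      have h1 : (a * v).re ≤ 1 := by
        simp
        nlinarith [hv.1, hv.2]
      refine mul_le_mul (Real.exp_le_exp.2 h1) ?_ (norm_nonneg _) (Real.exp_pos _).le
      have := hC v ⟨hv.1.le, hv.2⟩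
      exact this.trans ((le_abs_self C).trans (by linarith)))
    simpa using this
  | succ J ih =>
    intro ψ hψ
    have hd := md_deriv hψ.1 (c := 0) (d := 0) (fun v hv => hψ.2 v (Or.inl hv))
      (fun v hv => hψ.2 v (Or.inr hv))
    obtain ⟨C, hC0, hC⟩ := ih _ hd
    refine ⟨C, hC0, fun a ha0 ha1 => ?_⟩
    have ha : a ≠ 0 := by rintro rfl; simp at ha0
    rw [md_parts hψ.1 ha, hψ.2 0 (Or.inl le_rfl), hψ.2 1 (Or.inr le_rfl)]
    have e1 : Complex.exp a / a * ((0 : ℝ) : ℂ) - ((0 : ℝ) : ℂ) / a -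
        (1 / a) * ∫ v in (0 : ℝ)..1, Complex.exp (a * v) * ((deriv ψ v : ℝ) : ℂ) =
        -((1 / a) * ∫ v in (0 : ℝ)..1, Complex.exp (a * v) * ((deriv ψ v : ℝ) : ℂ)) := by simp
    rw [e1, norm_neg, norm_mul, norm_div, norm_one]
    have h1 := hC a ha0 ha1
    have h2 : 0 < ‖a‖ := norm_pos_iff.2 ha
    calc 1 / ‖a‖ * ‖∫ v in (0 : ℝ)..1, Complex.exp (a * v) * ((deriv ψ v : ℝ) : ℂ)‖
        ≤ 1 / ‖a‖ * (C / ‖a‖ ^ J) := mul_le_mul_of_nonneg_left h1 (by positivity)
      _ = C / ‖a‖ ^ (J + 1) := by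
          rw [pow_succ]; field_simp

/-- The Mellin transform after one integration by parts. -/
private theorem md_mellin {s : ℂ} (h1 : s.re < 1) :
    ∫ u in Ioi (0 : ℝ), (u : ℂ) ^ (-s) * (stp (Real.log u) : ℂ) =
      -((1 / (1 - s)) * ∫ v in (0 : ℝ)..1, Complex.exp ((1 - s) * v) * ((deriv stp v : ℝ) : ℂ)) := by
  have hs : (1 : ℂ) - s ≠ 0 := by
    intro h
    have := congrArg Complex.re h
    simp at this
    linarith
  set f : ℝ → ℂ := fun u => (u : ℂ) ^ (-s) * (stp (Real.log u) : ℂ) with hf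
  have he1 : (1 : ℝ) ≤ Real.exp 1 := by
    have := Real.add_one_le_exp (1 : ℝ); linarith
  -- on `(0, 1]`
  have f1 : ∀ u ∈ Ioc (0 : ℝ) 1, f u = (u : ℂ) ^ (-s) := by
    intro u hu
    have : stp (Real.log u) = 1 := md_stp_one (Real.log_nonpos hu.1.le hu.2)
    simp only [hf, this, Complex.ofReal_one, mul_one]
  have i1 : IntervalIntegrable (fun u : ℝ => (u : ℂ) ^ (-s)) volume 0 1 :=
    intervalIntegral.intervalIntegrable_cpow' (by simp; exact h1)
  have i1' : IntegrableOn f (Ioc 0 1) := by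
    rw [intervalIntegrable_iff_integrableOn_Ioc_of_le zero_le_one] at i1
    exact i1.congr_fun (fun u hu => (f1 u hu).symm) measurableSet_Ioc
  have v1 : ∫ u in Ioc (0 : ℝ) 1, f u = 1 / (1 - s) := by
    rw [setIntegral_congr_fun measurableSet_Ioc f1, ← intervalIntegral.integral_of_le zero_le_one,
      integral_cpow (Or.inl (by simp; exact h1))]
    have e1 : -s + 1 = 1 - s := by ring
    rw [e1, Complex.ofReal_one, Complex.one_cpow, Complex.ofReal_zero, Complex.zero_cpow hs,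
      sub_zero]
  -- on `(1, e]`
  have c2 : ContinuousOn f (Icc 1 (Real.exp 1)) := by
    intro u hu
    have hu0 : u ≠ 0 := by have := hu.1; intro h; rw [h] at this; linarith
    apply ContinuousAt.continuousWithinAt
    refine ContinuousAt.mul (Complex.continuousAt_ofReal_cpow_const u (-s) (Or.inr hu0)) ?_
    exact Complex.continuous_ofReal.continuousAt.comp
      (md_stp_contDiff.continuous.continuousAt.comp (Real.continuousAt_log hu0))
  have i2 : IntegrableOn f (Ioc 1 (Real.exp 1)) :=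
    (c2.integrableOn_Icc).mono_set Ioc_subset_Icc_self
  -- on `(e, ∞)`
  have f3 : ∀ u ∈ Ioi (Real.exp 1), f u = 0 := by
    intro u hu
    have : stp (Real.log u) = 0 := by
      apply md_stp_zero
      rw [Real.le_log_iff_exp_le (lt_trans (Real.exp_pos 1) hu)]
      exact le_of_lt hu
    simp only [hf, this, Complex.ofReal_zero, mul_zero]
  have i3 : IntegrableOn f (Ioi (Real.exp 1)) :=
    (integrableOn_zero).congr_fun (fun u hu => (f3 u hu).symm) measurableSet_Ioi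
  have v3 : ∫ u in Ioi (Real.exp 1), f u = 0 := by
    rw [setIntegral_congr_fun measurableSet_Ioi f3]; simp
  have hsplit1 : Ioi (0 : ℝ) = Ioc 0 1 ∪ Ioi 1 := (Ioc_union_Ioi_eq_Ioi zero_le_one).symm
  have hsplit2 : Ioi (1 : ℝ) = Ioc 1 (Real.exp 1) ∪ Ioi (Real.exp 1) :=
    (Ioc_union_Ioi_eq_Ioi he1).symm
  have i23 : IntegrableOn f (Ioi 1) := by rw [hsplit2]; exact i2.union i3
  have hv : ∫ u in Ioi (0 : ℝ), f u = 1 / (1 - s) + ∫ u in (1 : ℝ)..Real.exp 1, f u := by
    rw [hsplit1, setIntegral_union (Ioc_disjoint_Ioi le_rfl) measurableSet_Ioi i1' i23, v1,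
      hsplit2, setIntegral_union (Ioc_disjoint_Ioi le_rfl) measurableSet_Ioi i2 i3, v3, add_zero,
      intervalIntegral.integral_of_le he1]
  rw [hv]
  have hsub : ∫ u in (1 : ℝ)..Real.exp 1, f u =
      ∫ v in (0 : ℝ)..1, Complex.exp ((1 - s) * v) * (stp v : ℂ) := by
    have h2 := intervalIntegral.integral_deriv_smul_comp' (f := Real.exp) (f' := Real.exp)
      (g := f) (a := 0) (b := 1) (fun x _ => Real.hasDerivAt_exp x)
      Real.continuous_exp.continuousOn (by
        rw [uIcc_of_le zero_le_one]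
        refine c2.mono ?_
        rintro _ ⟨v, hv, rfl⟩
        exact ⟨Real.one_le_exp hv.1, Real.exp_le_exp.2 hv.2⟩)
    rw [Real.exp_zero] at h2
    rw [← h2]
    apply intervalIntegral.integral_congr
    intro v _
    have hlog : Complex.log ((Real.exp v : ℝ) : ℂ) = (v : ℂ) := by
      rw [← Complex.ofReal_log (Real.exp_pos v).le, Real.log_exp]
    have hne : ((Real.exp v : ℝ) : ℂ) ≠ 0 := by
      exact_mod_cast (Real.exp_pos v).ne'
    simp only [Function.comp, hf, Real.log_exp, Complex.real_smul]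
    rw [Complex.cpow_def_of_ne_zero hne, hlog, ← mul_assoc, Complex.ofReal_exp, ← Complex.exp_add]
    congr 2
    ring
  rw [hsub, md_parts md_stp_contDiff hs, md_stp_zero le_rfl, md_stp_one le_rfl]
  push_cast
  ring

/-- Rapid decay of the Mellin transform of the smooth cut-off `stp (log u)`. -/
theorem mellin_decay (J : ℕ) (hJ : 1 ≤ J) : ∃ C : ℝ, 0 < C ∧ ∀ s : ℂ, 0 ≤ s.re → s.re < 1 →
    ‖∫ u in Ioi (0 : ℝ), (u : ℂ) ^ (-s) * (stp (Real.log u) : ℂ)‖ ≤ C / ‖1 - s‖ ^ J := by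
  obtain ⟨C, hC0, hC⟩ := md_iter (J - 1) (deriv stp)
    (md_deriv md_stp_contDiff (fun v hv => md_stp_one hv) (fun v hv => md_stp_zero hv))
  refine ⟨C, hC0, fun s h0 h1 => ?_⟩
  have ha : 0 < ((1 : ℂ) - s).re := by simp; exact h1
  have ha1 : ((1 : ℂ) - s).re ≤ 1 := by simp; exact h0
  have hs : (1 : ℂ) - s ≠ 0 := by intro h; rw [h] at ha; simp at ha
  have hn : 0 < ‖(1 : ℂ) - s‖ := norm_pos_iff.2 hs
  rw [md_mellin h1, norm_neg, norm_mul, norm_div, norm_one]
  calc 1 / ‖1 - s‖ * ‖∫ v in (0 : ℝ)..1, Complex.exp ((1 - s) * v) * ((deriv stp v : ℝ) : ℂ)‖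
      ≤ 1 / ‖1 - s‖ * (C / ‖1 - s‖ ^ (J - 1)) :=
        mul_le_mul_of_nonneg_left (hC _ ha ha1) (by positivity)
    _ = C / ‖1 - s‖ ^ J := by
        obtain ⟨K, rfl⟩ : ∃ K, J = K + 1 := ⟨J - 1, by omega⟩
        rw [Nat.add_sub_cancel, pow_succ]
        field_simp

end Pool.Agent.H95.GC
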