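import Pool.Agent.H95.GC.Defs

set_option autoImplicit false

namespace Pool.Agent.H95.GC

open Set MeasureTheory FourierTransform

/-- `v ↦ v^{-s} ψ(v)`, written with the real logarithm. -/
private noncomputable def ptG (s : ℂ) (ψ : ℝ → ℂ) (v : ℝ) : ℂ :=
  Complex.exp (-s * (Real.log v : ℂ)) * ψ v

private lemma ptG_zero {a b : ℝ} {ψ : ℝ → ℂ} (hsupp : ∀ u, u ∉ Icc a b → ψ u = 0) (s : ℂ)
    {v : ℝ} (hv : v ∉ Icc a b) : ptG s ψ v = 0 := by
  rw [ptG, hsupp v hv, mul_zero]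

private lemma ev_zero {a b : ℝ} {ψ : ℝ → ℂ} (hsupp : ∀ u, u ∉ Icc a b → ψ u = 0)
    {v : ℝ} (hv : v < a) : ψ =ᶠ[nhds v] fun _ => 0 := by
  filter_upwards [Iio_mem_nhds hv] with u hu
  exact hsupp u (fun h => absurd h.1 (not_le.mpr hu))

private lemma ptG_contDiff {a b : ℝ} (ha : 0 < a) {ψ : ℝ → ℂ} (hψ : ContDiff ℝ (⊤ : ℕ∞) ψ)
    (hsupp : ∀ u, u ∉ Icc a b → ψ u = 0) (s : ℂ) : ContDiff ℝ (⊤ : ℕ∞) (ptG s ψ) := by
  rw [contDiff_iff_contDiffAt]
  intro v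
  by_cases hv : 0 < v
  · unfold ptG
    refine ContDiffAt.mul ?_ hψ.contDiffAt
    refine ContDiffAt.cexp ?_
    refine ContDiffAt.mul contDiffAt_const ?_
    exact (Complex.ofRealCLM.contDiff.contDiffAt).comp v (Real.contDiffAt_log.2 hv.ne')
  · have h : ptG s ψ =ᶠ[nhds v] fun _ => 0 :=
      ev_zero (a := a) (b := b) (fun u hu => ptG_zero hsupp s hu) (by linarith [not_lt.mp hv])
    exact contDiffAt_const.congr_of_eventuallyEq h

private lemma div_contDiff {a b : ℝ} (ha : 0 < a) {ψ : ℝ → ℂ} (hψ : ContDiff ℝ (⊤ : ℕ∞) ψ)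
    (hsupp : ∀ u, u ∉ Icc a b → ψ u = 0) : ContDiff ℝ (⊤ : ℕ∞) (fun v : ℝ => ψ v / (v : ℂ)) := by
  rw [contDiff_iff_contDiffAt]
  intro v
  by_cases hv : 0 < v
  · simp only [div_eq_mul_inv]
    refine ContDiffAt.mul hψ.contDiffAt
      (ContDiffAt.inv (Complex.ofRealCLM.contDiff.contDiffAt) ?_)
    exact_mod_cast hv.ne'
  · have h : (fun v : ℝ => ψ v / (v : ℂ)) =ᶠ[nhds v] fun _ => 0 :=
      ev_zero (a := a) (b := b) (fun u hu => by rw [hsupp u hu, zero_div])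
        (by linarith [not_lt.mp hv])
    exact contDiffAt_const.congr_of_eventuallyEq h

private lemma deriv_supp {a b : ℝ} {ψ : ℝ → ℂ} (hsupp : ∀ u, u ∉ Icc a b → ψ u = 0) :
    ∀ u, u ∉ Icc a b → deriv ψ u = 0 := by
  intro u hu
  have h : ψ =ᶠ[nhds u] fun _ => 0 := by
    filter_upwards [isClosed_Icc.isOpen_compl.mem_nhds hu] with w hw
    exact hsupp w hw
  rw [h.deriv_eq]
  simp

private lemma ptG_hasDerivAt {a b : ℝ} (ha : 0 < a) {ψ : ℝ → ℂ} (hψ : ContDiff ℝ (⊤ : ℕ∞) ψ)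
    (hsupp : ∀ u, u ∉ Icc a b → ψ u = 0) (s : ℂ) (v : ℝ) :
    HasDerivAt (ptG s ψ)
      (-s * ptG s (fun v : ℝ => ψ v / (v : ℂ)) v + ptG s (deriv ψ) v) v := by
  by_cases hv : 0 < v
  · have h1 : HasDerivAt (fun x : ℝ => ((Real.log x : ℝ) : ℂ)) ((v⁻¹ : ℝ) : ℂ) v :=
      (Real.hasDerivAt_log hv.ne').ofReal_comp
    have h2 := ((h1.const_mul (-s)).cexp).mul
      ((hψ.differentiable (by simp)) v).hasDerivAt
    refine h2.congr_deriv ?_
    unfold ptG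
    push_cast
    rw [div_eq_mul_inv]
    ring
  · have hva : v < a := by linarith [not_lt.mp hv]
    have h : ptG s ψ =ᶠ[nhds v] fun _ => 0 :=
      ev_zero (a := a) (b := b) (fun u hu => ptG_zero hsupp s hu) hva
    have hv' : v ∉ Icc a b := fun h => absurd h.1 (not_le.mpr hva)
    have h0 : -s * ptG s (fun v : ℝ => ψ v / (v : ℂ)) v + ptG s (deriv ψ) v = 0 := by
      simp [ptG, hsupp v hv', deriv_supp hsupp v hv']
    rw [h0]
    exact (hasDerivAt_const v (0 : ℂ)).congr_of_eventuallyEq h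

private lemma supp_integrable {a b : ℝ} {f : ℝ → ℂ} (hf : Continuous f)
    (hsupp : ∀ u, u ∉ Icc a b → f u = 0) : Integrable f :=
  hf.integrable_of_hasCompactSupport (HasCompactSupport.intro isCompact_Icc hsupp)


private noncomputable def ptW (s : ℂ) (ξ v : ℝ) : ℂ := s + 2 * Real.pi * ξ * v * Complex.I

private noncomputable def ptE (ξ v : ℝ) : ℂ := Complex.exp (-(2 * Real.pi * ξ * v * Complex.I))

private noncomputable def ptI (m : ℕ) (s : ℂ) (ψ : ℝ → ℂ) (ξ v : ℝ) : ℂ :=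
  ((ptW s ξ v) ^ m)⁻¹ * (ptG s ψ v * ptE ξ v)

private lemma ptW_bound {s : ℂ} {ξ v : ℝ} (hv : 1 ≤ v) (hs : |s.im| ≤ 3 * |ξ|) :
    |ξ| ≤ ‖ptW s ξ v‖ := by
  have h1 : (ptW s ξ v).im = s.im + 2 * Real.pi * ξ * v := by
    simp [ptW]
  have h2 : |(ptW s ξ v).im| ≤ ‖ptW s ξ v‖ := Complex.abs_im_le_norm _
  have h3 : |2 * Real.pi * ξ * v| = 2 * Real.pi * |ξ| * v := by
    rw [abs_mul, abs_mul, abs_of_pos (by positivity : (0:ℝ) < 2 * Real.pi),
      abs_of_pos (by linarith : 0 < v)]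
  have h4 : 2 * Real.pi * |ξ| * v ≤ |(ptW s ξ v).im| + |s.im| := by
    rw [← h3]
    have : 2 * Real.pi * ξ * v = (ptW s ξ v).im - s.im := by rw [h1]; ring
    rw [this]
    exact abs_sub _ _
  have hpi := Real.pi_gt_three
  have h5 : 6 * |ξ| ≤ 2 * Real.pi * |ξ| * v := by
    have h0 : 0 ≤ |ξ| := abs_nonneg _
    have : 6 * |ξ| ≤ 2 * Real.pi * |ξ| := by nlinarith
    have h7 : 0 ≤ 2 * Real.pi * |ξ| := by positivity
    nlinarith
  have h0 : 0 ≤ |ξ| := abs_nonneg _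
  linarith

private lemma ptI_zero {a b : ℝ} {ψ : ℝ → ℂ} (hsupp : ∀ u, u ∉ Icc a b → ψ u = 0) (m : ℕ) (s : ℂ)
    (ξ : ℝ) {v : ℝ} (hv : v ∉ Icc a b) : ptI m s ψ ξ v = 0 := by
  rw [ptI, ptG_zero hsupp s hv, zero_mul, mul_zero]

private lemma ptW_hasDerivAt (s : ℂ) (ξ v : ℝ) :
    HasDerivAt (ptW s ξ) (2 * Real.pi * ξ * Complex.I) v := by
  have h : HasDerivAt (fun x : ℝ => ((x : ℝ) : ℂ)) 1 v := by
    simpa using (hasDerivAt_id v).ofReal_comp
  have h2 := ((h.const_mul (2 * Real.pi * ξ : ℂ)).mul_const Complex.I).const_add s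
  refine h2.congr_deriv ?_
  ring

private lemma ptE_hasDerivAt (ξ v : ℝ) :
    HasDerivAt (ptE ξ) (-(2 * Real.pi * ξ * Complex.I) * ptE ξ v) v := by
  have h : HasDerivAt (fun x : ℝ => ((x : ℝ) : ℂ)) 1 v := by
    simpa using (hasDerivAt_id v).ofReal_comp
  have h2 := (((h.const_mul (2 * Real.pi * ξ : ℂ)).mul_const Complex.I).neg).cexp
  refine h2.congr_deriv ?_
  unfold ptE
  simp only [Pi.neg_apply]
  ring

private lemma mulv_contDiff {ψ : ℝ → ℂ} (hψ : ContDiff ℝ (⊤ : ℕ∞) ψ) :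
    ContDiff ℝ (⊤ : ℕ∞) (fun v : ℝ => (v : ℂ) * ψ v) :=
  (Complex.ofRealCLM.contDiff).mul hψ

private lemma deriv_contDiff {ψ : ℝ → ℂ} (hψ : ContDiff ℝ (⊤ : ℕ∞) ψ) :
    ContDiff ℝ (⊤ : ℕ∞) (deriv ψ) := by
  have h : ContDiff ℝ ((⊤ : ℕ∞) + 1) ψ := by simpa using hψ
  exact (contDiff_succ_iff_deriv.1 h).2.2

private lemma ptI_hasDerivAt {a b : ℝ} (ha : 1 ≤ a) {ψ : ℝ → ℂ} (hψ : ContDiff ℝ (⊤ : ℕ∞) ψ)
    (hsupp : ∀ u, u ∉ Icc a b → ψ u = 0) (m : ℕ) (s : ℂ) (ξ : ℝ) (hξ : 1 ≤ |ξ|)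
    (hs : |s.im| ≤ 3 * |ξ|) (v : ℝ) :
    HasDerivAt (ptI (m + 1) s (fun v : ℝ => (v : ℂ) * ψ v) ξ)
      (ptI (m + 1) s (deriv (fun v : ℝ => (v : ℂ) * ψ v)) ξ v
        - (m + 1) * (2 * Real.pi * ξ * Complex.I) * ptI (m + 2) s (fun v : ℝ => (v : ℂ) * ψ v) ξ v
        - ptI m s ψ ξ v) v := by
  have hsv : ∀ u, u ∉ Icc a b → (fun v : ℝ => (v : ℂ) * ψ v) u = 0 := fun u hu => by
    simp only [hsupp u hu, mul_zero]
  by_cases hv : a ≤ v
  · have hv1 : 1 ≤ v := ha.trans hv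
    have hv0 : (v : ℂ) ≠ 0 := by exact_mod_cast (by linarith : v ≠ 0)
    have hW : ptW s ξ v ≠ 0 := by
      have := ptW_bound (s := s) hv1 hs
      rw [← norm_pos_iff]
      linarith
    have h1 := ((ptW_hasDerivAt s ξ v).pow (m + 1)).inv (pow_ne_zero _ hW)
    have h2 := (ptG_hasDerivAt (by linarith : 0 < a) (mulv_contDiff hψ) hsv s v).mul
      (ptE_hasDerivAt ξ v)
    have h3 := h1.mul h2
    refine h3.congr_deriv ?_
    have e1 : ptG s (fun v : ℝ => (v : ℂ) * ψ v) v = v * ptG s ψ v := by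
      simp only [ptG]; ring
    have e2 : ptG s (fun v : ℝ => (v : ℂ) * ψ v / (v : ℂ)) v = ptG s ψ v := by
      simp only [ptG]
      rw [mul_div_cancel_left₀ _ hv0]
    have e3 : (ptW s ξ v) = s + 2 * Real.pi * ξ * v * Complex.I := rfl
    simp only [Pi.mul_apply, Pi.inv_apply, Pi.pow_apply, ptI]
    rw [e2, e1]
    have hs' : s = ptW s ξ v - 2 * Real.pi * ξ * v * Complex.I := by rw [e3]; ring
    generalize hw : ptW s ξ v = w at *
    generalize ptG s ψ v = g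
    generalize ptG s (deriv fun v : ℝ => (v : ℂ) * ψ v) v = g'
    generalize ptE ξ v = e
    have hsub : (m + 1 - 1 : ℕ) = m := by omega
    rw [hs', hsub]
    push_cast
    field_simp
    ring
  · have hva : v < a := not_le.1 hv
    have hv' : v ∉ Icc a b := fun h => absurd h.1 hv
    have h : ptI (m + 1) s (fun v : ℝ => (v : ℂ) * ψ v) ξ =ᶠ[nhds v] fun _ => 0 :=
      ev_zero (a := a) (b := b) (fun u hu => ptI_zero hsv _ s ξ hu) hva
    rw [ptI_zero (deriv_supp hsv) _ s ξ hv', ptI_zero hsv _ s ξ hv', ptI_zero hsupp _ s ξ hv']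
    simp only [mul_zero, sub_zero]
    exact (hasDerivAt_const v (0 : ℂ)).congr_of_eventuallyEq h

private lemma ptI_continuous {a b : ℝ} (ha : 1 ≤ a) {ψ : ℝ → ℂ} (hψ : ContDiff ℝ (⊤ : ℕ∞) ψ)
    (hsupp : ∀ u, u ∉ Icc a b → ψ u = 0) (m : ℕ) (s : ℂ) (ξ : ℝ) (hξ : 1 ≤ |ξ|)
    (hs : |s.im| ≤ 3 * |ξ|) : Continuous (ptI m s ψ ξ) := by
  rw [continuous_iff_continuousAt]
  intro v
  by_cases hv : a ≤ v
  · have hv1 : 1 ≤ v := ha.trans hv
    have hW : ptW s ξ v ≠ 0 := by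
      have := ptW_bound (s := s) hv1 hs
      rw [← norm_pos_iff]
      linarith
    have h1 := (((ptW_hasDerivAt s ξ v).pow m).inv (pow_ne_zero _ hW)).continuousAt
    have h2 := ((ptG_hasDerivAt (by linarith : 0 < a) hψ hsupp s v).mul
      (ptE_hasDerivAt ξ v)).continuousAt
    exact h1.mul h2
  · have hva : v < a := not_le.1 hv
    have h : ptI m s ψ ξ =ᶠ[nhds v] fun _ => 0 :=
      ev_zero (a := a) (b := b) (fun u hu => ptI_zero hsupp _ s ξ hu) hva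
    exact continuousAt_const.congr h.symm

private lemma ptI_integrable {a b : ℝ} (ha : 1 ≤ a) {ψ : ℝ → ℂ} (hψ : ContDiff ℝ (⊤ : ℕ∞) ψ)
    (hsupp : ∀ u, u ∉ Icc a b → ψ u = 0) (m : ℕ) (s : ℂ) (ξ : ℝ) (hξ : 1 ≤ |ξ|)
    (hs : |s.im| ≤ 3 * |ξ|) : Integrable (ptI m s ψ ξ) :=
  supp_integrable (ptI_continuous ha hψ hsupp m s ξ hξ hs) (fun u hu => ptI_zero hsupp m s ξ hu)

private lemma ptI_rec {a b : ℝ} (ha : 1 ≤ a) {ψ : ℝ → ℂ} (hψ : ContDiff ℝ (⊤ : ℕ∞) ψ)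
    (hsupp : ∀ u, u ∉ Icc a b → ψ u = 0) (m : ℕ) (s : ℂ) (ξ : ℝ) (hξ : 1 ≤ |ξ|)
    (hs : |s.im| ≤ 3 * |ξ|) :
    ∫ v, ptI m s ψ ξ v = (∫ v, ptI (m + 1) s (deriv (fun v : ℝ => (v : ℂ) * ψ v)) ξ v)
      - (m + 1) * (2 * Real.pi * ξ * Complex.I)
        * ∫ v, ptI (m + 2) s (fun v : ℝ => (v : ℂ) * ψ v) ξ v := by
  have hsv : ∀ u, u ∉ Icc a b → (fun v : ℝ => (v : ℂ) * ψ v) u = 0 := fun u hu => by
    simp only [hsupp u hu, mul_zero]
  have hψv := mulv_contDiff hψ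
  have i1 := ptI_integrable ha hψv hsv (m + 1) s ξ hξ hs
  have i2 := ptI_integrable ha hψv hsv (m + 2) s ξ hξ hs
  have i3 := ptI_integrable ha hψ hsupp m s ξ hξ hs
  have i4 := ptI_integrable ha (deriv_contDiff hψv) (deriv_supp hsv) (m + 1) s ξ hξ hs
  have h := integral_eq_zero_of_hasDerivAt_of_integrable
    (ptI_hasDerivAt ha hψ hsupp m s ξ hξ hs) ((i4.sub (i2.const_mul _)).sub i3) i1
  have i5 : Integrable (fun v => ptI (m + 1) s (deriv (fun v : ℝ => (v : ℂ) * ψ v)) ξ v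
        - (m + 1) * (2 * Real.pi * ξ * Complex.I)
          * ptI (m + 2) s (fun v : ℝ => (v : ℂ) * ψ v) ξ v) := i4.sub (i2.const_mul _)
  rw [integral_sub i5 i3, integral_sub i4 (i2.const_mul _),
    integral_const_mul] at h
  exact (sub_eq_zero.1 h).symm

private lemma ptI_bound {a b : ℝ} (ha : 1 ≤ a) (hab : a < b) (J : ℕ) :
    ∀ m : ℕ, ∀ ψ : ℝ → ℂ, ContDiff ℝ (⊤ : ℕ∞) ψ → (∀ u, u ∉ Icc a b → ψ u = 0) →
    ∃ C : ℝ, 0 ≤ C ∧ ∀ s : ℂ, 0 ≤ s.re → ∀ ξ : ℝ, 1 ≤ |ξ| → |s.im| ≤ 3 * |ξ| →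
      ‖∫ v, ptI m s ψ ξ v‖ * |ξ| ^ (m + J) ≤ C := by
  induction J with
  | zero =>
    intro m ψ hψ hsupp
    obtain ⟨B, hB⟩ := (isCompact_Icc (a := a) (b := b)).exists_bound_of_continuousOn
      hψ.continuous.continuousOn
    have hB0 : 0 ≤ B := (norm_nonneg _).trans (hB a (left_mem_Icc.2 hab.le))
    refine ⟨B * (b - a), by
      have : 0 ≤ b - a := by linarith
      positivity, ?_⟩
    intro s hs0 ξ hξ hs
    have hξ0 : 0 < |ξ| := by linarith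
    have hpos : 0 < |ξ| ^ m := by positivity
    have h2 : ∫ v, ptI m s ψ ξ v = ∫ v in Icc a b, ptI m s ψ ξ v := by
      rw [← integral_indicator measurableSet_Icc]
      refine integral_congr_ae (Filter.Eventually.of_forall fun v => ?_)
      simp only [Set.indicator]
      split_ifs with h
      · rfl
      · exact ptI_zero hsupp m s ξ h
    have h3 : ∀ v ∈ Icc a b, ‖ptI m s ψ ξ v‖ ≤ (|ξ| ^ m)⁻¹ * B := by
      intro v hv
      have hv1 : 1 ≤ v := ha.trans hv.1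
      have hW := ptW_bound (s := s) hv1 hs
      unfold ptI
      rw [norm_mul, norm_inv, norm_pow]
      refine mul_le_mul ?_ ?_ (norm_nonneg _) (by positivity)
      · exact inv_anti₀ hpos (pow_le_pow_left₀ hξ0.le hW m)
      · have e1 : ‖ptE ξ v‖ = 1 := by
          unfold ptE
          rw [Complex.norm_exp]
          simp
        have e2 : ‖ptG s ψ v‖ ≤ B := by
          unfold ptG
          rw [norm_mul, Complex.norm_exp]
          have : (-s * (Real.log v : ℂ)).re = s.re * (- Real.log v) := by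
            simp [Complex.mul_re]
          rw [this]
          have h5 : Real.exp (s.re * (- Real.log v)) ≤ 1 := by
            rw [Real.exp_le_one_iff]
            have := Real.log_nonneg hv1
            nlinarith
          calc Real.exp (s.re * (- Real.log v)) * ‖ψ v‖ ≤ 1 * B :=
                mul_le_mul h5 (hB v hv) (norm_nonneg _) (by norm_num)
            _ = B := one_mul _
        rw [norm_mul, e1, mul_one]
        exact e2
    have h4 := norm_setIntegral_le_of_norm_le_const (μ := volume) (s := Icc a b)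
      (f := fun v => ptI m s ψ ξ v) (C := (|ξ| ^ m)⁻¹ * B) (by simp) h3
    have h5 : (volume : Measure ℝ).real (Icc a b) = b - a := by
      rw [Measure.real, Real.volume_Icc, ENNReal.toReal_ofReal (by linarith)]
    rw [h5, ← h2] at h4
    calc ‖∫ v, ptI m s ψ ξ v‖ * |ξ| ^ (m + 0) ≤ ((|ξ| ^ m)⁻¹ * B * (b - a)) * |ξ| ^ m := by
          rw [add_zero]; gcongr
      _ = B * (b - a) := by field_simp
  | succ J ih =>
    intro m ψ hψ hsupp
    have hsv : ∀ u, u ∉ Icc a b → (fun v : ℝ => (v : ℂ) * ψ v) u = 0 := fun u hu => by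
      simp only [hsupp u hu, mul_zero]
    have hψv := mulv_contDiff hψ
    obtain ⟨C₁, hC₁, h₁⟩ := ih (m + 1) _ (deriv_contDiff hψv) (deriv_supp hsv)
    obtain ⟨C₂, hC₂, h₂⟩ := ih (m + 2) _ hψv hsv
    refine ⟨C₁ + (m + 1) * (2 * Real.pi) * C₂, by positivity, ?_⟩
    intro s hs0 ξ hξ hs
    have e1 := h₁ s hs0 ξ hξ hs
    have e2 := h₂ s hs0 ξ hξ hs
    rw [ptI_rec ha hψ hsupp m s ξ hξ hs]
    have hn : ‖((m : ℂ) + 1) * (2 * Real.pi * ξ * Complex.I)‖ = (m + 1) * (2 * Real.pi * |ξ|) := by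
      rw [norm_mul, norm_mul, norm_mul, norm_mul]
      have : ‖(m : ℂ) + 1‖ = m + 1 := by
        have : ((m : ℂ) + 1) = ((m + 1 : ℕ) : ℂ) := by push_cast; ring
        rw [this, Complex.norm_natCast]
        push_cast
        ring
      rw [this]
      simp [abs_of_pos Real.pi_pos]
    calc ‖(∫ v, ptI (m + 1) s (deriv (fun v : ℝ => (v : ℂ) * ψ v)) ξ v)
      - (m + 1) * (2 * Real.pi * ξ * Complex.I)
        * ∫ v, ptI (m + 2) s (fun v : ℝ => (v : ℂ) * ψ v) ξ v‖ * |ξ| ^ (m + (J + 1))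
        ≤ (‖∫ v, ptI (m + 1) s (deriv (fun v : ℝ => (v : ℂ) * ψ v)) ξ v‖
          + (m + 1) * (2 * Real.pi * |ξ|) * ‖∫ v, ptI (m + 2) s (fun v : ℝ => (v : ℂ) * ψ v) ξ v‖)
            * |ξ| ^ (m + (J + 1)) := by
          refine mul_le_mul_of_nonneg_right ?_ (by positivity)
          refine (norm_sub_le _ _).trans ?_
          rw [norm_mul, hn]
      _ = ‖∫ v, ptI (m + 1) s (deriv (fun v : ℝ => (v : ℂ) * ψ v)) ξ v‖ * |ξ| ^ (m + 1 + J)
          + (m + 1) * (2 * Real.pi) * (‖∫ v, ptI (m + 2) s (fun v : ℝ => (v : ℂ) * ψ v) ξ v‖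
            * |ξ| ^ (m + 2 + J)) := by
          ring
      _ ≤ C₁ + (m + 1) * (2 * Real.pi) * C₂ := by
          gcongr

private lemma fourier_bound_b {a b : ℝ} (ha : 1 ≤ a) (hab : a < b) (J : ℕ) (ψ : ℝ → ℂ)
    (hψ : ContDiff ℝ (⊤ : ℕ∞) ψ) (hsupp : ∀ u, u ∉ Icc a b → ψ u = 0) :
    ∃ C : ℝ, 0 ≤ C ∧ ∀ s : ℂ, 0 ≤ s.re → ∀ ξ : ℝ, 1 ≤ |ξ| → |s.im| ≤ 3 * |ξ| →
      ‖𝓕 (ptG s ψ) ξ‖ * |ξ| ^ J ≤ C := by
  obtain ⟨C, hC, h⟩ := ptI_bound ha hab J 0 ψ hψ hsupp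
  refine ⟨C, hC, fun s hs0 ξ hξ hs => ?_⟩
  have h1 := h s hs0 ξ hξ hs
  rw [zero_add] at h1
  refine le_trans (le_of_eq ?_) h1
  congr 2
  rw [Real.fourier_real_eq]
  refine integral_congr_ae (Filter.Eventually.of_forall fun v => ?_)
  simp only [ptI, ptE, pow_zero, inv_one, one_mul, Circle.smul_def, smul_eq_mul,
    Real.fourierChar_apply]
  rw [mul_comm]
  congr 2
  push_cast
  ring

private lemma fourier_scale (f : ℝ → ℂ) (K : ℝ) (hK : 0 < K) (ξ : ℝ) :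
    𝓕 (fun x : ℝ => f (x / K)) ξ = (K : ℂ) * 𝓕 f (K * ξ) := by
  simp only [Real.fourier_real_eq]
  have h := MeasureTheory.Measure.integral_comp_div
    (fun y : ℝ => Real.fourierChar (-(y * (K * ξ))) • f y) K
  rw [abs_of_pos hK] at h
  rw [← Complex.real_smul, ← h]
  refine integral_congr_ae (Filter.Eventually.of_forall fun v => ?_)
  simp only
  congr 3
  field_simp

/-- Poisson summation for `k^{-s} ψ(k/K)` when `|Im s| ≤ 3K`: no stationary phase. -/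
theorem poisson_tail_b (ψ : ℝ → ℂ) (hψ : ContDiff ℝ (⊤ : ℕ∞) ψ) (a b : ℝ) (ha : 1 ≤ a) (hab : a < b)
    (hsupp : ∀ u, u ∉ Icc a b → ψ u = 0) (J : ℕ) (hJ : 2 ≤ J) :
    ∃ C : ℝ, 0 < C ∧ ∀ s : ℂ, 0 ≤ s.re → s.re ≤ 1 → ∀ K : ℝ, 1 ≤ K → |s.im| ≤ 3 * K →
      ‖(∑ k ∈ Finset.Icc 1 ⌊b * K⌋₊, (k : ℂ) ^ (-s) * ψ (k / K))
          - (K : ℂ) ^ (1 - s) * ∫ u in Ioi (0 : ℝ), (u : ℂ) ^ (-s) * ψ u‖
        ≤ C * K ^ (1 - s.re - J) := by
  have ha0 : 0 < a := by linarith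
  obtain ⟨C, hC, h⟩ := fourier_bound_b ha hab J ψ hψ hsupp
  have hJ1 : (1 : ℝ) < J := by exact_mod_cast (by omega : 1 < J)
  have hJ0 : (J : ℝ) ≠ 0 := by positivity
  have hsum : Summable fun n : ℤ => |(n : ℝ)| ^ (-(J : ℝ)) := Real.summable_abs_int_rpow hJ1
  set T : ℝ := ∑' n : ℤ, |(n : ℝ)| ^ (-(J : ℝ)) with hT
  have hT0 : 0 ≤ T := tsum_nonneg fun n => by positivity
  refine ⟨C * T + 1, by positivity, ?_⟩
  intro s hs0 hs1 K hK hsK
  have hK0 : 0 < K := by linarith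
  set f : ℝ → ℂ := fun x => ptG s ψ (x / K) with hf
  have hG := ptG_contDiff ha0 hψ hsupp s
  have hfc : Continuous f := hG.continuous.comp (continuous_id.div_const K)
  have hFf : ∀ ξ : ℝ, 𝓕 f ξ = (K : ℂ) * 𝓕 (ptG s ψ) (K * ξ) := fun ξ =>
    fourier_scale (ptG s ψ) K hK0 ξ
  have hbd : ∀ ξ : ℝ, 1 ≤ |ξ| → ‖𝓕 f ξ‖ ≤
      C * K ^ (1 - (J : ℝ)) * |ξ| ^ (-(J : ℝ)) := by
    intro ξ hξ
    have habs : |K * ξ| = K * |ξ| := by rw [abs_mul, abs_of_pos hK0]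
    have h1 := h s hs0 (K * ξ) (by rw [habs]; nlinarith) (by rw [habs]; nlinarith)
    have hξ0 : 0 < |ξ| := by linarith
    have hpos : 0 < |K * ξ| ^ J := by rw [habs]; positivity
    rw [hFf, norm_mul, Complex.norm_real, Real.norm_eq_abs, abs_of_pos hK0]
    have h2 : ‖𝓕 (ptG s ψ) (K * ξ)‖ ≤ C * (|K * ξ| ^ J)⁻¹ := by
      rw [← div_eq_mul_inv, le_div_iff₀ hpos]
      exact h1
    have h3 : (|K * ξ| ^ J)⁻¹ = K ^ (-(J : ℝ)) * |ξ| ^ (-(J : ℝ)) := by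
      rw [Real.rpow_neg hK0.le, Real.rpow_neg (abs_nonneg _), Real.rpow_natCast,
        Real.rpow_natCast, abs_mul, abs_of_pos hK0, mul_pow, mul_inv]
    calc K * ‖𝓕 (ptG s ψ) (K * ξ)‖ ≤ K * (C * (|K * ξ| ^ J)⁻¹) := by gcongr
      _ = C * (K ^ (1 : ℝ) * K ^ (-(J : ℝ))) * |ξ| ^ (-(J : ℝ)) := by
          rw [h3, Real.rpow_one]; ring
      _ = _ := by rw [← Real.rpow_add hK0, sub_eq_add_neg]
  have hcs : HasCompactSupport f := by
    refine HasCompactSupport.intro (isCompact_Icc (a := a * K) (b := b * K)) ?_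
    intro x hx
    refine ptG_zero hsupp s (fun hh => hx ?_)
    exact ⟨(le_div_iff₀ hK0).1 hh.1, (div_le_iff₀ hK0).1 hh.2⟩
  have hfO : f =O[Filter.cocompact ℝ] (|·| ^ (-(J : ℝ))) := by
    have : f =ᶠ[Filter.cocompact ℝ] 0 := by
      rw [← Filter.coclosedCompact_eq_cocompact]
      exact hasCompactSupport_iff_eventuallyEq.1 hcs
    exact this.trans_isBigO (Asymptotics.isBigO_zero _ _)
  have hFO : (𝓕 f) =O[Filter.cocompact ℝ] (|·| ^ (-(J : ℝ))) := by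
    refine Asymptotics.IsBigO.of_bound (C * K ^ (1 - (J : ℝ))) ?_
    have hne : ∀ᶠ ξ : ℝ in Filter.cocompact ℝ, 1 ≤ |ξ| := by
      have := (isCompact_Icc (a := (-1 : ℝ)) (b := 1)).compl_mem_cocompact
      filter_upwards [this] with ξ hξ
      by_contra hcon
      exact hξ (abs_le.1 (not_le.1 hcon).le)
    filter_upwards [hne] with ξ hξ
    rw [Real.norm_of_nonneg (by positivity : (0 : ℝ) ≤ |ξ| ^ (-(J : ℝ)))]
    exact hbd ξ hξ
  have hP := Real.tsum_eq_tsum_fourier_of_rpow_decay hfc hJ1 hfO hFO 0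
  simp only [zero_add] at hP
  have hev : ∀ n : ℤ, fourier n (((0 : ℝ)) : UnitAddCircle) = 1 := by
    intro n
    simp
  simp only [hev, mul_one] at hP
  have hFsum : Summable fun n : ℤ => 𝓕 f (n : ℝ) :=
    summable_of_isBigO (Real.summable_abs_int_rpow hJ1) (hFO.comp_tendsto Int.tendsto_coe_cofinite)
  -- left-hand side
  have hL : ∑' n : ℤ, f n = ∑ k ∈ Finset.Icc 1 ⌊b * K⌋₊, ptG s ψ ((k : ℝ) / K) := by
    rw [tsum_eq_sum (s := (Finset.Icc 1 ⌊b * K⌋₊).map Nat.castEmbedding)]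
    · rw [Finset.sum_map]
      refine Finset.sum_congr rfl fun k _ => ?_
      simp [hf]
    · intro n hn
      refine ptG_zero hsupp s (fun hh => hn ?_)
      have h1 : 0 < (n : ℝ) / K := lt_of_lt_of_le ha0 hh.1
      have h2 : 0 < (n : ℝ) := by
        have := mul_pos h1 hK0
        rwa [div_mul_cancel₀ _ hK0.ne'] at this
      have h3 : 0 < n := by exact_mod_cast h2
      obtain ⟨k, rfl⟩ := Int.eq_ofNat_of_zero_le h3.le
      simp only [Finset.mem_map, Finset.mem_Icc, Nat.castEmbedding_apply]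
      refine ⟨k, ⟨by exact_mod_cast h3, ?_⟩, rfl⟩
      refine Nat.le_floor ?_
      have := (div_le_iff₀ hK0).1 hh.2
      simpa using this
  -- relation between the two sums
  have hterm : ∀ k ∈ Finset.Icc 1 ⌊b * K⌋₊, (k : ℂ) ^ (-s) * ψ (k / K) =
      (K : ℂ) ^ (-s) * ptG s ψ ((k : ℝ) / K) := by
    intro k hk
    have hk1 : 1 ≤ k := (Finset.mem_Icc.1 hk).1
    have hk0 : (0 : ℝ) < k := by exact_mod_cast hk1
    have hkc : (k : ℂ) ≠ 0 := by exact_mod_cast hk0.ne'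
    have hKc : (K : ℂ) ≠ 0 := by exact_mod_cast hK0.ne'
    rw [ptG, Complex.cpow_def_of_ne_zero hkc, Complex.cpow_def_of_ne_zero hKc, ← mul_assoc,
      ← Complex.exp_add, Real.log_div hk0.ne' hK0.ne']
    congr 2
    rw [← Complex.natCast_log, ← Complex.ofReal_log hK0.le]
    push_cast
    ring
  rw [Finset.sum_congr rfl hterm, ← Finset.mul_sum, ← hL, hP, hFsum.tsum_eq_add_tsum_ite 0]
  -- the zero mode
  have hzero : 𝓕 f ((0 : ℤ) : ℝ) = (K : ℂ) * ∫ u in Ioi (0 : ℝ), (u : ℂ) ^ (-s) * ψ u := by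
    rw [hFf]
    congr 1
    simp only [Real.fourier_real_eq]
    rw [← integral_indicator measurableSet_Ioi]
    refine integral_congr_ae (Filter.Eventually.of_forall fun v => ?_)
    simp only [Set.indicator, Set.mem_Ioi]
    split_ifs with hv
    · simp only [Int.cast_zero, mul_zero, neg_zero, AddChar.map_zero_eq_one, one_smul, ptG]
      have hvc : (v : ℂ) ≠ 0 := by exact_mod_cast hv.ne'
      rw [Complex.cpow_def_of_ne_zero hvc, ← Complex.ofReal_log hv.le, mul_comm (-s)]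
    · rw [ptG_zero hsupp s (fun hh => hv (lt_of_lt_of_le ha0 hh.1)), smul_zero]
  have hKc : (K : ℂ) ≠ 0 := by exact_mod_cast hK0.ne'
  have hpow : (K : ℂ) ^ (1 - s) = (K : ℂ) ^ (-s) * K := by
    rw [sub_eq_add_neg, add_comm, Complex.cpow_add _ _ hKc, Complex.cpow_one]
  rw [hzero, hpow]
  have halg : ∀ (x y z w : ℂ), x * (y * z + w) - x * y * z = x * w := fun x y z w => by ring
  rw [halg, norm_mul, Complex.norm_cpow_eq_rpow_re_of_pos hK0]
  have hb0 : ∀ n : ℤ, ‖(if n = 0 then (0 : ℂ) else 𝓕 f (n : ℝ))‖ ≤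
      C * K ^ (1 - (J : ℝ)) * |(n : ℝ)| ^ (-(J : ℝ)) := by
    intro n
    split_ifs with hn
    · rw [norm_zero]; positivity
    · refine hbd n ?_
      have : (1 : ℤ) ≤ |n| := Int.one_le_abs hn
      exact_mod_cast this
  have hb1 : ‖∑' n : ℤ, (if n = 0 then (0 : ℂ) else 𝓕 f (n : ℝ))‖ ≤
      C * K ^ (1 - (J : ℝ)) * T := by
    rw [hT, ← tsum_mul_left]
    exact tsum_of_norm_bounded (hsum.mul_left _).hasSum hb0
  have hre : (-s).re = - s.re := by simp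
  rw [hre]
  calc K ^ (-s.re) * ‖∑' n : ℤ, (if n = 0 then (0 : ℂ) else 𝓕 f (n : ℝ))‖
      ≤ K ^ (-s.re) * (C * K ^ (1 - (J : ℝ)) * T) := by gcongr
    _ = (C * T) * (K ^ (-s.re) * K ^ (1 - (J : ℝ))) := by ring
    _ = (C * T) * K ^ (1 - s.re - J) := by
        rw [← Real.rpow_add hK0]
        congr 2
        ring
    _ ≤ (C * T + 1) * K ^ (1 - s.re - J) := by
        gcongr
        linarith

end Pool.Agent.H95.GC
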