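import Pool.Agent.H95.GC.Limit
import Pool.Agent.H95.GC.PoissonTailB
import Pool.Agent.H95.GC.MellinDecay

set_option autoImplicit false

namespace Pool.Agent.H95.GC

open Set MeasureTheory

private theorem ty_stp_one {v : ℝ} (h : v ≤ 0) : stp v = 1 := by
  unfold stp; exact Real.smoothTransition.one_of_one_le (by linarith)

private theorem ty_stp_zero {v : ℝ} (h : 1 ≤ v) : stp v = 0 := by
  unfold stp; exact Real.smoothTransition.zero_of_nonpos (by linarith)

private theorem ty_stp_contDiff : ContDiff ℝ (⊤ : ℕ∞) stp := by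
  unfold stp
  exact Real.smoothTransition.contDiff.comp (contDiff_const.sub contDiff_id)

private theorem ty_abs_stp (v : ℝ) : |stp v| ≤ 1 := by
  unfold stp
  rw [abs_of_nonneg (Real.smoothTransition.nonneg _)]
  exact Real.smoothTransition.le_one _

/-- The difference function. -/
private noncomputable def tyF (u : ℝ) : ℂ :=
  if u ≤ 0 then 0 else ((stp (Real.log u - 1) - stp (Real.log u) : ℝ) : ℂ)

private theorem tyF_pos {u : ℝ} (hu : 0 < u) :
    tyF u = ((stp (Real.log u - 1) - stp (Real.log u) : ℝ) : ℂ) := by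
  unfold tyF; rw [if_neg (not_le.2 hu)]

private theorem tyF_lt_one {u : ℝ} (hu : u < 1) : tyF u = 0 := by
  unfold tyF
  split_ifs with h
  · rfl
  · have h1 : Real.log u ≤ 0 := Real.log_nonpos (not_le.1 h).le hu.le
    rw [ty_stp_one h1, ty_stp_one (by linarith)]
    simp

private theorem tyF_contDiff : ContDiff ℝ (⊤ : ℕ∞) tyF := by
  rw [contDiff_iff_contDiffAt]
  intro u
  rcases le_or_gt u 0 with hu | hu
  · have h1 : tyF =ᶠ[nhds u] fun _ => 0 := by
      filter_upwards [Iio_mem_nhds (lt_of_le_of_lt hu one_pos)] with y hy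
      exact tyF_lt_one hy
    exact contDiffAt_const.congr_of_eventuallyEq h1
  · have h1 : tyF =ᶠ[nhds u] fun u => ((stp (Real.log u - 1) - stp (Real.log u) : ℝ) : ℂ) := by
      filter_upwards [Ioi_mem_nhds hu] with y hy
      exact tyF_pos hy
    refine ContDiffAt.congr_of_eventuallyEq ?_ h1
    have h2 : ContDiffAt ℝ (⊤ : ℕ∞) Real.log u := Real.contDiffAt_log.2 hu.ne'
    have h3 : ContDiffAt ℝ (⊤ : ℕ∞) (fun u => stp (Real.log u - 1) - stp (Real.log u)) u :=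
      (ty_stp_contDiff.contDiffAt.comp u (h2.sub contDiffAt_const)).sub
        (ty_stp_contDiff.contDiffAt.comp u h2)
    exact Complex.ofRealCLM.contDiff.contDiffAt.comp u h3

private theorem tyF_supp (u : ℝ) (hu : u ∉ Icc (1 : ℝ) (Real.exp 2)) : tyF u = 0 := by
  rcases lt_or_ge u 1 with h | h
  · exact tyF_lt_one h
  · have h1 : Real.exp 2 < u := by
      by_contra hc
      exact hu ⟨h, not_lt.1 hc⟩
    have hu0 : 0 < u := by linarith
    have h2 : 2 ≤ Real.log u := by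
      rw [Real.le_log_iff_exp_le hu0]; exact h1.le
    rw [tyF_pos hu0, ty_stp_zero (by linarith), ty_stp_zero (by linarith)]
    simp

private theorem ty_Z (s : ℂ) (w : ℝ) {N : ℕ} (hN : ⌊Real.exp (w + 1)⌋₊ ≤ N) :
    Z s w = ∑ k ∈ Finset.Icc 1 N, (k : ℂ) ^ (-s) * (stp (Real.log k - w) : ℂ) := by
  have key : ∀ M : ℕ, ⌊Real.exp (w + 1)⌋₊ ≤ M →
      ∑ k ∈ Finset.Icc 1 M, (k : ℂ) ^ (-s) * (stp (Real.log k - w) : ℂ) =
      ∑ k ∈ Finset.Icc 1 ⌊Real.exp (w + 1)⌋₊, (k : ℂ) ^ (-s) * (stp (Real.log k - w) : ℂ) := by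
    intro M hM
    symm
    apply Finset.sum_subset (Finset.Icc_subset_Icc_right hM)
    intro k hk hk'
    have hk1 : 1 ≤ k := (Finset.mem_Icc.1 hk).1
    have hk2 : ⌊Real.exp (w + 1)⌋₊ < k := by
      by_contra hc
      exact hk' (Finset.mem_Icc.2 ⟨hk1, not_lt.1 hc⟩)
    have hk3 : Real.exp (w + 1) < k := (Nat.floor_lt (Real.exp_pos _).le).1 hk2
    have hk0 : (0 : ℝ) < k := by exact_mod_cast hk1
    have : w + 1 ≤ Real.log k := by
      rw [Real.le_log_iff_exp_le hk0]; exact hk3.le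
    rw [ty_stp_zero (by linarith)]
    simp
  unfold Z
  rw [key N hN, key]
  apply Nat.floor_le_floor
  rw [Real.exp_add, mul_comm]
  have : Real.exp 1 ≤ 3 := by have := Real.exp_one_lt_d9; linarith
  exact mul_le_mul_of_nonneg_right this (Real.exp_pos _).le

private theorem ty_integrable {s : ℂ} (h1 : s.re < 1) (t : ℝ) :
    IntegrableOn (fun u : ℝ => (u : ℂ) ^ (-s) * (stp (Real.log u - t) : ℂ)) (Ioi 0) := by
  have hsplit : Ioi (0 : ℝ) = Ioc 0 (Real.exp (t + 1)) ∪ Ioi (Real.exp (t + 1)) :=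
    (Ioc_union_Ioi_eq_Ioi (Real.exp_pos _).le).symm
  rw [hsplit]
  refine IntegrableOn.union ?_ ?_
  · have i1 : IntervalIntegrable (fun u : ℝ => (u : ℂ) ^ (-s)) volume 0 (Real.exp (t + 1)) :=
      intervalIntegral.intervalIntegrable_cpow' (by simp; exact h1)
    rw [intervalIntegrable_iff_integrableOn_Ioc_of_le (Real.exp_pos _).le] at i1
    refine Integrable.mul_bdd (c := 1) i1 ?_ ?_
    · apply Measurable.aestronglyMeasurable
      exact Complex.measurable_ofReal.comp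
        (ty_stp_contDiff.continuous.measurable.comp (Real.measurable_log.sub_const t))
    · refine Filter.Eventually.of_forall fun x => ?_
      rw [Complex.norm_real]
      exact ty_abs_stp _
  · refine (integrableOn_zero).congr_fun (fun u hu => ?_) measurableSet_Ioi
    have hu0 : 0 < u := lt_trans (Real.exp_pos _) hu
    have : t + 1 ≤ Real.log u := by
      rw [Real.le_log_iff_exp_le hu0]; exact le_of_lt hu
    rw [ty_stp_zero (by linarith)]
    simp

private noncomputable def tyPhi (s : ℂ) : ℂ :=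
  ∫ u in Ioi (0 : ℝ), (u : ℂ) ^ (-s) * (stp (Real.log u) : ℂ)

private theorem ty_exp_cpow (w : ℝ) (s : ℂ) : ((Real.exp w : ℝ) : ℂ) ^ s = Complex.exp (s * w) := by
  have hlog : Complex.log ((Real.exp w : ℝ) : ℂ) = (w : ℂ) := by
    rw [← Complex.ofReal_log (Real.exp_pos w).le, Real.log_exp]
  have hne : ((Real.exp w : ℝ) : ℂ) ≠ 0 := by
    exact_mod_cast (Real.exp_pos w).ne'
  rw [Complex.cpow_def_of_ne_zero hne, hlog, mul_comm]

private theorem ty_scale {s : ℂ} :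
    ∫ u in Ioi (0 : ℝ), (u : ℂ) ^ (-s) * (stp (Real.log u - 1) : ℂ) =
      Complex.exp (1 - s) * tyPhi s := by
  have h1 := integral_comp_mul_left_Ioi
    (fun u : ℝ => (u : ℂ) ^ (-s) * (stp (Real.log u - 1) : ℂ)) 0 (Real.exp_pos 1)
  rw [mul_zero] at h1
  have h2 : ∫ x in Ioi (0 : ℝ), (fun u : ℝ => (u : ℂ) ^ (-s) * (stp (Real.log u - 1) : ℂ))
      (Real.exp 1 * x) = Complex.exp (-s) * tyPhi s := by
    unfold tyPhi
    rw [← integral_const_mul]
    refine setIntegral_congr_fun measurableSet_Ioi fun x hx => ?_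
    have hx0 : (0 : ℝ) < x := hx
    simp only
    rw [Real.log_mul (Real.exp_pos 1).ne' hx0.ne', Real.log_exp, add_sub_cancel_left,
      Complex.ofReal_mul, Complex.mul_cpow_ofReal_nonneg (Real.exp_pos 1).le hx0.le, ty_exp_cpow,
      Complex.ofReal_one, mul_one, mul_assoc]
  rw [h2] at h1
  have h3 : ((Real.exp 1 : ℝ) : ℂ) ≠ 0 := by exact_mod_cast (Real.exp_pos 1).ne'
  have h4 : ∫ u in Ioi (0 : ℝ), (u : ℂ) ^ (-s) * (stp (Real.log u - 1) : ℂ) =
      ((Real.exp 1 : ℝ) : ℂ) * (Complex.exp (-s) * tyPhi s) := by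
    rw [h1, Complex.real_smul, Complex.ofReal_inv, ← mul_assoc, mul_inv_cancel₀ h3, one_mul]
  rw [h4, Complex.ofReal_exp, ← mul_assoc, ← Complex.exp_add, Complex.ofReal_one, sub_eq_add_neg]

private theorem ty_intF {s : ℂ} (h1 : s.re < 1) :
    ∫ u in Ioi (0 : ℝ), (u : ℂ) ^ (-s) * tyF u = Complex.exp (1 - s) * tyPhi s - tyPhi s := by
  have h2 : ∫ u in Ioi (0 : ℝ), (u : ℂ) ^ (-s) * tyF u =
      ∫ u in Ioi (0 : ℝ), ((u : ℂ) ^ (-s) * (stp (Real.log u - 1) : ℂ) -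
        (u : ℂ) ^ (-s) * (stp (Real.log u) : ℂ)) := by
    refine setIntegral_congr_fun measurableSet_Ioi fun u hu => ?_
    rw [tyF_pos hu]
    push_cast
    ring
  have i0 := ty_integrable h1 0
  simp only [sub_zero] at i0
  rw [h2, integral_sub (ty_integrable h1 1) i0, ty_scale]
  rfl

private noncomputable def tyE (s : ℂ) (w : ℝ) : ℂ := Z s w - Complex.exp ((1 - s) * w) * tyPhi s

private theorem ty_diff {s : ℂ} (h1 : s.re < 1) (w : ℝ) :
    tyE s (w + 1) - tyE s w =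
      (∑ k ∈ Finset.Icc 1 ⌊Real.exp 2 * Real.exp w⌋₊, (k : ℂ) ^ (-s) * tyF (k / Real.exp w))
        - ((Real.exp w : ℝ) : ℂ) ^ (1 - s) * ∫ u in Ioi (0 : ℝ), (u : ℂ) ^ (-s) * tyF u := by
  have hN : ⌊Real.exp (w + 1 + 1)⌋₊ ≤ ⌊Real.exp 2 * Real.exp w⌋₊ := by
    apply Nat.floor_le_floor
    rw [← Real.exp_add]
    apply Real.exp_le_exp.2
    linarith
  have hN' : ⌊Real.exp (w + 1)⌋₊ ≤ ⌊Real.exp 2 * Real.exp w⌋₊ := by
    refine le_trans (Nat.floor_le_floor ?_) hN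
    apply Real.exp_le_exp.2
    linarith
  have hZ : Z s (w + 1) - Z s w =
      ∑ k ∈ Finset.Icc 1 ⌊Real.exp 2 * Real.exp w⌋₊, (k : ℂ) ^ (-s) * tyF (k / Real.exp w) := by
    rw [ty_Z s (w + 1) hN, ty_Z s w hN', ← Finset.sum_sub_distrib]
    refine Finset.sum_congr rfl fun k hk => ?_
    have hk0 : (0 : ℝ) < k := by exact_mod_cast (Finset.mem_Icc.1 hk).1
    rw [tyF_pos (div_pos hk0 (Real.exp_pos _)), Real.log_div hk0.ne' (Real.exp_pos _).ne',
      Real.log_exp]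
    have e1 : Real.log k - (w + 1) = Real.log k - w - 1 := by ring
    rw [e1]
    push_cast
    ring
  unfold tyE
  rw [← hZ, ty_intF h1, ty_exp_cpow]
  have e2 : Complex.exp ((1 - s) * ((w + 1 : ℝ) : ℂ)) =
      Complex.exp ((1 - s) * w) * Complex.exp (1 - s) := by
    rw [← Complex.exp_add]
    congr 1
    push_cast
    ring
  rw [e2]
  ring

private theorem ty_tel (E : ℝ → ℂ) (w D r : ℝ) (hD0 : 0 ≤ D) (hr : r ≤ -1)
    (hstep : ∀ v : ℝ, w ≤ v → ‖E (v + 1) - E v‖ ≤ D * Real.exp (v * r))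
    (hlimE : Filter.Tendsto E Filter.atTop (nhds 0)) :
    ‖E w‖ ≤ D * Real.exp (w * r) * 2 := by
  have hhalf : Real.exp r ≤ 1 / 2 := by
    have h1 : Real.exp r ≤ Real.exp (-1) := Real.exp_le_exp.2 hr
    have h2 : Real.exp (-1) ≤ 1 / 2 := by
      rw [Real.exp_neg, inv_eq_one_div]
      apply one_div_le_one_div_of_le (by norm_num)
      have := Real.add_one_le_exp (1 : ℝ)
      linarith
    exact h1.trans h2
  have hstep2 : ∀ m : ℕ, ‖E (w + (m + 1 : ℕ)) - E (w + m)‖ ≤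
      D * Real.exp (w * r) * (1 / 2) ^ m := by
    intro m
    have h1 := hstep (w + m) (by
      have : (0 : ℝ) ≤ m := Nat.cast_nonneg m
      linarith)
    have e1 : w + (m : ℝ) + 1 = w + ((m + 1 : ℕ) : ℝ) := by push_cast; ring
    rw [e1] at h1
    refine h1.trans ?_
    have e2 : Real.exp ((w + m) * r) = Real.exp (w * r) * Real.exp r ^ m := by
      rw [← Real.exp_nat_mul, ← Real.exp_add]
      congr 1
      ring
    rw [e2, ← mul_assoc]
    refine mul_le_mul_of_nonneg_left ?_ (by positivity)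
    exact pow_le_pow_left₀ (Real.exp_pos _).le hhalf m
  have htel : ∀ n : ℕ, ‖E w‖ ≤ ‖E (w + n)‖ + D * Real.exp (w * r) * (2 - 2 * (1 / 2) ^ n) := by
    intro n
    induction n with
    | zero => simp
    | succ n ih =>
      have h1 := hstep2 n
      have h2 : ‖E (w + n)‖ ≤ ‖E (w + (n + 1 : ℕ))‖ +
          ‖E (w + (n + 1 : ℕ)) - E (w + n)‖ := by
        have := norm_sub_le (E (w + (n + 1 : ℕ))) (E (w + (n + 1 : ℕ)) - E (w + n))
        rwa [sub_sub_cancel] at this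
      have e3 : D * Real.exp (w * r) * (2 - 2 * (1 / 2) ^ (n + 1)) =
          D * Real.exp (w * r) * (2 - 2 * (1 / 2) ^ n) + D * Real.exp (w * r) * (1 / 2) ^ n := by
        rw [pow_succ]; ring
      rw [e3]
      linarith
  have hlim : Filter.Tendsto (fun n : ℕ => ‖E (w + n)‖ + D * Real.exp (w * r) * 2)
      Filter.atTop (nhds (0 + D * Real.exp (w * r) * 2)) := by
    refine Filter.Tendsto.add_const _ ?_
    have h2 : Filter.Tendsto (fun n : ℕ => w + (n : ℝ)) Filter.atTop Filter.atTop :=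
      Filter.tendsto_atTop_add_const_left _ _ tendsto_natCast_atTop_atTop
    have h3 := (hlimE.comp h2).norm
    rw [norm_zero] at h3
    exact h3
  rw [zero_add] at hlim
  refine ge_of_tendsto' hlim fun n => (htel n).trans ?_
  have h1 : D * Real.exp (w * r) * (2 - 2 * (1 / 2) ^ n) ≤ D * Real.exp (w * r) * 2 := by
    refine mul_le_mul_of_nonneg_left ?_ (by positivity)
    have : (0 : ℝ) < (1 / 2) ^ n := by positivity
    linarith
  linarith

/-- Numerics for the error term. -/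
private theorem ty_num1 (B C T w β x : ℝ) (J : ℕ)
    (hJ2 : (2 : ℝ) ≤ J) (hJκ : B + 2 ≤ J) (hC0 : 0 < C)
    (hTC : 4 * C ≤ T) (hT_1 : 1 ≤ T) (hw0 : 0 ≤ w) (hw1 : Real.log T ≤ w)
    (hb0 : 1 / 2 ≤ β)
    (hE : x ≤ C * Real.exp (w * (1 - β - J)) * 2) : x ≤ T ^ (-B) / 2 := by
  have hT0 : 0 < T := by linarith
  have hTBpos : 0 < T ^ (-B) := Real.rpow_pos_of_pos hT0 _
  have hTB : T ^ (-B - 1) = T ^ (-B) / T := by
    rw [Real.rpow_sub hT0, Real.rpow_one]
  have hexp : Real.exp (w * (1 - β - J)) ≤ T ^ (-B - 1) := by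
    rw [Real.rpow_def_of_pos hT0]
    apply Real.exp_le_exp.2
    have h1 : w * (1 - β - J) ≤ w * (1 / 2 - J) := mul_le_mul_of_nonneg_left (by linarith) hw0
    have h2 : w * (1 / 2 - J) ≤ Real.log T * (1 / 2 - J) :=
      mul_le_mul_of_nonpos_right hw1 (by linarith)
    have hlog0 : 0 ≤ Real.log T := Real.log_nonneg hT_1
    have h3 : Real.log T * (1 / 2 - J) ≤ Real.log T * (-B - 1) :=
      mul_le_mul_of_nonneg_left (by linarith) hlog0
    exact h1.trans (h2.trans h3)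
  have h6 : C * (T ^ (-B) / T) ≤ T ^ (-B) / 4 := by
    rw [mul_div_assoc', div_le_div_iff₀ hT0 (by norm_num)]
    have := mul_le_mul_of_nonneg_right hTC hTBpos.le
    linarith
  calc x ≤ C * Real.exp (w * (1 - β - J)) * 2 := hE
    _ ≤ C * (T ^ (-B) / T) * 2 := by
        rw [← hTB]
        exact mul_le_mul_of_nonneg_right (mul_le_mul_of_nonneg_left hexp hC0.le) (by norm_num)
    _ ≤ T ^ (-B) / 4 * 2 := mul_le_mul_of_nonneg_right h6 (by norm_num)
    _ = T ^ (-B) / 2 := by ring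

/-- Numerics for the main term. -/
private theorem ty_num2 (A B C' T w β x y m : ℝ) (J' : ℕ) (hJA : A / 2 + B + 1 ≤ J')
    (hC0 : 0 < C') (hTC : 2 * C' ≤ T) (hT_1 : 1 ≤ T) (hw0 : 0 ≤ w) (hw2 : w ≤ A * Real.log T)
    (hb0 : 1 / 2 ≤ β) (hm : T ≤ m) (hx : x ≤ Real.exp ((1 - β) * w))
    (hy : y ≤ C' / m ^ J') (hy0 : 0 ≤ y) : x * y ≤ T ^ (-B) / 2 := by
  have hT0 : 0 < T := by linarith
  have hTBpos : 0 < T ^ (-B) := Real.rpow_pos_of_pos hT0 _
  have hTB : T ^ (-B - 1) = T ^ (-B) / T := by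
    rw [Real.rpow_sub hT0, Real.rpow_one]
  have h1 : x ≤ T ^ (A / 2) := by
    refine hx.trans ?_
    rw [Real.rpow_def_of_pos hT0]
    apply Real.exp_le_exp.2
    have h2 : (1 - β) * w ≤ 1 / 2 * w := mul_le_mul_of_nonneg_right (by linarith) hw0
    have h3 : 1 / 2 * w ≤ 1 / 2 * (A * Real.log T) := mul_le_mul_of_nonneg_left hw2 (by norm_num)
    calc (1 - β) * w ≤ 1 / 2 * (A * Real.log T) := h2.trans h3
      _ = _ := by ring
  have h3 : y ≤ C' * T ^ (-(J' : ℝ)) := by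
    refine hy.trans ?_
    rw [Real.rpow_neg hT0.le, Real.rpow_natCast, ← div_eq_mul_inv]
    refine div_le_div_of_nonneg_left hC0.le (by positivity) ?_
    exact pow_le_pow_left₀ hT0.le hm J'
  calc x * y ≤ T ^ (A / 2) * (C' * T ^ (-(J' : ℝ))) :=
        mul_le_mul h1 h3 hy0 (Real.rpow_nonneg hT0.le _)
    _ = C' * T ^ (A / 2 + -(J' : ℝ)) := by rw [Real.rpow_add hT0]; ring
    _ ≤ C' * T ^ (-B - 1) := by
        refine mul_le_mul_of_nonneg_left ?_ hC0.le
        apply Real.rpow_le_rpow_of_exponent_le hT_1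
        linarith
    _ ≤ T ^ (-B) / 2 := by
        rw [hTB, mul_div_assoc', div_le_div_iff₀ hT0 (by norm_num)]
        have := mul_le_mul_of_nonneg_right hTC hTBpos.le
        linarith

/-- At a zero of `ζ` the smooth partial sums of length at least `T` are tiny. -/
theorem tiny_b (A B : ℝ) : ∃ T₀ : ℝ, 1 ≤ T₀ ∧ ∀ T : ℝ, T₀ ≤ T →
    ∀ ρ : ℂ, riemannZeta ρ = 0 → 1 / 2 ≤ ρ.re → ρ.re < 1 → T ≤ |ρ.im| → |ρ.im| ≤ 3 * T →
    ∀ w : ℝ, Real.log T ≤ w → w ≤ A * Real.log T → ‖Z ρ w‖ ≤ T ^ (-B) := by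
  obtain ⟨J, hJ2, hJκ⟩ : ∃ J : ℕ, 2 ≤ J ∧ B + 2 ≤ (J : ℝ) := by
    obtain ⟨J₀, hJ₀⟩ := exists_nat_ge (B + 2)
    refine ⟨J₀ + 2, by omega, ?_⟩
    push_cast
    linarith
  obtain ⟨J', hJ'1, hJ'A⟩ : ∃ J' : ℕ, 1 ≤ J' ∧ A / 2 + B + 1 ≤ (J' : ℝ) := by
    obtain ⟨J₁, hJ₁⟩ := exists_nat_ge (A / 2 + B + 1)
    refine ⟨J₁ + 1, by omega, ?_⟩
    push_cast; linarith
  obtain ⟨C, hC0, hC⟩ := poisson_tail_b tyF tyF_contDiff 1 (Real.exp 2) le_rfl
    (by have := Real.add_one_le_exp (2 : ℝ); linarith) tyF_supp J hJ2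
  obtain ⟨C', hC'0, hC'⟩ := mellin_decay J' hJ'1
  refine ⟨max 1 (max (4 * C) (2 * C')), le_max_left _ _, ?_⟩
  intro T hT ρ hρ hb0 hb1 hT1 hT2 w hw1 hw2
  have hT_1 : 1 ≤ T := (le_max_left _ _).trans hT
  have hT0 : 0 < T := by linarith
  have hTC : 4 * C ≤ T := ((le_max_left _ _).trans (le_max_right _ _)).trans hT
  have hTC' : 2 * C' ≤ T := ((le_max_right _ _).trans (le_max_right _ _)).trans hT
  have hlog : 0 ≤ Real.log T := Real.log_nonneg hT_1
  have hw0 : 0 ≤ w := le_trans hlog hw1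
  have hJr : (2 : ℝ) ≤ J := by exact_mod_cast hJ2
  have hE : ‖tyE ρ w‖ ≤ C * Real.exp (w * (1 - ρ.re - J)) * 2 := by
    refine ty_tel (tyE ρ) w C (1 - ρ.re - J) hC0.le
      (by linarith) ?_ ?_
    · intro v hv
      rw [ty_diff hb1 v]
      have hTv : T ≤ Real.exp v := by
        calc T = Real.exp (Real.log T) := (Real.exp_log hT0).symm
          _ ≤ Real.exp v := Real.exp_le_exp.2 (hw1.trans hv)
      have := hC ρ (by linarith) hb1.le (Real.exp v) (Real.one_le_exp (hw0.trans hv))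
        (by linarith)
      rwa [← Real.exp_mul] at this
    · have h1 := Z_limit ρ (by linarith) hb1
      rw [hρ] at h1
      exact h1
  have hE2 : ‖tyE ρ w‖ ≤ T ^ (-B) / 2 :=
    ty_num1 B C T w ρ.re _ J hJr hJκ hC0 hTC hT_1 hw0 hw1 hb0 hE
  have hM : ‖Complex.exp ((1 - ρ) * w) * tyPhi ρ‖ ≤ T ^ (-B) / 2 := by
    rw [norm_mul]
    refine ty_num2 A B C' T w ρ.re _ _ ‖1 - ρ‖ J' hJ'A hC'0 hTC' hT_1 hw0 hw2 hb0 ?_ ?_
      (hC' ρ (by linarith) hb1) (norm_nonneg _)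
    · have := Complex.abs_im_le_norm (1 - ρ)
      simp only [Complex.sub_im, Complex.one_im, zero_sub, abs_neg] at this
      exact hT1.trans this
    · rw [Complex.norm_exp]
      have e1 : ((1 - ρ) * (w : ℂ)).re = (1 - ρ.re) * w := by simp
      rw [e1]
  have hZE : Z ρ w = tyE ρ w + Complex.exp ((1 - ρ) * w) * tyPhi ρ := by
    unfold tyE; ring
  rw [hZE]
  calc _ ≤ ‖tyE ρ w‖ + ‖Complex.exp ((1 - ρ) * w) * tyPhi ρ‖ := norm_add_le _ _
    _ ≤ T ^ (-B) / 2 + T ^ (-B) / 2 := add_le_add hE2 hM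
    _ = T ^ (-B) := by ring

end Pool.Agent.H95.GC
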