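import Pool.Agent.H95.GC.ZetaForm
import Pool.Agent.H95.GC.ThreeCircles
import Pool.Agent.H95.GC.Reflect

set_option autoImplicit false

namespace Pool.Agent.H95.GC

open Set MeasureTheory

/-- Borel-Carathéodory, centred at `c`. -/
private theorem window_bc (L : ℂ → ℂ) (c : ℂ) (R M r : ℝ) (hR : 0 < R) (hM : 0 < M)
    (hL : DifferentiableOn ℂ L (Metric.ball c R)) (h0 : L c = 0)
    (hb : ∀ z ∈ Metric.ball c R, (L z).re ≤ M) (z : ℂ) (hz : dist z c = r) (hr : r < R) :
    ‖L z‖ ≤ 2 * M * r / (R - r) := by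
  have hmaps : Set.MapsTo (fun w : ℂ => w + c) (Metric.ball 0 R) (Metric.ball c R) := by
    intro w hw
    simpa [dist_eq_norm] using hw
  have hd : DifferentiableOn ℂ (fun w : ℂ => L (w + c)) (Metric.ball 0 R) :=
    hL.comp (by fun_prop) hmaps
  have hz0 : z - c ∈ Metric.ball (0 : ℂ) R := by
    rw [mem_ball_zero_iff, ← dist_eq_norm, hz]; exact hr
  have := Complex.borelCaratheodory_zero (f := fun w => L (w + c)) (z := z - c) hM hd
    (fun w hw => hb _ (hmaps hw)) hR hz0 (by simpa using h0)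
  rw [← dist_eq_norm, hz] at this
  simpa using this

/-- Under zero-freeness of the disc of radius `5/2` about a point of `Re = 2`, a bound for the
logarithm of `ζ`. -/
private theorem window_log (T : ℝ) (hT : 20 ≤ T) (c : ℂ) (hc : c.re = 2) (hci : |c.im| = T)
    (hlow : 1 / 3 ≤ ‖riemannZeta c‖)
    (hzf : ∀ z ∈ Metric.ball c (5 / 2), riemannZeta z ≠ 0) (r : ℝ) (hr1 : 1 / 2 < r)
    (hr2 : r < 9 / 4) (z : ℂ) (hz : dist z c = r) :
    ∃ w : ℂ, riemannZeta z = riemannZeta c * Complex.exp w ∧
      ‖w‖ ≤ 12 ^ (Real.log ((9 / 4) / r) / Real.log ((9 / 4) / (1 / 2)))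
        * (54 * Real.log T) ^ (Real.log (r / (1 / 2)) / Real.log ((9 / 4) / (1 / 2))) := by
  have hlogT : 0 < Real.log T := Real.log_pos (by linarith)
  have him : ∀ z ∈ Metric.ball c (5 / 2), T - 5 / 2 < |z.im| ∧ |z.im| < T + 5 / 2 := by
    intro z hz
    have h1 : |z.im - c.im| < 5 / 2 := by
      have := Complex.abs_im_le_norm (z - c)
      rw [Complex.sub_im] at this
      have h2 : ‖z - c‖ < 5 / 2 := by simpa [dist_eq_norm] using hz
      linarith
    constructor
    · have := abs_sub_abs_le_abs_sub c.im z.im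
      rw [abs_sub_comm] at this
      linarith
    · have := abs_sub_abs_le_abs_sub z.im c.im
      linarith
  have hre : ∀ z ∈ Metric.ball c (5 / 2), -1 / 2 < z.re ∧ z.re < 9 / 2 := by
    intro z hz
    have h1 : |z.re - c.re| < 5 / 2 := by
      have := Complex.abs_re_le_norm (z - c)
      rw [Complex.sub_re] at this
      have h2 : ‖z - c‖ < 5 / 2 := by simpa [dist_eq_norm] using hz
      linarith
    rw [hc, abs_lt] at h1
    constructor <;> linarith
  have hne1 : ∀ z ∈ Metric.ball c (5 / 2), z ≠ 1 := by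
    intro z hz h
    have := (him z hz).1
    rw [h] at this
    simp at this
    linarith
  have hdiff : DifferentiableOn ℂ riemannZeta (Metric.ball c (5 / 2)) := fun z hz =>
    (differentiableAt_riemannZeta (hne1 z hz)).differentiableWithinAt
  obtain ⟨L, hLd, hL0, hL⟩ := exists_log riemannZeta c (5 / 2) (by norm_num) hdiff hzf
  have hcpos : 0 < ‖riemannZeta c‖ := by linarith
  -- real part of `L`
  have hLre : ∀ z ∈ Metric.ball c (5 / 2), Real.exp (L z).re ≤ 3 * ‖riemannZeta z‖ := by
    intro z hz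
    have h1 := hL z hz
    have h2 : ‖riemannZeta z‖ = ‖riemannZeta c‖ * Real.exp (L z).re := by
      rw [h1, norm_mul, Complex.norm_exp]
    rw [h2]
    have h3 := Real.exp_pos (L z).re
    nlinarith
  have hM1 : ∀ z ∈ Metric.ball c (5 / 2), (L z).re ≤ 3 * Real.log T := by
    intro z hz
    have h1 := hLre z hz
    have h2 : ‖riemannZeta z‖ ≤ 2 * (1 + ‖z‖) ^ 2 :=
      zeta_growth z (by linarith [(hre z hz).1]) (by linarith [(him z hz).1])
    have h3 : ‖z‖ ≤ T + 7 := by
      have := Complex.norm_le_abs_re_add_abs_im z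
      have h4 : |z.re| ≤ 9 / 2 := by
        rw [abs_le]; constructor <;> linarith [(hre z hz).1, (hre z hz).2]
      linarith [(him z hz).2]
    have h5 : (1 + ‖z‖) ^ 2 ≤ (T + 8) ^ 2 := by
      have := norm_nonneg z
      apply pow_le_pow_left₀ (by linarith) (by linarith)
    have h6 : Real.exp (L z).re ≤ T ^ 3 := by
      have : 6 * (T + 8) ^ 2 ≤ T ^ 3 := by nlinarith [sq_nonneg (T - 20), mul_nonneg (sub_nonneg.2 hT) (sq_nonneg T)]
      nlinarith
    have h7 : (L z).re ≤ Real.log (T ^ 3) := by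
      rw [Real.le_log_iff_exp_le (by positivity)]
      exact h6
    rw [Real.log_pow] at h7
    exact_mod_cast h7
  have hB3 : ∀ z, dist z c = 9 / 4 → ‖L z‖ ≤ 54 * Real.log T := by
    intro z hz
    have := window_bc L c (5 / 2) (3 * Real.log T) (9 / 4) (by norm_num) (by positivity) hLd hL0
      hM1 z hz (by norm_num)
    refine this.trans (le_of_eq ?_)
    ring
  have hB1 : ∀ z, dist z c = 1 / 2 → ‖L z‖ ≤ 12 := by
    intro z hz
    have hsub : Metric.ball c (3 / 4) ⊆ Metric.ball c (5 / 2) :=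
      Metric.ball_subset_ball (by norm_num)
    have hM2 : ∀ z ∈ Metric.ball c (3 / 4), (L z).re ≤ 3 := by
      intro z hz
      have h1 := hLre z (hsub hz)
      have h2 : 5 / 4 ≤ z.re := by
        have h1 : |z.re - c.re| < 3 / 4 := by
          have := Complex.abs_re_le_norm (z - c)
          rw [Complex.sub_re] at this
          have h2 : ‖z - c‖ < 3 / 4 := by simpa [dist_eq_norm] using hz
          linarith
        rw [hc, abs_lt] at h1
        linarith
      have h3 := zeta_right_upper z h2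
      have h4 : Real.exp (L z).re ≤ 15 := by linarith
      have h5 : (15 : ℝ) ≤ Real.exp 3 := by
        have h6 : Real.exp 3 = (Real.exp 1) ^ 3 := by rw [← Real.exp_nat_mul]; norm_num
        have h7 := Real.exp_one_gt_d9
        rw [h6]
        have : (2.7 : ℝ) ^ 3 ≤ Real.exp 1 ^ 3 := pow_le_pow_left₀ (by norm_num) (by linarith) 3
        nlinarith
      exact Real.exp_le_exp.1 (h4.trans h5)
    have := window_bc L c (3 / 4) 3 (1 / 2) (by norm_num) (by norm_num) (hLd.mono hsub) hL0
      hM2 z hz (by norm_num)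
    refine this.trans (le_of_eq ?_)
    norm_num
  have hzball : z ∈ Metric.ball c (5 / 2) := by
    rw [Metric.mem_ball, hz]; linarith
  refine ⟨L z, hL z hzball, ?_⟩
  exact three_circles L c (1 / 2) r (9 / 4) (5 / 2) 12 (54 * Real.log T) (by norm_num) hr1 hr2
    (by norm_num) hLd (by norm_num) (by positivity) hB1 hB3 z hz

/-- The contradiction for large `T`. -/
private theorem window_large : ∃ T₀ : ℝ, 20 ≤ T₀ ∧ ∀ T : ℝ, T₀ ≤ T →
    288 * Real.exp (48 * (54 * Real.log T) ^ (Real.log 4 / Real.log ((9 / 4) / (1 / 2)))) < T := by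
  set b : ℝ := Real.log 4 / Real.log ((9 / 4) / (1 / 2)) with hb
  have hb1 : b < 1 := by
    rw [hb, div_lt_one (Real.log_pos (by norm_num))]
    exact Real.log_lt_log (by norm_num) (by norm_num)
  have h1 : Filter.Tendsto (fun u : ℝ => u ^ (-(1 - b))) Filter.atTop (nhds 0) :=
    tendsto_rpow_neg_atTop (by linarith)
  have h2 : Filter.Tendsto (fun T : ℝ => 54 * Real.log T) Filter.atTop Filter.atTop :=
    Real.tendsto_log_atTop.const_mul_atTop (by norm_num)
  have h3 := (h1.comp h2).eventually (gt_mem_nhds (show (0 : ℝ) < 1 / (48 * 108) by norm_num))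
  have h4 : ∀ᶠ T : ℝ in Filter.atTop, 2 * Real.log 288 < Real.log T :=
    Real.tendsto_log_atTop.eventually (Filter.eventually_gt_atTop _)
  have h5 := (h3.and h4).and (Filter.eventually_ge_atTop (20 : ℝ))
  obtain ⟨T₀, hT₀⟩ := Filter.eventually_atTop.1 h5
  refine ⟨max T₀ 20, le_max_right _ _, fun T hT => ?_⟩
  obtain ⟨⟨h6, h7⟩, h8⟩ := hT₀ T ((le_max_left _ _).trans hT)
  have hTpos : 0 < T := by linarith
  have hlog : 0 < Real.log T := Real.log_pos (by linarith)
  have hu : 0 < 54 * Real.log T := by positivity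
  have h9 : (54 * Real.log T) ^ b = (54 * Real.log T) ^ (-(1 - b)) * (54 * Real.log T) := by
    rw [← Real.rpow_add_one hu.ne']
    congr 1
    ring
  have h10 : 48 * (54 * Real.log T) ^ b < Real.log T / 2 := by
    rw [h9]
    simp only [Function.comp] at h6
    have := mul_lt_mul_of_pos_right h6 hu
    calc 48 * ((54 * Real.log T) ^ (-(1 - b)) * (54 * Real.log T))
        < 48 * (1 / (48 * 108) * (54 * Real.log T)) := by
          apply mul_lt_mul_of_pos_left this (by norm_num)
      _ = Real.log T / 2 := by ring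
  calc 288 * Real.exp (48 * (54 * Real.log T) ^ b)
      = Real.exp (Real.log 288 + 48 * (54 * Real.log T) ^ b) := by
        rw [Real.exp_add, Real.exp_log (by norm_num)]
    _ < Real.exp (Real.log T) := by
        apply Real.exp_lt_exp.2
        linarith
    _ = T := Real.exp_log hTpos

/-- Every window of ordinates of bounded length (up to sign) contains a zero of `ζ` on or to the
right of the critical line. -/
theorem exists_zero : ∃ T₀ : ℝ, 1 ≤ T₀ ∧ ∀ T : ℝ, T₀ ≤ T → ∃ ρ : ℂ, riemannZeta ρ = 0 ∧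
    1 / 2 ≤ ρ.re ∧ ρ.re < 1 ∧ abs (|ρ.im| - T) ≤ 5 / 2 := by
  obtain ⟨T₀, hT₀, hlarge⟩ := window_large
  refine ⟨T₀, by linarith, fun T hT => ?_⟩
  by_contra hcon
  push Not at hcon
  have hT20 : 20 ≤ T := hT₀.trans hT
  have hTpos : 0 < T := by linarith
  -- no zeros in the two balls
  have hzf : ∀ c : ℂ, c.re = 2 → |c.im| = T → ∀ z ∈ Metric.ball c (5 / 2),
      riemannZeta z ≠ 0 := by
    intro c hc hci z hz hzero
    have h2 : ‖z - c‖ < 5 / 2 := by simpa [dist_eq_norm] using hz
    have h1 : |z.im - c.im| < 5 / 2 := by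
      have := Complex.abs_im_le_norm (z - c)
      rw [Complex.sub_im] at this
      linarith
    have h3 : abs (|z.im| - T) ≤ 5 / 2 := by
      rw [← hci]
      exact (abs_abs_sub_abs_le_abs_sub z.im c.im).trans h1.le
    have h4 : z.im ≠ 0 := by
      intro h
      rw [h, abs_zero, zero_sub, abs_neg, abs_of_pos hTpos] at h3
      linarith
    rcases le_or_gt 1 z.re with h5 | h5
    · exact riemannZeta_ne_zero_of_one_le_re h5 hzero
    rcases le_or_gt (1 / 2) z.re with h6 | h6
    · exact absurd h3 (not_le.2 (hcon z hzero h6 h5))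
    · have h7 : riemannZeta (1 - z) = 0 := by
        rw [riemannZeta_one_sub (s := z), hzero, mul_zero]
        · intro n h
          apply h4
          rw [h]; simp
        · intro h
          apply h4
          rw [h]; simp
      have h8 : (1 - z).re = 1 - z.re := by simp
      have h9 : (1 - z).im = -z.im := by simp
      rcases le_or_gt 1 (1 - z).re with h10 | h10
      · exact riemannZeta_ne_zero_of_one_le_re h10 h7
      · refine absurd ?_ (not_le.2 (hcon (1 - z) h7 (by rw [h8]; linarith) h10))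
        rw [h9, abs_neg]
        exact h3
  -- the two centres
  have hlogT : 0 < Real.log T := Real.log_pos (by linarith)
  have hlogT1 : 1 ≤ 54 * Real.log T := by
    have : Real.log 3 ≤ Real.log T := Real.log_le_log (by norm_num) (by linarith)
    have h3 : 1 < Real.log 3 := by
      rw [Real.lt_log_iff_exp_lt (by norm_num)]
      exact Real.exp_one_lt_three
    linarith
  have hc1 : (2 + (T : ℂ) * Complex.I).re = 2 := by simp
  have hc1i : |(2 + (T : ℂ) * Complex.I).im| = T := by simp [abs_of_pos hTpos]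
  have hc2 : (2 + ((-T : ℝ) : ℂ) * Complex.I).re = 2 := by simp
  have hc2i : |(2 + ((-T : ℝ) : ℂ) * Complex.I).im| = T := by simp [abs_of_pos hTpos]
  obtain ⟨w₁, hw₁, hw₁b⟩ := window_log T hT20 _ hc1 hc1i (zeta_two_lower T)
    (hzf _ hc1 hc1i) 1 (by norm_num) (by norm_num) (1 + T * Complex.I) (by
      rw [dist_eq_norm]
      have : (1 + (T : ℂ) * Complex.I) - (2 + T * Complex.I) = ((-1 : ℝ) : ℂ) := by
        push_cast; ring
      rw [this, Complex.norm_real]; norm_num)
  obtain ⟨w₂, hw₂, hw₂b⟩ := window_log T hT20 _ hc2 hc2i (zeta_two_lower (-T))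
    (hzf _ hc2 hc2i) 2 (by norm_num) (by norm_num) (-(T * Complex.I)) (by
      rw [dist_eq_norm]
      have : (-((T : ℂ) * Complex.I)) - (2 + ((-T : ℝ) : ℂ) * Complex.I) = ((-2 : ℝ) : ℂ) := by
        push_cast; ring
      rw [this, Complex.norm_real]; norm_num)
  set b : ℝ := Real.log 4 / Real.log ((9 / 4) / (1 / 2)) with hb
  have hD : 0 < Real.log ((9 / 4 : ℝ) / (1 / 2)) := Real.log_pos (by norm_num)
  have hpow : ∀ a : ℝ, a ≤ 1 → (12 : ℝ) ^ a ≤ 12 := by
    intro a ha
    calc (12 : ℝ) ^ a ≤ (12 : ℝ) ^ (1 : ℝ) := Real.rpow_le_rpow_of_exponent_le (by norm_num) ha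
      _ = 12 := by norm_num
  have hw₁c : ‖w₁‖ ≤ 12 * (54 * Real.log T) ^ b := by
    refine hw₁b.trans ?_
    apply mul_le_mul (hpow _ _) _ (by positivity) (by norm_num)
    · rw [div_le_one hD]
      exact Real.log_le_log (by norm_num) (by norm_num)
    · apply Real.rpow_le_rpow_of_exponent_le hlogT1
      rw [hb]
      apply div_le_div_of_nonneg_right _ hD.le
      exact Real.log_le_log (by norm_num) (by norm_num)
  have hw₂c : ‖w₂‖ ≤ 12 * (54 * Real.log T) ^ b := by
    refine hw₂b.trans ?_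
    apply mul_le_mul (hpow _ _) _ (by positivity) (by norm_num)
    · rw [div_le_one hD]
      exact Real.log_le_log (by norm_num) (by norm_num)
    · apply Real.rpow_le_rpow_of_exponent_le hlogT1
      rw [hb]
      apply div_le_div_of_nonneg_right _ hD.le
      exact Real.log_le_log (by norm_num) (by norm_num)
  have hrefl := reflect T (by rw [abs_of_pos hTpos]; linarith)
  rw [abs_of_pos hTpos] at hrefl
  set P := (54 * Real.log T) ^ b with hP
  have hPnn : 0 ≤ P := by positivity
  -- lower bound on `ζ(1+iT)`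
  have hlow : 1 / 3 * Real.exp (-(12 * P)) ≤ ‖riemannZeta (1 + T * Complex.I)‖ := by
    rw [hw₁, norm_mul, Complex.norm_exp]
    apply mul_le_mul (zeta_two_lower T) _ (Real.exp_pos _).le (norm_nonneg _)
    apply Real.exp_le_exp.2
    have := Complex.abs_re_le_norm w₁
    linarith [neg_abs_le w₁.re]
  have hup : ‖riemannZeta (-(T * Complex.I))‖ ≤ 2 * Real.exp (12 * P) := by
    rw [hw₂, norm_mul, Complex.norm_exp]
    apply mul_le_mul (zeta_two_upper (-T)) _ (Real.exp_pos _).le (by norm_num)
    apply Real.exp_le_exp.2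
    have := Complex.abs_re_le_norm w₂
    linarith [le_abs_self w₂.re]
  have h1 : (1 / 3 * Real.exp (-(12 * P))) ^ 2 ≤ ‖riemannZeta (1 + T * Complex.I)‖ ^ 2 :=
    pow_le_pow_left₀ (by positivity) hlow 2
  have h2 : ‖riemannZeta (-(T * Complex.I))‖ ^ 2 ≤ (2 * Real.exp (12 * P)) ^ 2 :=
    pow_le_pow_left₀ (norm_nonneg _) hup 2
  have h3 : T / 8 * (1 / 3 * Real.exp (-(12 * P))) ^ 2 ≤ (2 * Real.exp (12 * P)) ^ 2 :=
    (mul_le_mul_of_nonneg_left h1 (by positivity)).trans (hrefl.trans h2)
  have h4 : T ≤ 288 * Real.exp (48 * P) := by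
    have e1 : Real.exp (48 * P) = Real.exp (12 * P) ^ 4 := by
      rw [← Real.exp_nat_mul]; push_cast; ring_nf
    have e2 : Real.exp (-(12 * P)) * Real.exp (12 * P) = 1 := by
      rw [← Real.exp_add]; simp
    rw [e1]
    set x := Real.exp (12 * P)
    set y := Real.exp (-(12 * P))
    have h5 : T * y ^ 2 ≤ 288 * x ^ 2 := by nlinarith
    have hx : 0 < x := Real.exp_pos _
    calc T = T * (y * x) ^ 2 := by rw [e2]; ring
      _ = (T * y ^ 2) * x ^ 2 := by ring
      _ ≤ (288 * x ^ 2) * x ^ 2 := mul_le_mul_of_nonneg_right h5 (by positivity)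
      _ = 288 * x ^ 4 := by ring
  exact absurd h4 (not_le.2 (hlarge T hT))

end Pool.Agent.H95.GC
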