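import Pool.Agent.H95.GC.CoreD
import Pool.Agent.H95.GC.TinyB
import Pool.Agent.H95.GC.Window

set_option autoImplicit false

namespace Pool.Agent.H95.GC

open Set MeasureTheory

theorem core_ev1 (A : ℝ) : ∀ᶠ T : ℝ in Filter.atTop, 1920 * (A * Real.log T + 1) ≤ T ^ 2 := by
  have h1 : Filter.Tendsto (fun T : ℝ => (1920 * (A * Real.log T + 1)) / T ^ 2) Filter.atTop
      (nhds 0) := by
    have h2 : Filter.Tendsto (fun T : ℝ => Real.log T / T ^ 2) Filter.atTop (nhds 0) := by
      have := Real.tendsto_pow_log_div_mul_add_atTop 1 0 1 one_ne_zero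
      have h3 : Filter.Tendsto (fun T : ℝ => (Real.log T / T) * (1 / T)) Filter.atTop
          (nhds (0 * 0)) := by
        apply Filter.Tendsto.mul
        · simpa using this
        · exact (tendsto_inv_atTop_zero (𝕜 := ℝ)).congr fun T => (one_div T).symm
      rw [mul_zero] at h3
      refine h3.congr fun T => ?_
      rw [div_mul_div_comm, mul_one, sq]
    have h3 : Filter.Tendsto (fun T : ℝ => (1 : ℝ) / T ^ 2) Filter.atTop (nhds 0) := by
      simp only [one_div]
      exact (tendsto_inv_atTop_zero (𝕜 := ℝ)).comp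
        (Filter.tendsto_pow_atTop (α := ℝ) (n := 2) two_ne_zero)
    have h4 := (h2.const_mul (1920 * A)).add (h3.const_mul 1920)
    rw [mul_zero, mul_zero, add_zero] at h4
    refine h4.congr fun T => ?_
    ring
  filter_upwards [h1.eventually (ge_mem_nhds (zero_lt_one)), Filter.eventually_gt_atTop 0]
    with T hT hT0
  rw [div_le_one (by positivity)] at hT
  exact hT

/-- Lower bound for the mean square of the window function over a range of logarithmic length
`log T + 1`. -/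
theorem core : ∃ c : ℝ, 0 < c ∧ ∀ A : ℝ, 0 < A → ∃ T₀ : ℝ, 1 ≤ T₀ ∧ ∀ T : ℝ, T₀ ≤ T →
    ∀ n : ℝ, 0 ≤ n → n ≤ A * Real.log T → ∀ δ : ℝ, 1 / (40 * T) ≤ δ → δ ≤ 1 / (20 * T) →
    c / (T * Real.log T ^ 3) ≤ ∫ u in n..(n + Real.log T + 1),
      (M (Real.exp u) (δ * Real.exp u)) ^ 2 * Real.exp (-u) := by
  obtain ⟨CU, hCU, hups⟩ := upsilon
  obtain ⟨CW, hCW, hweight⟩ := weight_bound
  obtain ⟨Tz, hTz1, hzeros⟩ := exists_zero
  refine ⟨1 / (2240 ^ 2 * (CU ^ 2 * CW ^ 2 * (4 * Real.pi ^ 2) * 28)), by positivity, ?_⟩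
  intro A hA
  obtain ⟨Tt, hTt1, htiny⟩ := tiny_b (A + 3) (A + 3)
  have hev := (core_ev1 A).and ((Filter.eventually_ge_atTop (Real.exp 1)).and
      (Filter.eventually_ge_atTop (42 : ℝ)))
  obtain ⟨T₁, hT₁⟩ := Filter.eventually_atTop.mp hev
  refine ⟨max (max Tz Tt) (max T₁ 42), ?_, ?_⟩
  · exact le_max_of_le_right (le_max_of_le_right (by norm_num))
  intro T hT n hn hnA δ hδ1 hδ2
  have hTz : Tz ≤ T := (le_max_left _ _).trans ((le_max_left _ _).trans hT)
  have hTt : Tt ≤ T := (le_max_right _ _).trans ((le_max_left _ _).trans hT)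
  have hTT : T₁ ≤ T := (le_max_left _ _).trans ((le_max_right _ _).trans hT)
  obtain ⟨he1, he3, he4⟩ := hT₁ T hTT
  have hT0 : 0 < T := by linarith
  have hT1 : 1 ≤ T := by linarith
  have hlog1 : 1 ≤ Real.log T := by
    rw [Real.le_log_iff_exp_le hT0]; exact he3
  -- the zeros
  set R : ℕ := ⌊T / 6⌋₊ with hR
  have hR1 : (R : ℝ) ≤ T / 6 := Nat.floor_le (by positivity)
  have hR2 : T / 6 < R + 1 := Nat.lt_floor_add_one _
  have hz : ∀ r : ℕ, ∃ ρ : ℂ, riemannZeta ρ = 0 ∧ 1 / 2 ≤ ρ.re ∧ ρ.re < 1 ∧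
      abs (|ρ.im| - (T + 6 * ((r : ℝ) + 1))) ≤ 5 / 2 := by
    intro r
    apply hzeros
    have : (0 : ℝ) ≤ r := Nat.cast_nonneg r
    linarith
  choose ρ hρ0 hρ1 hρ2 hρ3 using hz
  have hρeq : ∀ r, (1 / 2 + ((ρ r).re - 1 / 2 : ℝ) + ((ρ r).im : ℝ) * Complex.I : ℂ) = ρ r := by
    intro r
    apply Complex.ext <;> simp
  have hup : ∀ r < R, |(ρ r).im| ≤ 3 * T := by
    intro r hr
    have h1 := (abs_le.mp (hρ3 r)).2
    have h2 : (r : ℝ) + 1 ≤ R := by exact_mod_cast hr
    linarith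
  have hlow : ∀ r, T ≤ |(ρ r).im| := by
    intro r
    have h1 := (abs_le.mp (hρ3 r)).1
    have h2 : (0 : ℝ) ≤ r := Nat.cast_nonneg r
    linarith
  set ν : ℝ := n + Real.log T with hν
  have hδ0 : 0 < δ := lt_of_lt_of_le (by positivity) hδ1
  have hδh : δ ≤ 1 / 2 := by
    refine hδ2.trans ?_
    rw [div_le_div_iff₀ (by positivity) (by norm_num)]
    linarith
  have hνn : n ≤ ν := by
    rw [hν]
    linarith
  have hν1 : 1 ≤ ν := by
    rw [hν]
    linarith
  have hmain := main_ineq CU CW hCU hups T hT1 R (fun r => (ρ r).re - 1 / 2)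
    (fun r => (ρ r).im) (fun r _ => by linarith [hρ1 r]) (fun r _ => by linarith [hρ2 r])
    (hweight T R (fun r => (ρ r).im) hT1 (by linarith) hup (fun r _ => hρ3 r))
    δ n ν (T ^ (-(A + 3))) hδ0 hδh hn hνn hν1
    (by
      intro r hr
      rw [hρeq r]
      have h1 : ‖ρ r‖ ≤ 4 * T := by
        have h2 := Complex.norm_le_abs_re_add_abs_im (ρ r)
        have h3 : |(ρ r).re| ≤ 1 := by
          rw [abs_le]; constructor <;> linarith [hρ1 r, hρ2 r]
        linarith [hup r hr]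
      calc ‖ρ r‖ * δ ≤ (4 * T) * (1 / (20 * T)) :=
            mul_le_mul h1 hδ2 hδ0.le (by positivity)
        _ = 1 / 5 := by field_simp; norm_num
        _ ≤ 1 / 4 := by norm_num)
    (by
      have h1 : Real.exp n ≤ T ^ A := by
        rw [Real.rpow_def_of_pos hT0]
        apply Real.exp_le_exp.mpr
        linarith
      have h2 : T ^ A * T ^ (-(A + 3)) = 1 / T ^ 3 := by
        rw [← Real.rpow_add hT0, show A + -(A + 3) = -((3 : ℕ) : ℝ) by push_cast; ring,
          Real.rpow_neg hT0.le, Real.rpow_natCast, one_div]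
      have h3 : 0 ≤ T ^ (-(A + 3)) := Real.rpow_nonneg hT0.le _
      calc 6 * Real.exp n * T ^ (-(A + 3)) * (n + 1)
          ≤ 6 * T ^ A * T ^ (-(A + 3)) * (A * Real.log T + 1) := by
            apply mul_le_mul _ (by linarith) (by linarith) (by positivity)
            apply mul_le_mul_of_nonneg_right _ h3
            linarith
        _ = 6 * (1 / T ^ 3) * (A * Real.log T + 1) := by rw [mul_assoc 6, h2]
        _ ≤ 1 / (40 * T) / 8 := by
            rw [div_div, mul_one_div, div_mul_eq_mul_div, div_le_div_iff₀ (by positivity)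
              (by positivity)]
            have h4 : T * (1920 * (A * Real.log T + 1)) ≤ T * T ^ 2 :=
              mul_le_mul_of_nonneg_left he1 hT0.le
            nlinarith
        _ ≤ δ / 8 := by linarith)
    (by
      intro r hr u hu
      rw [hρeq r]
      apply htiny T hTt (ρ r) (hρ0 r) (hρ1 r) (hρ2 r) (hlow r) (hup r hr)
      · rw [hν]; linarith [hu.2]
      · rw [hν]
        have h5 := hu.1
        nlinarith)
  -- lower bound for the left-hand side
  set I₀ := ∫ u in n..(ν + 1), g δ u ^ 2 * Real.exp (-u) with hI₀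
  have hI₀0 : 0 ≤ I₀ := by
    apply intervalIntegral.integral_nonneg (by linarith)
    intro u _
    positivity
  have hlhs : (1 : ℝ) / 2240 ^ 2 ≤ (R * (δ / 8)) ^ 2 := by
    have h1 : (1 : ℝ) / 2240 ≤ R * (δ / 8) := by
      have h2 : T / 7 ≤ R := by linarith
      calc (1 : ℝ) / 2240 = (T / 7) * (1 / (40 * T) / 8) := by field_simp; norm_num
        _ ≤ R * (δ / 8) := by
            apply mul_le_mul h2 (by linarith) (by positivity) (Nat.cast_nonneg _)
    calc (1 : ℝ) / 2240 ^ 2 = (1 / 2240) ^ 2 := by norm_num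
      _ ≤ _ := pow_le_pow_left₀ (by norm_num) h1 2
  -- upper bound for the right-hand side
  set l : ℝ := Real.log T with hl
  have hL' : ν - n + 1 = l + 1 := by rw [hν]; ring
  have hexp : Real.exp (ν - n) = T := by
    rw [hν, add_sub_cancel_left, hl, Real.exp_log hT0]
  have hKle : (⌊3 * Real.exp (ν - n)⌋₊ : ℝ) ≤ 3 * T := by
    rw [hexp]; exact Nat.floor_le (by positivity)
  have hKpos : (0 : ℝ) < (⌊3 * Real.exp (ν - n)⌋₊ : ℝ) := by
    have : 1 ≤ ⌊3 * Real.exp (ν - n)⌋₊ := by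
      apply Nat.le_floor
      have : 1 ≤ Real.exp (ν - n) := Real.one_le_exp (by linarith)
      push_cast
      linarith
    exact_mod_cast this
  have hlogK : Real.log (⌊3 * Real.exp (ν - n)⌋₊ : ℝ) ≤ l + 2 := by
    calc Real.log (⌊3 * Real.exp (ν - n)⌋₊ : ℝ) ≤ Real.log (3 * T) :=
          Real.log_le_log hKpos hKle
      _ = Real.log 3 + l := by
          rw [Real.log_mul (by norm_num) hT0.ne']
      _ ≤ l + 2 := by
          have h1 : Real.log 3 ≤ 2 := by
            have := Real.log_le_sub_one_of_pos (show (0 : ℝ) < 3 by norm_num)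
            linarith
          linarith
  have hbr : T * (1 + Real.log (⌊3 * Real.exp (ν - n)⌋₊ : ℝ)) + (⌊3 * Real.exp (ν - n)⌋₊ : ℝ)
      ≤ 7 * l * T := by
    have h1 : T * (1 + Real.log (⌊3 * Real.exp (ν - n)⌋₊ : ℝ)) ≤ T * (l + 3) :=
      mul_le_mul_of_nonneg_left (by linarith) hT0.le
    have h2 : T * 6 ≤ 6 * l * T := by nlinarith
    nlinarith
  have hI₁ : 1 / (2240 ^ 2 * (CU ^ 2 * CW ^ 2 * (4 * Real.pi ^ 2) * 28)) / (T * l ^ 3) ≤ I₀ := by
    have h1 : (CU * (ν - n + 1) * CW) ^ 2 *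
      ((2 * Real.pi * (T * (1 + Real.log ⌊3 * Real.exp (ν - n)⌋₊) + ⌊3 * Real.exp (ν - n)⌋₊))
        * (2 * Real.pi * I₀)) ≤ (CU * (2 * l) * CW) ^ 2 * ((2 * Real.pi * (7 * l * T))
        * (2 * Real.pi * I₀)) := by
      rw [hL']
      apply mul_le_mul _ _ (by positivity) (by positivity)
      · apply pow_le_pow_left₀ (by positivity)
        apply mul_le_mul_of_nonneg_right _ hCW.le
        apply mul_le_mul_of_nonneg_left _ hCU.le
        linarith
      · apply mul_le_mul_of_nonneg_right _ (by positivity)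
        exact mul_le_mul_of_nonneg_left hbr (by positivity)
    have h3 : (CU * (2 * l) * CW) ^ 2 * ((2 * Real.pi * (7 * l * T)) * (2 * Real.pi * I₀))
        = (CU ^ 2 * CW ^ 2 * (4 * Real.pi ^ 2) * 28) * (T * l ^ 3) * I₀ := by ring
    rw [h3] at h1
    have h4 : (1 : ℝ) / 2240 ^ 2 ≤ (CU ^ 2 * CW ^ 2 * (4 * Real.pi ^ 2) * 28) * (T * l ^ 3) * I₀ :=
      hlhs.trans (hmain.trans h1)
    rw [div_div, div_le_iff₀ (by positivity)]
    rw [div_le_iff₀ (by positivity)] at h4
    linarith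
  exact hI₁

end Pool.Agent.H95.GC
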