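import Pool.Agent.H95.GC.Lorentz

set_option autoImplicit false

namespace Pool.Agent.H95.GC

open Set MeasureTheory

theorem continuous_Dir (K : ℕ) : Continuous (Dir K) := by
  unfold Dir
  fun_prop

theorem norm_Dir_le (K : ℕ) (t : ℝ) : ‖Dir K t‖ ≤ K := by
  unfold Dir
  refine (norm_sum_le _ _).trans ?_
  have h : ∀ k ∈ Finset.Icc 1 K,
      ‖Complex.exp (-((1 / 2 + t * Complex.I) * (Real.log k : ℂ)))‖ ≤ 1 := by
    intro k hk
    rw [Finset.mem_Icc] at hk
    rw [Complex.norm_exp]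
    have h1 : (-((1 / 2 + t * Complex.I) * (Real.log k : ℂ))).re = -(1 / 2 * Real.log k) := by
      rw [Complex.neg_re, Complex.re_mul_ofReal]
      simp
    rw [h1, Real.exp_le_one_iff]
    have h2 : 0 ≤ Real.log k := Real.log_natCast_nonneg k
    linarith
  refine (Finset.sum_le_sum h).trans ?_
  simp

/-- the term of the double sum -/
private noncomputable def MeanD_term (T : ℝ) (k l : ℕ) : ℝ :=
  Real.exp (-((Real.log k + Real.log l) / 2)) * Real.exp (-(T * |Real.log k - Real.log l|))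

private lemma MeanD_norm_sq (K : ℕ) (t : ℝ) : ((‖Dir K t‖ ^ 2 : ℝ) : ℂ) =
    ∑ k ∈ Finset.Icc 1 K, ∑ l ∈ Finset.Icc 1 K,
      ((Real.exp (-((Real.log k + Real.log l) / 2)) : ℝ) : ℂ) *
        Complex.exp (-(((Real.log k - Real.log l : ℝ) : ℂ) * t * Complex.I)) := by
  have h1 : ((‖Dir K t‖ ^ 2 : ℝ) : ℂ) = Dir K t * (starRingEnd ℂ) (Dir K t) := by
    rw [Complex.mul_conj, Complex.normSq_eq_norm_sq]
  rw [h1]
  unfold Dir
  rw [map_sum, Finset.sum_mul_sum]
  refine Finset.sum_congr rfl fun k _ => Finset.sum_congr rfl fun l _ => ?_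
  rw [← Complex.exp_conj, ← Complex.exp_add, Complex.ofReal_exp, ← Complex.exp_add]
  congr 1
  simp only [map_neg, map_mul, map_add, map_div₀, map_one, map_ofNat, Complex.conj_ofReal,
    Complex.conj_I]
  push_cast
  ring

private lemma MeanD_integrable (T : ℝ) (hT : 0 < T) (a : ℝ) (c : ℂ) :
    Integrable (fun t : ℝ => c * Complex.exp (-((a : ℂ) * t * Complex.I)) *
      ((1 / (1 + (t / T) ^ 2) : ℝ) : ℂ)) := by
  refine Integrable.bdd_mul (c := ‖c‖) (integrable_lorentz T hT).ofReal ?_ ?_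
  · exact (by fun_prop : Continuous fun t : ℝ =>
      c * Complex.exp (-((a : ℂ) * t * Complex.I))).aestronglyMeasurable
  · refine Filter.Eventually.of_forall fun t => ?_
    rw [norm_mul, Complex.norm_exp]
    have : (-((a : ℂ) * t * Complex.I)).re = 0 := by simp
    rw [this]
    simp

private lemma MeanD_integral (T : ℝ) (hT : 0 < T) (K : ℕ) :
    ∫ t : ℝ, ‖Dir K t‖ ^ 2 * (1 / (1 + (t / T) ^ 2)) =
      Real.pi * T * ∑ k ∈ Finset.Icc 1 K, ∑ l ∈ Finset.Icc 1 K, MeanD_term T k l := by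
  apply Complex.ofReal_injective
  rw [← integral_complex_ofReal]
  have h1 : (fun t : ℝ => ((‖Dir K t‖ ^ 2 * (1 / (1 + (t / T) ^ 2)) : ℝ) : ℂ)) = fun t : ℝ =>
      ∑ k ∈ Finset.Icc 1 K, ∑ l ∈ Finset.Icc 1 K,
      ((Real.exp (-((Real.log k + Real.log l) / 2)) : ℝ) : ℂ) *
        Complex.exp (-(((Real.log k - Real.log l : ℝ) : ℂ) * t * Complex.I)) *
          ((1 / (1 + (t / T) ^ 2) : ℝ) : ℂ) := by
    funext t
    rw [Complex.ofReal_mul, MeanD_norm_sq, Finset.sum_mul]
    refine Finset.sum_congr rfl fun k _ => ?_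
    rw [Finset.sum_mul]
  rw [h1, integral_finsetSum _ fun k _ => integrable_finsetSum _ fun l _ =>
    MeanD_integrable T hT _ _]
  push_cast
  rw [Finset.mul_sum]
  refine Finset.sum_congr rfl fun k _ => ?_
  rw [integral_finsetSum _ fun l _ => by
    have := MeanD_integrable T hT (Real.log k - Real.log l)
      ((Real.exp (-((Real.log k + Real.log l) / 2)) : ℝ) : ℂ)
    push_cast at this ⊢
    exact this, Finset.mul_sum]
  refine Finset.sum_congr rfl fun l _ => ?_
  have h2 := lorentz T hT (Real.log k - Real.log l)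
  have h3 : ∫ t : ℝ, ((Real.exp (-((Real.log k + Real.log l) / 2)) : ℝ) : ℂ) *
        Complex.exp (-(((Real.log k - Real.log l : ℝ) : ℂ) * t * Complex.I)) *
          ((1 / (1 + (t / T) ^ 2) : ℝ) : ℂ) =
      ((Real.exp (-((Real.log k + Real.log l) / 2)) : ℝ) : ℂ) *
        ((Real.pi * T * Real.exp (-(T * |Real.log k - Real.log l|)) : ℝ) : ℂ) := by
    rw [← h2, ← integral_const_mul]
    refine integral_congr_ae (Filter.Eventually.of_forall fun t => ?_)
    show _ = _
    ring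
  unfold MeanD_term
  push_cast at h3 ⊢
  rw [h3]
  ring

private lemma MeanD_sum_rpow (a : ℝ) (ha : 0 ≤ a) (k : ℕ) :
    ∑ l ∈ Finset.Icc 1 k, (l : ℝ) ^ a ≤ (k : ℝ) ^ a + (k : ℝ) ^ (a + 1) / (a + 1) := by
  have h : ∀ k : ℕ, ∑ l ∈ Finset.Icc 1 k, (l : ℝ) ^ a ≤ ((k : ℝ) + 1) ^ (a + 1) / (a + 1) := by
    intro k
    induction k with
    | zero =>
      simp
      positivity
    | succ n ih =>
      rw [Finset.sum_Icc_succ_top (by omega)]
      push_cast
      have hb : ((n : ℝ) + 1) ^ (a + 1) + (a + 1) * ((n : ℝ) + 1) ^ a ≤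
          ((n : ℝ) + 1 + 1) ^ (a + 1) := by
        have hn : (0 : ℝ) < (n : ℝ) + 1 := by positivity
        have h1 := one_add_mul_self_le_rpow_one_add (s := 1 / ((n : ℝ) + 1))
          (by have : (0 : ℝ) ≤ 1 / ((n : ℝ) + 1) := by positivity
              linarith) (p := a + 1) (by linarith)
        have h2 : ((n : ℝ) + 1 + 1) ^ (a + 1) =
            ((n : ℝ) + 1) ^ (a + 1) * (1 + 1 / ((n : ℝ) + 1)) ^ (a + 1) := by
          rw [← Real.mul_rpow hn.le (by positivity)]
          congr 1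
          field_simp
        have h3 : ((n : ℝ) + 1) ^ (a + 1) = ((n : ℝ) + 1) ^ a * ((n : ℝ) + 1) := by
          rw [Real.rpow_add hn, Real.rpow_one]
        rw [h2]
        have h4 : ((n : ℝ) + 1) ^ (a + 1) + (a + 1) * ((n : ℝ) + 1) ^ a =
            ((n : ℝ) + 1) ^ (a + 1) * (1 + (a + 1) * (1 / ((n : ℝ) + 1))) := by
          rw [h3]
          field_simp
        rw [h4]
        exact mul_le_mul_of_nonneg_left h1 (by positivity)
      have ha1 : (0 : ℝ) < a + 1 := by linarith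
      rw [le_div_iff₀ ha1] at ih ⊢
      nlinarith
  cases k with
  | zero =>
    simp
    positivity
  | succ n =>
    rw [Finset.sum_Icc_succ_top (by omega)]
    have := h n
    push_cast at this ⊢
    linarith

private lemma MeanD_inner (T : ℝ) (hT : 1 ≤ T) (k : ℕ) (hk : 1 ≤ k) :
    ∑ l ∈ Finset.Icc 1 k, MeanD_term T k l ≤ 1 / k + 1 / T := by
  have hk0 : (0 : ℝ) < k := by exact_mod_cast hk
  have h1 : ∀ l ∈ Finset.Icc 1 k, MeanD_term T k l = (k : ℝ) ^ (-(T + 1 / 2)) *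
      (l : ℝ) ^ (T - 1 / 2) := by
    intro l hl
    rw [Finset.mem_Icc] at hl
    have hl0 : (0 : ℝ) < l := by exact_mod_cast hl.1
    have hle : Real.log l ≤ Real.log k := Real.log_le_log hl0 (by exact_mod_cast hl.2)
    unfold MeanD_term
    rw [abs_of_nonneg (by linarith), ← Real.exp_add, Real.rpow_def_of_pos hk0,
      Real.rpow_def_of_pos hl0, ← Real.exp_add]
    congr 1
    ring
  rw [Finset.sum_congr rfl h1, ← Finset.mul_sum]
  have h2 := MeanD_sum_rpow (T - 1 / 2) (by linarith) k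
  have h3 : (0 : ℝ) ≤ (k : ℝ) ^ (-(T + 1 / 2)) := by positivity
  refine (mul_le_mul_of_nonneg_left h2 h3).trans ?_
  have h4 : (k : ℝ) ^ (-(T + 1 / 2)) * (k : ℝ) ^ (T - 1 / 2) = 1 / k := by
    rw [← Real.rpow_add hk0]
    have : -(T + 1 / 2) + (T - 1 / 2) = -1 := by ring
    rw [this, Real.rpow_neg_one, one_div]
  have h5 : (k : ℝ) ^ (-(T + 1 / 2)) * (k : ℝ) ^ (T - 1 / 2 + 1) = 1 := by
    rw [← Real.rpow_add hk0]
    have : -(T + 1 / 2) + (T - 1 / 2 + 1) = 0 := by ring
    rw [this, Real.rpow_zero]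
  rw [mul_add, h4, mul_div_assoc', h5]
  gcongr
  linarith

private lemma MeanD_symm (T : ℝ) (k l : ℕ) : MeanD_term T k l = MeanD_term T l k := by
  unfold MeanD_term
  rw [abs_sub_comm, add_comm]

private lemma MeanD_double (T : ℝ) (hT : 1 ≤ T) (K : ℕ) :
    ∑ k ∈ Finset.Icc 1 K, ∑ l ∈ Finset.Icc 1 K, MeanD_term T k l ≤
      2 * ∑ k ∈ Finset.Icc 1 K, (1 / (k : ℝ) + 1 / T) := by
  have hpos : ∀ k l, 0 ≤ MeanD_term T k l := fun k l => by
    unfold MeanD_term
    positivity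
  have h1 : ∀ k ∈ Finset.Icc 1 K, ∀ l ∈ Finset.Icc 1 K, MeanD_term T k l ≤
      (if l ≤ k then MeanD_term T k l else 0) + (if k ≤ l then MeanD_term T l k else 0) := by
    intro k _ l _
    rcases le_total l k with h | h
    · rw [if_pos h]
      have : 0 ≤ (if k ≤ l then MeanD_term T l k else 0) := by
        split_ifs
        · exact hpos _ _
        · exact le_rfl
      linarith
    · rw [if_pos h, MeanD_symm T k l]
      have : 0 ≤ (if l ≤ k then MeanD_term T l k else 0) := by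
        split_ifs
        · exact hpos _ _
        · exact le_rfl
      linarith
  have h2 : ∀ k ∈ Finset.Icc 1 K, ∑ l ∈ Finset.Icc 1 K,
      (if l ≤ k then MeanD_term T k l else 0) ≤ 1 / (k : ℝ) + 1 / T := by
    intro k hk
    rw [Finset.mem_Icc] at hk
    rw [← Finset.sum_filter]
    have : (Finset.Icc 1 K).filter (fun l => l ≤ k) = Finset.Icc 1 k := by
      ext l
      simp only [Finset.mem_filter, Finset.mem_Icc]
      omega
    rw [this]
    exact MeanD_inner T hT k hk.1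
  calc ∑ k ∈ Finset.Icc 1 K, ∑ l ∈ Finset.Icc 1 K, MeanD_term T k l
      ≤ ∑ k ∈ Finset.Icc 1 K, ∑ l ∈ Finset.Icc 1 K,
        ((if l ≤ k then MeanD_term T k l else 0) + (if k ≤ l then MeanD_term T l k else 0)) :=
        Finset.sum_le_sum fun k hk => Finset.sum_le_sum fun l hl => h1 k hk l hl
    _ = ∑ k ∈ Finset.Icc 1 K, ∑ l ∈ Finset.Icc 1 K, (if l ≤ k then MeanD_term T k l else 0) +
        ∑ k ∈ Finset.Icc 1 K, ∑ l ∈ Finset.Icc 1 K,
          (if k ≤ l then MeanD_term T l k else 0) := by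
        simp_rw [Finset.sum_add_distrib]
    _ = ∑ k ∈ Finset.Icc 1 K, ∑ l ∈ Finset.Icc 1 K, (if l ≤ k then MeanD_term T k l else 0) +
        ∑ l ∈ Finset.Icc 1 K, ∑ k ∈ Finset.Icc 1 K,
          (if k ≤ l then MeanD_term T l k else 0) := by
        congr 1
        exact Finset.sum_comm
    _ ≤ ∑ k ∈ Finset.Icc 1 K, (1 / (k : ℝ) + 1 / T) + ∑ l ∈ Finset.Icc 1 K,
        (1 / (l : ℝ) + 1 / T) :=
        add_le_add (Finset.sum_le_sum h2) (Finset.sum_le_sum h2)
    _ = 2 * ∑ k ∈ Finset.Icc 1 K, (1 / (k : ℝ) + 1 / T) := by ring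

/-- Weighted mean square of the Dirichlet polynomial. -/
theorem mean_Dir (T : ℝ) (hT : 1 ≤ T) (K : ℕ) (hK : 1 ≤ K) :
    ∫ t : ℝ, ‖Dir K t‖ ^ 2 * (1 / (1 + (t / T) ^ 2))
      ≤ 2 * Real.pi * (T * (1 + Real.log K) + K) := by
  have hT0 : 0 < T := by linarith
  rw [MeanD_integral T hT0 K]
  have h1 := MeanD_double T hT K
  have h2 : ∑ k ∈ Finset.Icc 1 K, (1 / (k : ℝ)) ≤ 1 + Real.log K := by
    have := harmonic_le_one_add_log K
    rw [harmonic_eq_sum_Icc] at this
    push_cast at this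
    simpa [one_div] using this
  have h3 : ∑ k ∈ Finset.Icc 1 K, (1 / (k : ℝ) + 1 / T) ≤ 1 + Real.log K + K / T := by
    rw [Finset.sum_add_distrib]
    simp only [Finset.sum_const, Nat.card_Icc, add_tsub_cancel_right, nsmul_eq_mul]
    have : (K : ℝ) * (1 / T) = K / T := by ring
    rw [this]
    linarith
  have hpi := Real.pi_pos
  calc Real.pi * T * ∑ k ∈ Finset.Icc 1 K, ∑ l ∈ Finset.Icc 1 K, MeanD_term T k l
      ≤ Real.pi * T * (2 * (1 + Real.log K + K / T)) := by
        refine mul_le_mul_of_nonneg_left (h1.trans ?_) (by positivity)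
        linarith
    _ = 2 * Real.pi * (T * (1 + Real.log K) + K) := by
        field_simp

end Pool.Agent.H95.GC
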