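import Pool.Agent.H95.GC.CoreA
import Pool.Agent.H95.GC.MeanD

set_option autoImplicit false

namespace Pool.Agent.H95.GC

open Set MeasureTheory

/-- the weighted, truncated window function -/
noncomputable def G (δ n ν : ℝ) (u : ℝ) : ℂ :=
  (Ioc n (ν + 1)).indicator (fun u : ℝ => (g δ u : ℂ) * Complex.exp (-(1 / 2) * (u : ℂ))) u

/-- its Fourier transform -/
noncomputable def F (δ n ν : ℝ) (t : ℝ) : ℂ :=
  ∫ u : ℝ, G δ n ν u * Complex.exp (-(t * u * Complex.I))

theorem measurable_G (δ n ν : ℝ) : Measurable (G δ n ν) := by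
  apply Measurable.indicator _ measurableSet_Ioc
  exact (Complex.measurable_ofReal.comp (measurable_g δ)).mul (by fun_prop)

theorem norm_G_le (δ n ν : ℝ) (hδ0 : 0 < δ) (hδ1 : δ ≤ 1 / 2) (hn : 0 ≤ n) (u : ℝ) :
    ‖G δ n ν u‖ ≤ Real.exp (ν + 1) + 1 := by
  unfold G
  by_cases hu : u ∈ Ioc n (ν + 1)
  · rw [indicator_of_mem hu, norm_mul, Complex.norm_real, Complex.norm_exp, Real.norm_eq_abs]
    have h1 := abs_g_le δ u hδ0 (by linarith)
    have h2 : Real.exp u ≤ Real.exp (ν + 1) := Real.exp_le_exp.mpr hu.2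
    have h3 : Real.exp ((-(1 / 2) * (u : ℂ)).re) ≤ 1 := by
      rw [Real.exp_le_one_iff]
      rw [Complex.re_mul_ofReal]
      norm_num
      linarith [hu.1]
    calc |g δ u| * Real.exp ((-(1 / 2) * (u : ℂ)).re) ≤ (Real.exp (ν + 1) + 1) * 1 := by
          apply mul_le_mul (by linarith) h3 (Real.exp_pos _).le (by positivity)
      _ = _ := by ring
  · rw [indicator_of_notMem hu]; simp; positivity

theorem G_eq_zero (δ n ν : ℝ) {u : ℝ} (hu : u ∉ Icc n (ν + 1)) : G δ n ν u = 0 := by
  unfold G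
  rw [indicator_of_notMem]
  exact fun h => hu (Ioc_subset_Icc_self h)

theorem integrable_G (δ n ν : ℝ) (hδ0 : 0 < δ) (hδ1 : δ ≤ 1 / 2) (hn : 0 ≤ n) :
    Integrable (G δ n ν) :=
  integrable_of_bdd _ (measurable_G δ n ν) n (ν + 1) (Real.exp (ν + 1) + 1)
    (fun u _ => norm_G_le δ n ν hδ0 hδ1 hn u) (fun _ hu => G_eq_zero δ n ν hu)

theorem norm_sq_G (δ n ν : ℝ) (u : ℝ) :
    ‖G δ n ν u‖ ^ 2 = (Ioc n (ν + 1)).indicator (fun u : ℝ => g δ u ^ 2 * Real.exp (-u)) u := by
  unfold G
  by_cases hu : u ∈ Ioc n (ν + 1)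
  · rw [indicator_of_mem hu, indicator_of_mem hu, norm_mul, Complex.norm_real, Complex.norm_exp,
      mul_pow, Real.norm_eq_abs, sq_abs, ← Real.exp_nat_mul]
    congr 2
    rw [Complex.re_mul_ofReal]
    norm_num
    ring
  · rw [indicator_of_notMem hu, indicator_of_notMem hu]; simp

theorem integrable_norm_sq_G (δ n ν : ℝ) (hδ0 : 0 < δ) (hδ1 : δ ≤ 1 / 2) (hn : 0 ≤ n) :
    Integrable (fun u => ‖G δ n ν u‖ ^ 2) := by
  have h1 : Integrable (fun u => ((‖G δ n ν u‖ ^ 2 : ℝ) : ℂ)) := by
    apply integrable_of_bdd _ _ n (ν + 1) ((Real.exp (ν + 1) + 1) ^ 2)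
    · intro u _
      rw [Complex.norm_real, Real.norm_eq_abs, abs_of_nonneg (by positivity)]
      exact pow_le_pow_left₀ (norm_nonneg _) (norm_G_le δ n ν hδ0 hδ1 hn u) 2
    · intro u hu
      rw [G_eq_zero δ n ν hu]; simp
    · exact Complex.measurable_ofReal.comp ((measurable_G δ n ν).norm.pow_const 2)
  exact h1.re

theorem integral_norm_sq_G (δ n ν : ℝ) (hν : n ≤ ν) :
    ∫ u, ‖G δ n ν u‖ ^ 2 = ∫ u in n..(ν + 1), g δ u ^ 2 * Real.exp (-u) := by
  simp_rw [norm_sq_G]
  rw [integral_indicator measurableSet_Ioc, intervalIntegral.integral_of_le (by linarith)]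

theorem norm_F_le (δ n ν : ℝ) (t : ℝ) : ‖F δ n ν t‖ ≤ ∫ u, ‖G δ n ν u‖ := by
  unfold F
  refine (norm_integral_le_integral_norm _).trans (le_of_eq ?_)
  congr 1
  funext u
  rw [norm_mul, Complex.norm_exp]
  simp

theorem continuous_F (δ n ν : ℝ) (hδ0 : 0 < δ) (hδ1 : δ ≤ 1 / 2) (hn : 0 ≤ n) :
    Continuous (F δ n ν) := by
  unfold F
  apply continuous_of_dominated (bound := fun u => ‖G δ n ν u‖)
  · intro t
    exact ((measurable_G δ n ν).mul (by fun_prop)).aestronglyMeasurable
  · intro t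
    refine Filter.Eventually.of_forall fun u => le_of_eq ?_
    rw [norm_mul, Complex.norm_exp]
    simp
  · exact (integrable_G δ n ν hδ0 hδ1 hn).norm
  · refine Filter.Eventually.of_forall fun u => ?_
    fun_prop

theorem P2_eq (δ n ν b γ CU : ℝ) (hδ0 : 0 < δ) (hδ1 : δ ≤ 1 / 2) (hn : 0 ≤ n) (hν : n ≤ ν)
    (U : ℝ → ℂ) (hUc : Continuous U) (hUb : ∀ t : ℝ, ‖U t‖ ≤ CU * (1 / (1 + t ^ 2)))
    (hU : ∀ v : ℝ, ((Real.exp (-(b * v)) * (stp (v - ν) - stp (v - n + 1)) : ℝ) : ℂ)
        = ∫ t : ℝ, U t * Complex.exp (t * v * Complex.I)) :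
    ∫ u in n..(ν + 1), (g δ u : ℂ) * Complex.exp (-(1 / 2 + b + γ * Complex.I) * u)
        * Z (1 / 2 + b + γ * Complex.I) (ν - u)
      = ∫ t : ℝ, U t * (Dir ⌊3 * Real.exp (ν - n)⌋₊ (γ - t) * F δ n ν (γ - t)) := by
  set K := ⌊3 * Real.exp (ν - n)⌋₊ with hK
  set s : ℂ := 1 / 2 + b + γ * Complex.I with hs
  have hUint : Integrable U := by
    have h1 : Integrable (fun t : ℝ => CU * (1 / (1 + t ^ 2))) := by
      have := (integrable_inv_one_add_sq).const_mul CU
      simpa [one_div] using this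
    exact h1.mono' hUc.aestronglyMeasurable (Filter.Eventually.of_forall hUb)
  -- pointwise identity
  have hpt : ∀ u ∈ Ioc n (ν + 1), (g δ u : ℂ) * Complex.exp (-s * u) * Z s (ν - u)
      = ∫ t : ℝ, U t * (Dir K (γ - t) * (G δ n ν u
        * Complex.exp (-(((γ - t : ℝ) : ℂ) * u * Complex.I)))) := by
    intro u hu
    -- Z over the range K
    have hZ : Z s (ν - u) = ∑ k ∈ Finset.Icc 1 K, (k : ℂ) ^ (-s)
        * (stp (Real.log k - (ν - u)) : ℂ) := by
      unfold Z
      apply Finset.sum_subset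
      · intro k hk
        rw [Finset.mem_Icc] at hk ⊢
        refine ⟨hk.1, hk.2.trans ?_⟩
        apply Nat.floor_mono
        have : Real.exp (ν - u) ≤ Real.exp (ν - n) := Real.exp_le_exp.mpr (by linarith [hu.1])
        linarith
      · intro k hk hk'
        rw [Finset.mem_Icc] at hk hk'
        have h1 : 3 * Real.exp (ν - u) < k := by
          by_contra hcon
          push Not at hcon
          exact hk' ⟨hk.1, Nat.le_floor hcon⟩
        have h2 : stp (Real.log k - (ν - u)) = 0 := by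
          apply stp_of_one_le
          have h3 : Real.exp (1 + (ν - u)) ≤ k := by
            rw [Real.exp_add]
            have := Real.exp_one_lt_d9
            have h4 : Real.exp 1 * Real.exp (ν - u) ≤ 3 * Real.exp (ν - u) := by
              apply mul_le_mul_of_nonneg_right _ (Real.exp_pos _).le
              linarith
            linarith
          have h5 : 1 + (ν - u) ≤ Real.log k := by
            rw [Real.le_log_iff_exp_le (by
              have : (0:ℝ) < Real.exp (1 + (ν - u)) := Real.exp_pos _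
              linarith)]
            exact h3
          linarith
        rw [h2]; simp
    have hterm : ∀ k ∈ Finset.Icc 1 K, (g δ u : ℂ) * Complex.exp (-s * u)
        * ((k : ℂ) ^ (-s) * (stp (Real.log k - (ν - u)) : ℂ))
        = ∫ t : ℝ, (g δ u : ℂ) * Complex.exp (-(1 / 2 + γ * Complex.I) * ((u + Real.log k : ℝ) : ℂ))
          * (U t * Complex.exp (t * ((u + Real.log k : ℝ) : ℂ) * Complex.I)) := by
      intro k hk
      rw [Finset.mem_Icc] at hk
      have hlog : 0 ≤ Real.log k := Real.log_natCast_nonneg k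
      rw [integral_const_mul, ← hU (u + Real.log k), cpow_neg_eq k hk.1]
      have h1 : stp (u + Real.log k - n + 1) = 0 := stp_of_one_le (by linarith [hu.1])
      rw [h1, sub_zero]
      generalize Real.log k = l
      push_cast
      rw [show l - (ν - u) = u + l - ν by ring]
      have h2 : Complex.exp (-s * u) * Complex.exp (-s * (l : ℂ))
          = Complex.exp (-(1 / 2 + γ * Complex.I) * (u + (l : ℂ)))
            * Complex.exp (-(b * (u + (l : ℂ)))) := by
        rw [← Complex.exp_add, ← Complex.exp_add]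
        congr 1
        rw [hs]; ring
      calc (g δ u : ℂ) * Complex.exp (-s * u) * (Complex.exp (-s * (l : ℂ))
            * (stp (u + l - ν) : ℂ))
          = (g δ u : ℂ) * (Complex.exp (-s * u) * Complex.exp (-s * (l : ℂ)))
            * (stp (u + l - ν) : ℂ) := by ring
        _ = _ := by rw [h2]; ring
    have hint : ∀ k ∈ Finset.Icc 1 K, Integrable (fun t : ℝ => (g δ u : ℂ)
          * Complex.exp (-(1 / 2 + γ * Complex.I) * ((u + Real.log k : ℝ) : ℂ))
          * (U t * Complex.exp (t * ((u + Real.log k : ℝ) : ℂ) * Complex.I))) := by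
      intro k _
      generalize Real.log k = l
      apply Integrable.const_mul
      apply Integrable.mono' hUint.norm
      · exact (hUc.mul (by fun_prop)).aestronglyMeasurable
      · refine Filter.Eventually.of_forall fun t => le_of_eq ?_
        rw [norm_mul, Complex.norm_exp]
        simp
    rw [hZ, Finset.mul_sum, Finset.sum_congr rfl hterm, ← integral_finsetSum _ hint]
    congr 1
    funext t
    unfold Dir G
    rw [indicator_of_mem hu, Finset.sum_mul, Finset.mul_sum]
    apply Finset.sum_congr rfl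
    intro k _
    generalize Real.log k = l
    have h3 : Complex.exp (-(1 / 2 + γ * Complex.I) * ((u + l : ℝ) : ℂ))
        * Complex.exp (t * ((u + l : ℝ) : ℂ) * Complex.I)
        = Complex.exp (-((1 / 2 + ((γ - t : ℝ) : ℂ) * Complex.I) * (l : ℂ)))
          * (Complex.exp (-(1 / 2) * (u : ℂ))
            * Complex.exp (-(((γ - t : ℝ) : ℂ) * u * Complex.I))) := by
      rw [← Complex.exp_add, ← Complex.exp_add, ← Complex.exp_add]
      congr 1
      push_cast
      ring
    calc (g δ u : ℂ) * Complex.exp (-(1 / 2 + γ * Complex.I) * ((u + l : ℝ) : ℂ))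
          * (U t * Complex.exp (t * ((u + l : ℝ) : ℂ) * Complex.I))
        = (g δ u : ℂ) * U t
          * (Complex.exp (-(1 / 2 + γ * Complex.I) * ((u + l : ℝ) : ℂ))
          * Complex.exp (t * ((u + l : ℝ) : ℂ) * Complex.I)) := by ring
      _ = _ := by rw [h3]; ring
  rw [intervalIntegral.integral_of_le (by linarith), setIntegral_congr_fun measurableSet_Ioc hpt]
  -- extend to all of ℝ
  have hext : ∫ u in Ioc n (ν + 1), (∫ t : ℝ, U t * (Dir K (γ - t) * (G δ n ν u
        * Complex.exp (-(((γ - t : ℝ) : ℂ) * u * Complex.I)))))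
      = ∫ u : ℝ, (∫ t : ℝ, U t * (Dir K (γ - t) * (G δ n ν u
        * Complex.exp (-(((γ - t : ℝ) : ℂ) * u * Complex.I))))) := by
    apply setIntegral_eq_integral_of_forall_compl_eq_zero
    intro u hu
    have : G δ n ν u = 0 := by unfold G; rw [indicator_of_notMem hu]
    simp [this]
  rw [hext, integral_integral_swap]
  · congr 1
    funext t
    unfold F
    rw [integral_const_mul, integral_const_mul]
  · -- integrability on the product
    have hmul : Integrable (fun p : ℝ × ℝ => G δ n ν p.1 * U p.2) (volume.prod volume) :=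
      (integrable_G δ n ν hδ0 hδ1 hn).mul_prod hUint
    have hcont : Continuous (fun p : ℝ × ℝ => Dir K (γ - p.2)
        * Complex.exp (-(((γ - p.2 : ℝ) : ℂ) * p.1 * Complex.I))) := by
      apply Continuous.mul
      · exact (continuous_Dir K).comp (by fun_prop)
      · fun_prop
    have h5 : Integrable (fun p : ℝ × ℝ => (Dir K (γ - p.2)
        * Complex.exp (-(((γ - p.2 : ℝ) : ℂ) * p.1 * Complex.I))) * (G δ n ν p.1 * U p.2))
        (volume.prod volume) := by
      apply Integrable.bdd_mul (c := (K : ℝ)) hmul hcont.aestronglyMeasurable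
      refine Filter.Eventually.of_forall fun p => ?_
      rw [norm_mul, Complex.norm_exp]
      have h6 := norm_Dir_le K (γ - p.2)
      have h7 : (-(((γ - p.2 : ℝ) : ℂ) * p.1 * Complex.I)).re = 0 := by
        simp
      rw [h7, Real.exp_zero, mul_one]
      exact h6
    refine h5.congr (Filter.Eventually.of_forall fun p => ?_)
    simp only [Function.uncurry]
    ring

theorem P2_bound (δ n ν b γ CU : ℝ) (hδ0 : 0 < δ) (hδ1 : δ ≤ 1 / 2) (hn : 0 ≤ n) (hν : n ≤ ν)
    (U : ℝ → ℂ) (hUc : Continuous U) (hUb : ∀ t : ℝ, ‖U t‖ ≤ CU * (1 / (1 + t ^ 2)))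
    (hU : ∀ v : ℝ, ((Real.exp (-(b * v)) * (stp (v - ν) - stp (v - n + 1)) : ℝ) : ℂ)
        = ∫ t : ℝ, U t * Complex.exp (t * v * Complex.I)) :
    ‖∫ u in n..(ν + 1), (g δ u : ℂ) * Complex.exp (-(1 / 2 + b + γ * Complex.I) * u)
        * Z (1 / 2 + b + γ * Complex.I) (ν - u)‖
      ≤ CU * ∫ t : ℝ, (1 / (1 + (γ - t) ^ 2)) * (‖Dir ⌊3 * Real.exp (ν - n)⌋₊ t‖
          * ‖F δ n ν t‖) := by
  rw [P2_eq δ n ν b γ CU hδ0 hδ1 hn hν U hUc hUb hU]
  set K := ⌊3 * Real.exp (ν - n)⌋₊ with hK
  rw [← integral_sub_left_eq_self _ volume γ]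
  refine (norm_integral_le_integral_norm _).trans ?_
  rw [← integral_const_mul]
  have hcw : Continuous (fun t : ℝ => (1 / (1 + (γ - t) ^ 2) : ℝ)) := by
    apply Continuous.div continuous_const (by fun_prop)
    intro t; positivity
  have hwint : Integrable (fun t : ℝ => (1 / (1 + (γ - t) ^ 2) : ℝ)) := by
    have h1 : Integrable (fun t : ℝ => (1 / (1 + t ^ 2) : ℝ)) := by
      simpa [one_div] using integrable_inv_one_add_sq
    exact h1.comp_sub_left γ
  apply integral_mono_of_nonneg
  · exact Filter.Eventually.of_forall fun t => norm_nonneg _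
  · apply Integrable.const_mul
    have h2 : Integrable (fun t : ℝ => (‖Dir K t‖ * ‖F δ n ν t‖) * (1 / (1 + (γ - t) ^ 2) : ℝ)) := by
      apply Integrable.bdd_mul (c := (K : ℝ) * ∫ u, ‖G δ n ν u‖) hwint
      · exact (((continuous_Dir K).norm).mul
          ((continuous_F δ n ν hδ0 hδ1 hn).norm)).aestronglyMeasurable
      · refine Filter.Eventually.of_forall fun t => ?_
        rw [Real.norm_eq_abs, abs_of_nonneg (by positivity)]
        exact mul_le_mul (norm_Dir_le K t) (norm_F_le δ n ν t) (norm_nonneg _) (Nat.cast_nonneg _)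
    refine h2.congr (Filter.Eventually.of_forall fun t => ?_)
    simp only []
    ring
  · refine Filter.Eventually.of_forall fun t => ?_
    simp only []
    rw [norm_mul, norm_mul, sub_sub_cancel]
    calc ‖U (γ - t)‖ * (‖Dir K t‖ * ‖F δ n ν t‖)
        ≤ (CU * (1 / (1 + (γ - t) ^ 2))) * (‖Dir K t‖ * ‖F δ n ν t‖) := by
          apply mul_le_mul_of_nonneg_right (hUb _) (by positivity)
      _ = _ := by ring

end Pool.Agent.H95.GC
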