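import Pool.Agent.H95.GC.Lorentz

set_option autoImplicit false

namespace Pool.Agent.H95.GC

open Set MeasureTheory

private theorem meanF_integrable (T : ℝ) (hT : 0 < T) :
    Integrable (fun x : ℝ => Real.exp (-(T * |x|))) := by
  have i1 : IntegrableOn (fun x : ℝ => Real.exp (-(T * |x|))) (Iic 0) := by
    refine (integrableOn_congr_fun (g := fun x : ℝ => Real.exp (T * x))
      (fun v hv => ?_) measurableSet_Iic).2 (integrableOn_exp_mul_Iic (by positivity) 0)
    simp only
    rw [abs_of_nonpos hv]; congr 1; ring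
  have i2 : IntegrableOn (fun x : ℝ => Real.exp (-(T * |x|))) (Ioi 0) := by
    refine (integrableOn_congr_fun (g := fun x : ℝ => Real.exp ((-T) * x))
      (fun v hv => ?_) measurableSet_Ioi).2 (integrableOn_exp_mul_Ioi (by linarith) 0)
    simp only
    rw [abs_of_pos hv]; congr 1; ring
  rw [← integrableOn_univ, ← Iic_union_Ioi (a := (0 : ℝ))]
  exact i1.union i2

private theorem meanF_integral (T : ℝ) (hT : 0 < T) :
    ∫ x : ℝ, Real.pi * T * Real.exp (-(T * |x|)) = 2 * Real.pi := by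
  rw [integral_const_mul, integral_comp_abs (f := fun x => Real.exp (-(T * x)))]
  have : ∫ x in Ioi (0 : ℝ), Real.exp (-(T * x)) = 1 / T := by
    have h := integral_exp_mul_Ioi (a := -T) (by linarith) 0
    simp only [neg_mul] at h
    rw [h]
    simp
  rw [this]
  field_simp

/-- Weighted form of the Plancherel inequality. -/
theorem mean_F (T : ℝ) (hT : 0 < T) (G : ℝ → ℂ) (hG : Integrable G)
    (hG2 : Integrable (fun u => ‖G u‖ ^ 2)) :
    ∫ t : ℝ, ‖∫ u : ℝ, G u * Complex.exp (-(t * u * Complex.I))‖ ^ 2 * (1 / (1 + (t / T) ^ 2))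
      ≤ 2 * Real.pi * ∫ u : ℝ, ‖G u‖ ^ 2 := by
  have hpi := Real.pi_pos
  set k : ℝ → ℝ := fun x => Real.pi * T * Real.exp (-(T * |x|)) with hk
  have hkint : Integrable k := (meanF_integrable T hT).const_mul _
  have hkpos : ∀ x, 0 ≤ k x := fun x => by rw [hk]; positivity
  have hkeven : ∀ x, k (-x) = k x := fun x => by rw [hk]; simp
  have hk2pi : ∫ x, k x = 2 * Real.pi := meanF_integral T hT
  set w : ℝ → ℝ := fun t => 1 / (1 + (t / T) ^ 2) with hw
  have hwint : Integrable w := integrable_lorentz T hT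
  have hwint' : Integrable (fun t => (w t : ℂ)) := hwint.ofReal
  set H : ℝ → ℝ × ℝ → ℂ := fun t p => (G p.1 * (starRingEnd ℂ) (G p.2)) *
    (Complex.exp (-(((p.1 - p.2 : ℝ) : ℂ) * t * Complex.I)) * (w t : ℂ)) with hH
  have hexpnorm : ∀ x t : ℝ, ‖Complex.exp (-((x : ℂ) * t * Complex.I))‖ = 1 := by
    intro x t
    rw [Complex.norm_exp]; simp
  -- pointwise identity
  have h1 : ∀ t : ℝ, ((‖∫ u : ℝ, G u * Complex.exp (-(t * u * Complex.I))‖ ^ 2 * w t : ℝ) : ℂ)
      = ∫ p : ℝ × ℝ, H t p := by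
    intro t
    have e1 : (starRingEnd ℂ) (∫ u : ℝ, G u * Complex.exp (-(t * u * Complex.I)))
        = ∫ v : ℝ, (starRingEnd ℂ) (G v) * Complex.exp (t * v * Complex.I) := by
      rw [← integral_conj]
      congr 1
      funext v
      rw [map_mul, ← Complex.exp_conj]
      congr 2
      simp
    have e2 : ((‖∫ u : ℝ, G u * Complex.exp (-(t * u * Complex.I))‖ ^ 2 : ℝ) : ℂ)
        = (∫ u : ℝ, G u * Complex.exp (-(t * u * Complex.I))) *
          ∫ v : ℝ, (starRingEnd ℂ) (G v) * Complex.exp (t * v * Complex.I) := by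
      rw [← e1, Complex.mul_conj, Complex.normSq_eq_norm_sq]
    rw [Complex.ofReal_mul, e2, ← integral_prod_mul, ← integral_mul_const]
    congr 1
    funext p
    simp only [hH]
    have e3 : Complex.exp (-(((p.1 - p.2 : ℝ) : ℂ) * t * Complex.I))
        = Complex.exp (-(t * p.1 * Complex.I)) * Complex.exp (t * p.2 * Complex.I) := by
      rw [← Complex.exp_add]
      congr 1
      push_cast; ring
    rw [e3]
    ring
  -- integrability on the product
  have hGG : Integrable (fun p : ℝ × ℝ => G p.1 * (starRingEnd ℂ) (G p.2)) := by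
    have hGc : Integrable (fun v => (starRingEnd ℂ) (G v)) := by
      have := (Complex.conjLIE.integrable_comp_iff (φ := G) (μ := volume)).2 hG
      exact this
    exact hG.mul_prod hGc
  have hHint : Integrable (Function.uncurry H) (volume.prod volume) := by
    have h2 : Integrable (fun q : ℝ × (ℝ × ℝ) => (w q.1 : ℂ) *
        (G q.2.1 * (starRingEnd ℂ) (G q.2.2))) (volume.prod volume) := hwint'.mul_prod hGG
    have h3 := h2.bdd_mul (c := 1) (f := fun q : ℝ × (ℝ × ℝ) =>
      Complex.exp (-(((q.2.1 - q.2.2 : ℝ) : ℂ) * q.1 * Complex.I)))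
      (by
        apply Continuous.aestronglyMeasurable
        fun_prop)
      (Filter.Eventually.of_forall fun q => (hexpnorm _ _).le)
    refine h3.congr (Filter.Eventually.of_forall fun q => ?_)
    simp only [hH, Function.uncurry]
    ring
  have h4 : ((∫ t : ℝ, ‖∫ u : ℝ, G u * Complex.exp (-(t * u * Complex.I))‖ ^ 2 * w t : ℝ) : ℂ)
      = ∫ p : ℝ × ℝ, (G p.1 * (starRingEnd ℂ) (G p.2)) * (k (p.1 - p.2) : ℂ) := by
    refine (integral_ofReal (𝕜 := ℂ) (μ := volume) (f := fun t : ℝ =>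
      ‖∫ u : ℝ, G u * Complex.exp (-(t * u * Complex.I))‖ ^ 2 * w t)).symm.trans ?_
    have : ∀ t : ℝ, ((‖∫ u : ℝ, G u * Complex.exp (-(t * u * Complex.I))‖ ^ 2 * w t : ℝ) : ℂ)
      = ∫ p : ℝ × ℝ, H t p := h1
    refine (integral_congr_ae (Filter.Eventually.of_forall this)).trans ?_
    rw [integral_integral_swap hHint]
    congr 1
    funext p
    simp only [hH]
    rw [integral_const_mul, lorentz T hT (p.1 - p.2)]
  -- the bound
  have I2 : Integrable (fun p : ℝ × ℝ => ‖G p.2‖ ^ 2 * k (p.1 - p.2)) :=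
    hG2.convolution_integrand (ContinuousLinearMap.mul ℝ ℝ) hkint
  have I1 : Integrable (fun p : ℝ × ℝ => ‖G p.1‖ ^ 2 * k (p.1 - p.2)) := by
    refine I2.swap.congr (Filter.Eventually.of_forall fun p => ?_)
    simp only [Function.comp, Prod.swap]
    rw [← hkeven (p.2 - p.1)]
    congr 2
    ring
  have v2 : ∫ p : ℝ × ℝ, ‖G p.2‖ ^ 2 * k (p.1 - p.2) = 2 * Real.pi * ∫ u : ℝ, ‖G u‖ ^ 2 := by
    have := integral_prod_symm (μ := (volume : Measure ℝ)) (ν := (volume : Measure ℝ)) _ I2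
    rw [Measure.volume_eq_prod, this]
    have h5 : ∀ y : ℝ, ∫ x : ℝ, ‖G y‖ ^ 2 * k (x - y) = 2 * Real.pi * ‖G y‖ ^ 2 := by
      intro y
      rw [integral_const_mul, integral_sub_right_eq_self (μ := volume) k y, hk2pi]
      ring
    simp only [h5]
    rw [integral_const_mul]
  have v1 : ∫ p : ℝ × ℝ, ‖G p.1‖ ^ 2 * k (p.1 - p.2) = 2 * Real.pi * ∫ u : ℝ, ‖G u‖ ^ 2 := by
    have := integral_prod (μ := (volume : Measure ℝ)) (ν := (volume : Measure ℝ)) _ I1
    rw [Measure.volume_eq_prod, this]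
    have h5 : ∀ x : ℝ, ∫ y : ℝ, ‖G x‖ ^ 2 * k (x - y) = 2 * Real.pi * ‖G x‖ ^ 2 := by
      intro x
      rw [integral_const_mul, integral_sub_left_eq_self k volume x, hk2pi]
      ring
    simp only [h5]
    rw [integral_const_mul]
  have h6 : (∫ t : ℝ, ‖∫ u : ℝ, G u * Complex.exp (-(t * u * Complex.I))‖ ^ 2 * w t)
      ≤ ‖∫ p : ℝ × ℝ, (G p.1 * (starRingEnd ℂ) (G p.2)) * (k (p.1 - p.2) : ℂ)‖ := by
    rw [← h4, Complex.norm_real]
    exact le_abs_self _
  refine h6.trans ((norm_integral_le_integral_norm _).trans ?_)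
  calc ∫ p : ℝ × ℝ, ‖(G p.1 * (starRingEnd ℂ) (G p.2)) * (k (p.1 - p.2) : ℂ)‖
      ≤ ∫ p : ℝ × ℝ, (1 / 2 * (‖G p.1‖ ^ 2 * k (p.1 - p.2))
          + 1 / 2 * (‖G p.2‖ ^ 2 * k (p.1 - p.2))) := by
        apply integral_mono_of_nonneg (Filter.Eventually.of_forall fun p => norm_nonneg _)
          ((I1.const_mul _).add (I2.const_mul _))
        refine Filter.Eventually.of_forall fun p => ?_
        simp only [norm_mul, RCLike.norm_conj, Complex.norm_real, Real.norm_eq_abs,
          abs_of_nonneg (hkpos _)]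
        have := mul_nonneg (sq_nonneg (‖G p.1‖ - ‖G p.2‖)) (hkpos (p.1 - p.2))
        simp only [Pi.add_apply]
        nlinarith
    _ = 2 * Real.pi * ∫ u : ℝ, ‖G u‖ ^ 2 := by
        rw [integral_add (I1.const_mul _) (I2.const_mul _), integral_const_mul,
          integral_const_mul, v1, v2]
        ring

end Pool.Agent.H95.GC
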