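import Pool.Agent.H95.GC.Defs

set_option autoImplicit false

namespace Pool.Agent.H95.GC

open Set MeasureTheory
open scoped FourierTransform

/-- A compactly supported (in `[a, c]`) function which is `0` outside has integral norm at most
`A (c - a)`. -/
private lemma ups_integral_norm_le (Y : ℝ → ℂ) (a c A : ℝ) (hac : a ≤ c)
    (h0 : ∀ v, v ∉ Icc a c → Y v = 0) (hA : ∀ v, ‖Y v‖ ≤ A) (hc : Continuous Y) :
    ∫ v, ‖Y v‖ ≤ A * (c - a) := by
  have hA0 : 0 ≤ A := (norm_nonneg _).trans (hA 0)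
  have h1 : ∫ v, ‖Y v‖ = ∫ v in Icc a c, ‖Y v‖ := by
    rw [setIntegral_eq_integral_of_forall_compl_eq_zero]
    intro v hv
    rw [h0 v hv, norm_zero]
  rw [h1]
  have h2 : ∫ v in Icc a c, ‖Y v‖ ≤ ∫ _ in Icc a c, A := by
    apply setIntegral_mono_on
    · exact (hc.norm.continuousOn).integrableOn_Icc
    · exact continuousOn_const.integrableOn_Icc
    · exact measurableSet_Icc
    · intro v _
      exact hA v
  refine h2.trans ?_
  rw [setIntegral_const, Real.volume_real_Icc_of_le hac, smul_eq_mul, mul_comm]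

private lemma ups_integrable (Y : ℝ → ℂ) (a c : ℝ)
    (h0 : ∀ v, v ∉ Icc a c → Y v = 0) (hc : Continuous Y) : Integrable Y := by
  have hs : HasCompactSupport Y := HasCompactSupport.intro isCompact_Icc h0
  exact hc.integrable_of_hasCompactSupport hs

private lemma ups_norm_fourier_le (Y : ℝ → ℂ) (x : ℝ) : ‖𝓕 Y x‖ ≤ ∫ v, ‖Y v‖ := by
  rw [Real.fourier_eq]
  refine (norm_integral_le_integral_norm _).trans ?_
  simp_rw [Circle.norm_smul]
  exact le_refl _

/-- The general inversion statement. -/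
private lemma ups_general (Y Y1 Y2 : ℝ → ℂ) (a c A : ℝ) (hac : a ≤ c)
    (hd : ∀ v, HasDerivAt Y (Y1 v) v) (hd1 : ∀ v, HasDerivAt Y1 (Y2 v) v) (hc2 : Continuous Y2)
    (h0 : ∀ v, v ∉ Icc a c → Y v = 0) (h1 : ∀ v, v ∉ Icc a c → Y1 v = 0)
    (h2 : ∀ v, v ∉ Icc a c → Y2 v = 0)
    (hA : ∀ v, ‖Y v‖ ≤ A) (hA2 : ∀ v, ‖Y2 v‖ ≤ A) :
    ∃ U : ℝ → ℂ, Continuous U ∧ (∀ t : ℝ, ‖U t‖ ≤ 2 * A * (c - a) * (1 / (1 + t ^ 2))) ∧
      ∀ v : ℝ, Y v = ∫ t : ℝ, U t * Complex.exp (t * v * Complex.I) := by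
  have hc : Continuous Y := continuous_iff_continuousAt.mpr fun v => (hd v).continuousAt
  have hc1 : Continuous Y1 := continuous_iff_continuousAt.mpr fun v => (hd1 v).continuousAt
  have hi : Integrable Y := ups_integrable Y a c h0 hc
  have hi1 : Integrable Y1 := ups_integrable Y1 a c h1 hc1
  have hi2 : Integrable Y2 := ups_integrable Y2 a c h2 hc2
  have hdY : deriv Y = Y1 := funext fun v => (hd v).deriv
  have hdY1 : deriv Y1 = Y2 := funext fun v => (hd1 v).deriv
  have hF1 : ∀ x : ℝ, 𝓕 Y1 x = (2 * Real.pi * Complex.I * x) * 𝓕 Y x := by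
    intro x
    have := congrFun (Real.fourier_deriv hi (fun v => (hd v).differentiableAt) (by rwa [hdY])) x
    rw [hdY] at this
    simpa using this
  have hF2 : ∀ x : ℝ, 𝓕 Y2 x = (2 * Real.pi * Complex.I * x) * 𝓕 Y1 x := by
    intro x
    have := congrFun (Real.fourier_deriv hi1 (fun v => (hd1 v).differentiableAt) (by rwa [hdY1])) x
    rw [hdY1] at this
    simpa using this
  have hA0 : 0 ≤ A := (norm_nonneg _).trans (hA 0)
  have hN0 : ∀ x, ‖𝓕 Y x‖ ≤ A * (c - a) := fun x =>
    (ups_norm_fourier_le Y x).trans (ups_integral_norm_le Y a c A hac h0 hA hc)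
  have hN2 : ∀ x, ‖𝓕 Y2 x‖ ≤ A * (c - a) := fun x =>
    (ups_norm_fourier_le Y2 x).trans (ups_integral_norm_le Y2 a c A hac h2 hA2 hc2)
  have hB0 : 0 ≤ A * (c - a) := mul_nonneg hA0 (sub_nonneg.mpr hac)
  have hpi : 0 < Real.pi := Real.pi_pos
  -- key pointwise bound
  have key : ∀ x : ℝ, ‖𝓕 Y x‖ ≤ 2 * A * (c - a) * (1 / (1 + (2 * Real.pi * x) ^ 2)) := by
    intro x
    have e : ‖𝓕 Y2 x‖ = (2 * Real.pi * x) ^ 2 * ‖𝓕 Y x‖ := by
      rw [hF2, hF1, ← mul_assoc, norm_mul]
      congr 1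
      have : (2 * (Real.pi : ℂ) * Complex.I * (x : ℂ) * (2 * (Real.pi : ℂ) * Complex.I * (x : ℂ)))
          = ((-((2 * Real.pi * x) ^ 2) : ℝ) : ℂ) := by
        push_cast
        ring_nf
        rw [Complex.I_sq]
        ring
      rw [this, Complex.norm_real, Real.norm_eq_abs, abs_neg, abs_of_nonneg (sq_nonneg _)]
    have hpos : 0 < 1 + (2 * Real.pi * x) ^ 2 := by positivity
    rw [mul_one_div, le_div_iff₀ hpos]
    have h3 := hN2 x
    rw [e] at h3
    have h4 := hN0 x
    nlinarith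
  have hcF : Continuous (𝓕 Y) :=
    VectorFourier.fourierIntegral_continuous Real.continuous_fourierChar
      (by exact (innerSL ℝ).continuous₂) hi
  have hiF : Integrable (𝓕 Y) := by
    have hb : Integrable (fun x : ℝ => 2 * A * (c - a) * (1 + x ^ 2)⁻¹) :=
      integrable_inv_one_add_sq.const_mul _
    refine hb.mono' hcF.aestronglyMeasurable (Filter.Eventually.of_forall fun x => ?_)
    refine (key x).trans ?_
    rw [one_div]
    have : (1 + (2 * Real.pi * x) ^ 2)⁻¹ ≤ (1 + x ^ 2)⁻¹ := by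
      apply inv_anti₀ (by positivity)
      have : 1 ≤ 2 * Real.pi := by nlinarith [Real.pi_gt_three]
      have h6 : x ^ 2 ≤ (2 * Real.pi) ^ 2 * x ^ 2 := by
        have : 1 ≤ (2 * Real.pi) ^ 2 := by nlinarith
        nlinarith [sq_nonneg x]
      nlinarith
    exact mul_le_mul_of_nonneg_left this (by nlinarith)
  refine ⟨fun t => (1 / (2 * Real.pi) : ℝ) * 𝓕 Y (t / (2 * Real.pi)), ?_, ?_, ?_⟩
  · exact continuous_const.mul (hcF.comp (continuous_id.div_const _))
  · intro t
    rw [norm_mul, Complex.norm_real, Real.norm_eq_abs, abs_of_nonneg (by positivity)]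
    have h5 := key (t / (2 * Real.pi))
    have h6 : 2 * Real.pi * (t / (2 * Real.pi)) = t := by field_simp
    rw [h6] at h5
    refine le_trans ?_ h5
    have : 1 / (2 * Real.pi) ≤ 1 := by
      rw [div_le_one (by positivity)]
      nlinarith [Real.pi_gt_three]
    calc 1 / (2 * Real.pi) * ‖𝓕 Y (t / (2 * Real.pi))‖ ≤ 1 * ‖𝓕 Y (t / (2 * Real.pi))‖ :=
          mul_le_mul_of_nonneg_right this (norm_nonneg _)
      _ = _ := one_mul _
  · intro v
    have hinv := congrFun (hc.fourierInv_fourier_eq hi hiF) v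
    rw [← hinv, Real.fourierInv_eq']
    have hsub := MeasureTheory.Measure.integral_comp_div
      (fun x : ℝ => Complex.exp ((↑(2 * Real.pi * inner ℝ x v) * Complex.I)) • 𝓕 Y x) (2 * Real.pi)
    rw [abs_of_pos (by positivity)] at hsub
    have h2 : (∫ x : ℝ, Complex.exp ((↑(2 * Real.pi * inner ℝ x v) * Complex.I)) • 𝓕 Y x)
        = ((1 / (2 * Real.pi) : ℝ) : ℂ) * ∫ x : ℝ, Complex.exp ((↑(2 * Real.pi * inner ℝ (x / (2 * Real.pi)) v) * Complex.I)) • 𝓕 Y (x / (2 * Real.pi)) := by
      rw [hsub, Complex.real_smul, ← mul_assoc, ← Complex.ofReal_mul]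
      rw [one_div, inv_mul_cancel₀ (by positivity), Complex.ofReal_one, one_mul]
    rw [h2, ← integral_const_mul]
    apply integral_congr_ae
    refine Filter.Eventually.of_forall fun t => ?_
    have hin : 2 * Real.pi * inner ℝ (t / (2 * Real.pi)) v = t * v := by
      have : inner ℝ (t / (2 * Real.pi)) v = v * (t / (2 * Real.pi)) := rfl
      rw [this]
      field_simp
    simp only [smul_eq_mul]
    rw [hin, Complex.ofReal_mul]
    ring

private lemma ups_stp_contDiff : ContDiff ℝ 2 stp := by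
  unfold stp
  exact Real.smoothTransition.contDiff.comp (contDiff_const.sub contDiff_id)

private lemma ups_stp_lt {v : ℝ} (h : v ≤ 0) : stp v = 1 := by
  unfold stp
  exact Real.smoothTransition.one_of_one_le (by linarith)

private lemma ups_stp_gt {v : ℝ} (h : 1 ≤ v) : stp v = 0 := by
  unfold stp
  exact Real.smoothTransition.zero_of_nonpos (by linarith)

/-- Derivatives of `stp`. -/
private lemma ups_stp_deriv : ∃ (p q : ℝ → ℝ) (P : ℝ), 0 ≤ P ∧ (∀ v, HasDerivAt stp (p v) v) ∧
    (∀ v, HasDerivAt p (q v) v) ∧ Continuous q ∧ (∀ v, |p v| ≤ P) ∧ (∀ v, |q v| ≤ P) ∧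
    (∀ v, v ∉ Icc (0:ℝ) 1 → p v = 0) ∧ (∀ v, v ∉ Icc (0:ℝ) 1 → q v = 0) := by
  have hcd : ContDiff ℝ (1 + 1) stp := ups_stp_contDiff
  have h1 : ContDiff ℝ 1 (deriv stp) := (contDiff_succ_iff_deriv.mp hcd).2.2
  have hcd' : ContDiff ℝ (0 + 1) (deriv stp) := by simpa using h1
  have h2 : ContDiff ℝ 0 (deriv (deriv stp)) := (contDiff_succ_iff_deriv.mp hcd').2.2
  have hd0 : Differentiable ℝ stp := (contDiff_succ_iff_deriv.mp hcd).1
  have hd1 : Differentiable ℝ (deriv stp) := (contDiff_succ_iff_deriv.mp hcd').1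
  have hz : ∀ v, v ∉ Icc (0:ℝ) 1 → deriv stp v = 0 := by
    intro v hv
    rw [mem_Icc, not_and_or, not_le, not_le] at hv
    rcases hv with hv | hv
    · have : stp =ᶠ[nhds v] fun _ => (1:ℝ) := by
        filter_upwards [Iio_mem_nhds hv] with x hx
        exact ups_stp_lt (le_of_lt hx)
      rw [this.deriv_eq, deriv_const]
    · have : stp =ᶠ[nhds v] fun _ => (0:ℝ) := by
        filter_upwards [Ioi_mem_nhds hv] with x hx
        exact ups_stp_gt (le_of_lt hx)
      rw [this.deriv_eq, deriv_const]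
  have hz2 : ∀ v, v ∉ Icc (0:ℝ) 1 → deriv (deriv stp) v = 0 := by
    intro v hv
    have : deriv stp =ᶠ[nhds v] fun _ => (0:ℝ) := by
      filter_upwards [isClosed_Icc.isOpen_compl.mem_nhds hv] with x hx
      exact hz x hx
    rw [this.deriv_eq, deriv_const]
  have hs1 : HasCompactSupport (deriv stp) := HasCompactSupport.intro isCompact_Icc hz
  have hs2 : HasCompactSupport (deriv (deriv stp)) := HasCompactSupport.intro isCompact_Icc hz2
  obtain ⟨C1, hC1⟩ := hs1.exists_bound_of_continuous h1.continuous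
  obtain ⟨C2, hC2⟩ := hs2.exists_bound_of_continuous h2.continuous
  refine ⟨deriv stp, deriv (deriv stp), max C1 C2, ?_, fun v => (hd0 v).hasDerivAt,
    fun v => (hd1 v).hasDerivAt, h2.continuous, ?_, ?_, hz, hz2⟩
  · exact le_max_of_le_left ((norm_nonneg _).trans (hC1 0))
  · intro v
    exact (hC1 v).trans (le_max_left _ _)
  · intro v
    exact (hC2 v).trans (le_max_right _ _)

/-- Fourier inversion for the plateau functions, with a uniform quadratic decay bound. -/
theorem upsilon : ∃ C : ℝ, 0 < C ∧ ∀ (b n ν : ℝ), 0 ≤ b → b ≤ 1 / 2 → 0 ≤ n → n ≤ ν →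
    ∃ U : ℝ → ℂ, Continuous U ∧ (∀ t : ℝ, ‖U t‖ ≤ C * (ν - n + 1) * (1 / (1 + t ^ 2))) ∧
      ∀ v : ℝ, ((Real.exp (-(b * v)) * (stp (v - ν) - stp (v - n + 1)) : ℝ) : ℂ)
        = ∫ t : ℝ, U t * Complex.exp (t * v * Complex.I) := by
  obtain ⟨p, q, P, hP, hp, hq, hqc, hpP, hqP, hp0, hq0⟩ := ups_stp_deriv
  set A : ℝ := 2 * (1 + 2 * P + 2 * P) with hAdef
  have hApos : 0 < A := by positivity
  refine ⟨4 * A, by positivity, ?_⟩
  intro b n ν hb0 hb hn hnν
  -- the real functions
  set D : ℝ → ℝ := fun v => stp (v - ν) - stp (v - n + 1) with hD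
  set D1 : ℝ → ℝ := fun v => p (v - ν) - p (v - n + 1) with hD1
  set D2 : ℝ → ℝ := fun v => q (v - ν) - q (v - n + 1) with hD2
  set E : ℝ → ℝ := fun v => Real.exp (-(b * v)) with hE
  have hshift1 : ∀ v : ℝ, HasDerivAt (fun v : ℝ => v - ν) 1 v := fun v => by
    simpa using (hasDerivAt_id v).sub_const ν
  have hshift2 : ∀ v : ℝ, HasDerivAt (fun v : ℝ => v - n + 1) 1 v := fun v => by
    simpa using ((hasDerivAt_id v).sub_const n).add_const 1
  have hDd : ∀ v, HasDerivAt D (D1 v) v := by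
    intro v
    have h1 := (hp (v - ν)).comp v (hshift1 v)
    have h2 := (hp (v - n + 1)).comp v (hshift2 v)
    have h := h1.sub h2
    rw [mul_one, mul_one] at h
    exact h
  have hD1d : ∀ v, HasDerivAt D1 (D2 v) v := by
    intro v
    have h1 := (hq (v - ν)).comp v (hshift1 v)
    have h2 := (hq (v - n + 1)).comp v (hshift2 v)
    have h := h1.sub h2
    rw [mul_one, mul_one] at h
    exact h
  have hEd : ∀ v, HasDerivAt E (-b * E v) v := by
    intro v
    have h1 : HasDerivAt (fun v : ℝ => -(b * v)) (-b) v := by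
      have h := ((hasDerivAt_id v).const_mul b).neg
      rw [mul_one] at h
      exact h
    have := h1.exp
    rw [mul_comm] at this
    exact this
  set Y : ℝ → ℝ := fun v => E v * D v with hY
  set Y1 : ℝ → ℝ := fun v => E v * (-b * D v + D1 v) with hY1
  set Y2 : ℝ → ℝ := fun v => E v * (b ^ 2 * D v - 2 * b * D1 v + D2 v) with hY2
  have hYd : ∀ v, HasDerivAt Y (Y1 v) v := by
    intro v
    have := (hEd v).mul (hDd v)
    refine this.congr_deriv ?_
    simp only [hY1]; ring
  have hY1d : ∀ v, HasDerivAt Y1 (Y2 v) v := by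
    intro v
    have := (hEd v).mul (((hDd v).const_mul (-b)).add (hD1d v))
    refine this.congr_deriv ?_
    simp only [hY2, Pi.add_apply]; ring
  have hout : ∀ v, v ∉ Icc (n - 1) (ν + 1) → D v = 0 ∧ D1 v = 0 ∧ D2 v = 0 := by
    intro v hv
    rw [mem_Icc, not_and_or, not_le, not_le] at hv
    rcases hv with hv | hv
    · have a1 : v - ν ∉ Icc (0:ℝ) 1 := by
        rw [mem_Icc, not_and_or]; left; linarith
      have a2 : v - n + 1 ∉ Icc (0:ℝ) 1 := by
        rw [mem_Icc, not_and_or]; left; linarith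
      refine ⟨?_, ?_, ?_⟩
      · simp only [hD]; rw [ups_stp_lt (by linarith), ups_stp_lt (by linarith), sub_self]
      · simp only [hD1]; rw [hp0 _ a1, hp0 _ a2, sub_self]
      · simp only [hD2]; rw [hq0 _ a1, hq0 _ a2, sub_self]
    · have a1 : v - ν ∉ Icc (0:ℝ) 1 := by
        rw [mem_Icc, not_and_or]; right; linarith
      have a2 : v - n + 1 ∉ Icc (0:ℝ) 1 := by
        rw [mem_Icc, not_and_or]; right; linarith
      refine ⟨?_, ?_, ?_⟩
      · simp only [hD]; rw [ups_stp_gt (by linarith), ups_stp_gt (by linarith), sub_self]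
      · simp only [hD1]; rw [hp0 _ a1, hp0 _ a2, sub_self]
      · simp only [hD2]; rw [hq0 _ a1, hq0 _ a2, sub_self]
  have hEb : ∀ v, v ∈ Icc (n - 1) (ν + 1) → E v ≤ 2 := by
    intro v hv
    have h1 : -(b * v) ≤ 1 / 2 := by nlinarith [hv.1]
    have h2 : E v ≤ Real.exp (1 / 2) := Real.exp_le_exp.mpr h1
    have h3 : Real.exp (1 / 2) ≤ 2 := by
      have h4 : Real.exp (1 / 2) * Real.exp (1 / 2) = Real.exp 1 := by
        rw [← Real.exp_add]; norm_num
      have h5 := Real.exp_one_lt_d9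
      nlinarith [Real.exp_pos (1 / 2 : ℝ)]
    linarith
  have hDb : ∀ v, |D v| ≤ 1 := by
    intro v
    have hs : ∀ x, 0 ≤ stp x ∧ stp x ≤ 1 := fun x =>
      ⟨Real.smoothTransition.nonneg _, Real.smoothTransition.le_one _⟩
    simp only [hD]
    rw [abs_le]
    have := hs (v - ν)
    have := hs (v - n + 1)
    constructor <;> linarith
  have hD1b : ∀ v, |D1 v| ≤ 2 * P := by
    intro v
    simp only [hD1]
    refine (abs_sub _ _).trans ?_
    linarith [hpP (v - ν), hpP (v - n + 1)]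
  have hD2b : ∀ v, |D2 v| ≤ 2 * P := by
    intro v
    simp only [hD2]
    refine (abs_sub _ _).trans ?_
    linarith [hqP (v - ν), hqP (v - n + 1)]
  have hEpos : ∀ v, 0 < E v := fun v => Real.exp_pos _
  have hYb : ∀ v, |Y v| ≤ A := by
    intro v
    by_cases hv : v ∈ Icc (n - 1) (ν + 1)
    · simp only [hY]
      rw [abs_mul, abs_of_pos (hEpos v)]
      have h1 := hEb v hv
      have h2 := hDb v
      have : E v * |D v| ≤ 2 * 1 := mul_le_mul h1 h2 (abs_nonneg _) (by norm_num)
      nlinarith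
    · have := (hout v hv).1
      simp only [hY]
      rw [this, mul_zero, abs_zero]
      exact hApos.le
  have hY2b : ∀ v, |Y2 v| ≤ A := by
    intro v
    by_cases hv : v ∈ Icc (n - 1) (ν + 1)
    · simp only [hY2]
      rw [abs_mul, abs_of_pos (hEpos v)]
      have h1 := hEb v hv
      have h2 : |b ^ 2 * D v - 2 * b * D1 v + D2 v| ≤ 1 + 2 * P + 2 * P := by
        have a1 : |b ^ 2 * D v| ≤ 1 := by
          rw [abs_mul, abs_of_nonneg (sq_nonneg b)]
          have : b ^ 2 ≤ 1 := by nlinarith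
          nlinarith [hDb v, abs_nonneg (D v)]
        have a2 : |2 * b * D1 v| ≤ 2 * P := by
          rw [abs_mul, abs_of_nonneg (by linarith : 0 ≤ 2 * b)]
          nlinarith [hD1b v, abs_nonneg (D1 v)]
        have a3 := hD2b v
        refine (abs_add_le _ _).trans ?_
        have a4 := abs_sub (b ^ 2 * D v) (2 * b * D1 v)
        linarith
      have : E v * |b ^ 2 * D v - 2 * b * D1 v + D2 v| ≤ 2 * (1 + 2 * P + 2 * P) :=
        mul_le_mul h1 h2 (abs_nonneg _) (by norm_num)
      exact this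
    · obtain ⟨z0, z1, z2⟩ := hout v hv
      simp only [hY2]
      rw [z0, z1, z2]
      simp [hApos.le]
  have hE0 : Continuous E := by
    simp only [hE]; fun_prop
  have hDc : Continuous D := continuous_iff_continuousAt.mpr fun v => (hDd v).continuousAt
  have hD1c : Continuous D1 := continuous_iff_continuousAt.mpr fun v => (hD1d v).continuousAt
  have hD2c : Continuous D2 := by
    simp only [hD2]; fun_prop
  have hY2c : Continuous Y2 := by
    simp only [hY2]; fun_prop
  obtain ⟨U, hU1, hU2, hU3⟩ := ups_general (fun v => ((Y v : ℝ) : ℂ)) (fun v => ((Y1 v : ℝ) : ℂ))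
    (fun v => ((Y2 v : ℝ) : ℂ)) (n - 1) (ν + 1) A (by linarith)
    (fun v => (hYd v).ofReal_comp) (fun v => (hY1d v).ofReal_comp)
    (Complex.continuous_ofReal.comp hY2c)
    (by
      intro v hv
      have := (hout v hv).1
      simp only [hY]; rw [this, mul_zero, Complex.ofReal_zero])
    (by
      intro v hv
      obtain ⟨z0, z1, z2⟩ := hout v hv
      simp only [hY1]; rw [z0, z1]; simp)
    (by
      intro v hv
      obtain ⟨z0, z1, z2⟩ := hout v hv
      simp only [hY2]; rw [z0, z1, z2]; simp)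
    (by
      intro v
      rw [Complex.norm_real]; exact hYb v)
    (by
      intro v
      rw [Complex.norm_real]; exact hY2b v)
  refine ⟨U, hU1, ?_, ?_⟩
  · intro t
    refine (hU2 t).trans ?_
    apply mul_le_mul_of_nonneg_right _ (by positivity)
    nlinarith
  · intro v
    exact hU3 v

end Pool.Agent.H95.GC
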