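import Pool.Agent.H95.GC.Defs

set_option autoImplicit false

namespace Pool.Agent.H95.GC

open Set MeasureTheory

private lemma weights_summable : Summable (fun n : ℤ => 1 / (1 + (n : ℝ) ^ 2)) := by
  have h1 : Summable (fun n : ℤ => 1 / (n : ℝ) ^ 2) := by
    exact_mod_cast (Real.summable_one_div_int_pow (p := 2)).2 (by norm_num)
  have h2 : Summable (fun n : ℤ => if n = 0 then (1 : ℝ) else 0) :=
    (hasSum_ite_eq (0 : ℤ) (1 : ℝ)).summable
  refine Summable.of_nonneg_of_le (fun n => by positivity) (fun n => ?_) (h1.add h2)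
  by_cases hn : n = 0
  · subst hn; simp
  · have hpos : (0 : ℝ) < (n : ℝ) ^ 2 := by
      have : (n : ℝ) ≠ 0 := by exact_mod_cast hn
      positivity
    simp only [hn, if_false, add_zero]
    exact one_div_le_one_div_of_le hpos (by linarith)

private lemma weights_sum_le (R : ℕ) (y : ℝ) :
    ∑ r ∈ Finset.range R, 1 / (1 + ((r : ℝ) - y) ^ 2) ≤ 3 * ∑' n : ℤ, 1 / (1 + (n : ℝ) ^ 2) := by
  have hinj : Function.Injective (fun r : ℕ => (r : ℤ) - ⌊y⌋) := by
    intro a b h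
    simpa using h
  have hs := weights_summable.comp_injective hinj
  have h1 : ∑ r ∈ Finset.range R, 1 / (1 + ((r : ℝ) - y) ^ 2)
      ≤ ∑ r ∈ Finset.range R, 3 * (1 / (1 + ((((r : ℤ) - ⌊y⌋ : ℤ) : ℝ)) ^ 2)) := by
    apply Finset.sum_le_sum
    intro r _
    have hfl := Int.floor_le y
    have hfl2 := (Int.lt_floor_add_one y).le
    push_cast
    rw [mul_one_div, div_le_div_iff₀ (by positivity) (by positivity)]
    set f : ℝ := (⌊y⌋ : ℝ) with hf
    set a : ℝ := (r : ℝ) - y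
    have hb : (r : ℝ) - f = a + (y - f) := by simp [a]
    rw [hb]
    have h0 : 0 ≤ y - f := by linarith
    have h1 : y - f ≤ 1 := by linarith
    nlinarith [sq_nonneg (a - (y - f)), mul_nonneg h0 h0, mul_nonneg h0 (sub_nonneg.2 h1)]
  refine h1.trans ?_
  rw [← Finset.mul_sum]
  refine mul_le_mul_of_nonneg_left ?_ (by norm_num)
  refine (hs.sum_le_tsum (Finset.range R) (fun r _ => by simp only [Function.comp]; positivity)).trans ?_
  exact tsum_comp_le_tsum_of_inj weights_summable (fun n => by positivity) hinj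

/-- The weight attached to a well-spaced family of ordinates. -/
theorem weight_bound : ∃ C : ℝ, 0 < C ∧ ∀ (T : ℝ) (R : ℕ) (γ : ℕ → ℝ), 1 ≤ T → (R : ℝ) ≤ T →
    (∀ r < R, |γ r| ≤ 3 * T) → (∀ r < R, abs (|γ r| - (T + 6 * ((r : ℝ) + 1))) ≤ 5 / 2) →
    ∀ t : ℝ, ∑ r ∈ Finset.range R, 1 / (1 + (γ r - t) ^ 2) ≤ C * (1 / (1 + (t / T) ^ 2)) := by
  set S : ℝ := ∑' n : ℤ, 1 / (1 + (n : ℝ) ^ 2) with hS
  have hS0 : 0 ≤ S := tsum_nonneg (fun n => by positivity)
  refine ⟨19 * (6 * S) + 2, by positivity, ?_⟩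
  intro T R γ hT hRT hγ hsp t
  have hT0 : 0 < T := by linarith
  -- (i)
  have hi : ∑ r ∈ Finset.range R, 1 / (1 + (γ r - t) ^ 2) ≤ 6 * S := by
    set y : ℝ := (|t| - T) / 6 - 1 with hy
    have h1 : ∑ r ∈ Finset.range R, 1 / (1 + (γ r - t) ^ 2)
        ≤ ∑ r ∈ Finset.range R, 2 * (1 / (1 + ((r : ℝ) - y) ^ 2)) := by
      apply Finset.sum_le_sum
      intro r hr
      have hr' := hsp r (Finset.mem_range.1 hr)
      rw [mul_one_div, div_le_div_iff₀ (by positivity) (by positivity)]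
      -- |γ - t| ≥ ||γ| - |t||
      have h2 : (|γ r| - |t|) ^ 2 ≤ (γ r - t) ^ 2 := by
        have := abs_abs_sub_abs_le_abs_sub (γ r) t
        rw [← sq_abs (|γ r| - |t|), ← sq_abs (γ r - t)]
        exact pow_le_pow_left₀ (abs_nonneg _) this 2
      have hyt : |t| = T + 6 * (y + 1) := by rw [hy]; ring
      set d : ℝ := (r : ℝ) - y with hd
      set e : ℝ := |γ r| - (T + 6 * ((r : ℝ) + 1)) with he
      have h3 : |γ r| - |t| = e + 6 * d := by rw [hyt, he, hd]; ring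
      rw [h3] at h2
      have he2 := abs_le.1 hr'
      -- (e + 6 d)^2 ≥ ...; goal : 1 * (1 + d^2) ≤ 2 * (1 + (γ r - t)^2)
      by_cases hd1 : |d| ≤ 1 / 2
      · have hd2 := abs_le.1 hd1
        nlinarith [sq_nonneg (γ r - t), hd2.1, hd2.2]
      · push Not at hd1
        rcases lt_abs.1 hd1 with hpos | hneg
        · have : 0 ≤ e + 6 * d - d := by linarith [he2.1]
          nlinarith [this, he2.1, he2.2, hpos]
        · have : 0 ≤ -(e + 6 * d) + d := by linarith [he2.2]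
          nlinarith [this, he2.1, he2.2, hneg]
    refine h1.trans ?_
    rw [← Finset.mul_sum]
    have := weights_sum_le R y
    linarith
  -- (ii)
  rw [mul_one_div, le_div_iff₀ (by positivity)]
  have hii : ∀ r ∈ Finset.range R, 1 / (1 + (γ r - t) ^ 2) * (1 + (t / T) ^ 2)
      ≤ 19 * (1 / (1 + (γ r - t) ^ 2)) + 2 / T ^ 2 := by
    intro r hr
    have hg := hγ r (Finset.mem_range.1 hr)
    have hpos : 0 < 1 + (γ r - t) ^ 2 := by positivity
    have hT2 : 0 < T ^ 2 := by positivity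
    have hg2 : (γ r) ^ 2 ≤ 9 * T ^ 2 := by
      rw [← sq_abs]
      nlinarith [abs_nonneg (γ r)]
    have ht2 : t ^ 2 ≤ 2 * (γ r) ^ 2 + 2 * (γ r - t) ^ 2 := by
      nlinarith [sq_nonneg (2 * γ r - t)]
    have key : 1 + (t / T) ^ 2 ≤ 19 + 2 / T ^ 2 * (1 + (γ r - t) ^ 2) := by
      rw [div_pow, div_mul_eq_mul_div, ← sub_nonneg]
      have : 19 + 2 * (1 + (γ r - t) ^ 2) / T ^ 2 - (1 + t ^ 2 / T ^ 2)
          = (18 * T ^ 2 + 2 * (1 + (γ r - t) ^ 2) - t ^ 2) / T ^ 2 := by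
        field_simp; ring
      rw [this]
      apply div_nonneg _ hT2.le
      nlinarith
    calc 1 / (1 + (γ r - t) ^ 2) * (1 + (t / T) ^ 2)
        ≤ 1 / (1 + (γ r - t) ^ 2) * (19 + 2 / T ^ 2 * (1 + (γ r - t) ^ 2)) :=
          mul_le_mul_of_nonneg_left key (by positivity)
      _ = 19 * (1 / (1 + (γ r - t) ^ 2)) + 2 / T ^ 2 := by
          field_simp
  rw [Finset.sum_mul]
  refine (Finset.sum_le_sum hii).trans ?_
  rw [Finset.sum_add_distrib, ← Finset.mul_sum, Finset.sum_const, Finset.card_range, nsmul_eq_mul]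
  have h5 : (R : ℝ) * (2 / T ^ 2) ≤ 2 := by
    rw [mul_div_assoc', div_le_iff₀ (by positivity)]
    nlinarith
  linarith

end Pool.Agent.H95.GC
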