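import Pool.Agent.H95.GC.CoreB
import Pool.Agent.H95.GC.CoreC
import Pool.Agent.H95.GC.MeanF
import Pool.Agent.H95.GC.Weights
import Pool.Agent.H95.GC.Ups

set_option autoImplicit false

namespace Pool.Agent.H95.GC

open Set MeasureTheory

theorem continuous_weight (T : ℝ) : Continuous (fun t : ℝ => (1 / (1 + (t / T) ^ 2) : ℝ)) := by
  apply Continuous.div continuous_const (by fun_prop)
  intro t; positivity

/-- Cauchy-Schwarz with a weight. -/
theorem cauchy_schwarz_weight (f h w : ℝ → ℝ) (hf : Integrable (fun t => f t ^ 2 * w t))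
    (hh : Integrable (fun t => h t ^ 2 * w t)) (hw : ∀ t, 0 ≤ w t)
    (hint : Integrable (fun t => f t * h t * w t)) :
    (∫ t, f t * h t * w t) ^ 2 ≤ (∫ t, f t ^ 2 * w t) * ∫ t, h t ^ 2 * w t := by
  set X := ∫ t, f t ^ 2 * w t with hX
  set Y := ∫ t, h t ^ 2 * w t with hY
  set S := ∫ t, f t * h t * w t with hS
  have key : ∀ c : ℝ, 0 ≤ c ^ 2 * X - 2 * c * S + Y := by
    intro c
    have h1 : c ^ 2 * X - 2 * c * S + Y = ∫ t, (c * f t - h t) ^ 2 * w t := by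
      rw [hX, hY, hS, ← integral_const_mul, ← integral_const_mul, ← integral_sub, ← integral_add]
      · congr 1
        funext t
        ring
      · exact (hf.const_mul _).sub (hint.const_mul _)
      · exact hh
      · exact hf.const_mul _
      · exact hint.const_mul _
    rw [h1]
    apply integral_nonneg
    intro t
    exact mul_nonneg (sq_nonneg _) (hw t)
  have hX0 : 0 ≤ X := integral_nonneg fun t => mul_nonneg (sq_nonneg _) (hw t)
  rcases hX0.lt_or_eq with h | h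
  · have h2 := key (S / X)
    have h3 : (S / X) ^ 2 * X - 2 * (S / X) * S + Y = Y - S ^ 2 / X := by
      field_simp
      ring
    rw [h3] at h2
    have h4 : S ^ 2 / X ≤ Y := by linarith
    rw [div_le_iff₀ h] at h4
    linarith
  · have hS0 : S ^ 2 ≤ 0 := by
      by_contra hcon
      push Not at hcon
      have hSne : S ≠ 0 := by
        intro h0; rw [h0] at hcon; simp at hcon
      have h2 := key ((Y + 1) / (2 * S))
      rw [← h] at h2
      have h3 : 2 * ((Y + 1) / (2 * S)) * S = Y + 1 := by field_simp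
      nlinarith
    rw [← h]
    linarith

/-- The main inequality, before inserting parameters. -/
theorem main_ineq (CU CW : ℝ) (hCU : 0 < CU)
    (hups : ∀ (b n ν : ℝ), 0 ≤ b → b ≤ 1 / 2 → 0 ≤ n → n ≤ ν →
      ∃ U : ℝ → ℂ, Continuous U ∧ (∀ t : ℝ, ‖U t‖ ≤ CU * (ν - n + 1) * (1 / (1 + t ^ 2))) ∧
      ∀ v : ℝ, ((Real.exp (-(b * v)) * (stp (v - ν) - stp (v - n + 1)) : ℝ) : ℂ)
        = ∫ t : ℝ, U t * Complex.exp (t * v * Complex.I))
    (T : ℝ) (hT : 1 ≤ T) (R : ℕ) (b γ : ℕ → ℝ)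
    (hb0 : ∀ r < R, 0 ≤ b r) (hb1 : ∀ r < R, b r ≤ 1 / 2)
    (hW : ∀ t : ℝ, ∑ r ∈ Finset.range R, 1 / (1 + (γ r - t) ^ 2) ≤ CW * (1 / (1 + (t / T) ^ 2)))
    (δ n ν η : ℝ) (hδ0 : 0 < δ) (hδ1 : δ ≤ 1 / 2) (hn : 0 ≤ n) (hν : n ≤ ν) (hν1 : 1 ≤ ν)
    (hnorm : ∀ r < R, ‖(1 / 2 + b r + γ r * Complex.I : ℂ)‖ * δ ≤ 1 / 4)
    (hη : 6 * Real.exp n * η * (n + 1) ≤ δ / 8)
    (hZ : ∀ r < R, ∀ u ∈ Icc (-1) n, ‖Z (1 / 2 + b r + γ r * Complex.I) (ν - u)‖ ≤ η) :
    (R * (δ / 8)) ^ 2 ≤ (CU * (ν - n + 1) * CW) ^ 2 *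
      ((2 * Real.pi * (T * (1 + Real.log ⌊3 * Real.exp (ν - n)⌋₊) + ⌊3 * Real.exp (ν - n)⌋₊))
        * (2 * Real.pi * ∫ u in n..(ν + 1), g δ u ^ 2 * Real.exp (-u))) := by
  set K := ⌊3 * Real.exp (ν - n)⌋₊ with hK
  have hT0 : 0 < T := by linarith
  -- each zero
  have hzero : ∀ r < R, δ / 8 ≤ (CU * (ν - n + 1)) * ∫ t : ℝ, (1 / (1 + (γ r - t) ^ 2))
      * (‖Dir K t‖ * ‖F δ n ν t‖) := by
    intro r hr
    obtain ⟨U, hUc, hUb, hU⟩ := hups (b r) n ν (hb0 r hr) (hb1 r hr) hn hν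
    have h1 := step_one δ n ν hδ0 hδ1 hn hν hν1 (1 / 2 + b r + γ r * Complex.I)
    have h2 := lower_K δ hδ0 hδ1 (1 / 2 + b r + γ r * Complex.I) (hnorm r hr)
    have hre : (1 / 2 + b r + γ r * Complex.I : ℂ).re = 1 / 2 + b r := by simp
    have h3 := upper_P1 δ n ν hδ0 hδ1 hn (1 / 2 + b r + γ r * Complex.I)
      (by rw [hre]; linarith [hb0 r hr]) (by rw [hre]; linarith [hb1 r hr]) η (hZ r hr)
    have h4 := P2_bound δ n ν (b r) (γ r) (CU * (ν - n + 1)) hδ0 hδ1 hn hν U hUc hUb hU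
    rw [h1] at h2
    have h5 := h2.trans (norm_add_le _ _)
    linarith
  -- integrability facts
  obtain ⟨B, hB⟩ : ∃ B, B = ∫ u, ‖G δ n ν u‖ := ⟨_, rfl⟩
  have hB0 : 0 ≤ B := by rw [hB]; exact integral_nonneg fun _ => norm_nonneg _
  have hFb : ∀ t, ‖F δ n ν t‖ ≤ B := fun t => by rw [hB]; exact norm_F_le δ n ν t
  have hFc := continuous_F δ n ν hδ0 hδ1 hn
  have hDc := continuous_Dir K
  have hDb := norm_Dir_le K
  have hwint := integrable_lorentz T hT0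
  have hwc := continuous_weight T
  have hint1 : Integrable (fun t : ℝ => ‖Dir K t‖ * ‖F δ n ν t‖ * (1 / (1 + (t / T) ^ 2))) := by
    apply Integrable.bdd_mul (c := (K : ℝ) * B) hwint
    · exact ((hDc.norm).mul (hFc.norm)).aestronglyMeasurable
    · refine Filter.Eventually.of_forall fun t => ?_
      rw [Real.norm_eq_abs, abs_of_nonneg (by positivity)]
      exact mul_le_mul (hDb t) (hFb t) (norm_nonneg _) (Nat.cast_nonneg _)
  have hint2 : Integrable (fun t : ℝ => ‖Dir K t‖ ^ 2 * (1 / (1 + (t / T) ^ 2))) := by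
    apply Integrable.bdd_mul (c := (K : ℝ) ^ 2) hwint
    · exact ((hDc.norm).pow 2).aestronglyMeasurable
    · refine Filter.Eventually.of_forall fun t => ?_
      rw [Real.norm_eq_abs, abs_of_nonneg (by positivity)]
      exact pow_le_pow_left₀ (norm_nonneg _) (hDb t) 2
  have hint3 : Integrable (fun t : ℝ => ‖F δ n ν t‖ ^ 2 * (1 / (1 + (t / T) ^ 2))) := by
    apply Integrable.bdd_mul (c := B ^ 2) hwint
    · exact ((hFc.norm).pow 2).aestronglyMeasurable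
    · refine Filter.Eventually.of_forall fun t => ?_
      rw [Real.norm_eq_abs, abs_of_nonneg (by positivity)]
      exact pow_le_pow_left₀ (norm_nonneg _) (hFb t) 2
  have hint4 : ∀ r : ℕ, Integrable (fun t : ℝ => (1 / (1 + (γ r - t) ^ 2))
      * (‖Dir K t‖ * ‖F δ n ν t‖)) := by
    intro r
    have h1 : Integrable (fun t : ℝ => (1 / (1 + t ^ 2) : ℝ)) := by
      simpa [one_div] using integrable_inv_one_add_sq
    have h2 : Integrable (fun t : ℝ => (‖Dir K t‖ * ‖F δ n ν t‖) * (1 / (1 + (γ r - t) ^ 2) : ℝ)) := by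
      apply Integrable.bdd_mul (c := (K : ℝ) * B) (h1.comp_sub_left (γ r))
      · exact ((hDc.norm).mul (hFc.norm)).aestronglyMeasurable
      · refine Filter.Eventually.of_forall fun t => ?_
        rw [Real.norm_eq_abs, abs_of_nonneg (by positivity)]
        exact mul_le_mul (hDb t) (hFb t) (norm_nonneg _) (Nat.cast_nonneg _)
    refine h2.congr (Filter.Eventually.of_forall fun t => ?_)
    simp only []
    ring
  set S := ∫ t : ℝ, ‖Dir K t‖ * ‖F δ n ν t‖ * (1 / (1 + (t / T) ^ 2)) with hS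
  have hS0 : 0 ≤ S := integral_nonneg fun t => by positivity
  -- sum over the zeros
  have hsum : (R : ℝ) * (δ / 8) ≤ CU * (ν - n + 1) * CW * S := by
    have h1 : ∑ r ∈ Finset.range R, (δ / 8) ≤ ∑ r ∈ Finset.range R, (CU * (ν - n + 1)) *
        ∫ t : ℝ, (1 / (1 + (γ r - t) ^ 2)) * (‖Dir K t‖ * ‖F δ n ν t‖) :=
      Finset.sum_le_sum fun r hr => hzero r (Finset.mem_range.mp hr)
    rw [Finset.sum_const, Finset.card_range, nsmul_eq_mul, ← Finset.mul_sum,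
      ← integral_finsetSum _ (fun r _ => hint4 r)] at h1
    have h2 : ∫ t : ℝ, ∑ r ∈ Finset.range R, (1 / (1 + (γ r - t) ^ 2))
        * (‖Dir K t‖ * ‖F δ n ν t‖) ≤ CW * S := by
      rw [hS, ← integral_const_mul]
      apply integral_mono (integrable_finsetSum _ fun r _ => hint4 r) (hint1.const_mul _)
      intro t
      simp only []
      rw [← Finset.sum_mul]
      calc (∑ r ∈ Finset.range R, 1 / (1 + (γ r - t) ^ 2)) * (‖Dir K t‖ * ‖F δ n ν t‖)
          ≤ (CW * (1 / (1 + (t / T) ^ 2))) * (‖Dir K t‖ * ‖F δ n ν t‖) :=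
            mul_le_mul_of_nonneg_right (hW t) (by positivity)
        _ = _ := by ring
    have h3 : 0 ≤ CU * (ν - n + 1) := by
      apply mul_nonneg hCU.le; linarith
    calc (R : ℝ) * (δ / 8) ≤ _ := h1
      _ ≤ CU * (ν - n + 1) * (CW * S) := mul_le_mul_of_nonneg_left h2 h3
      _ = _ := by ring
  -- Cauchy-Schwarz
  have hCS : S ^ 2 ≤ (∫ t : ℝ, ‖Dir K t‖ ^ 2 * (1 / (1 + (t / T) ^ 2)))
      * ∫ t : ℝ, ‖F δ n ν t‖ ^ 2 * (1 / (1 + (t / T) ^ 2)) := by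
    apply cauchy_schwarz_weight (fun t => ‖Dir K t‖) (fun t => ‖F δ n ν t‖)
      (fun t => 1 / (1 + (t / T) ^ 2)) hint2 hint3
    · intro t; positivity
    · exact hint1
  have hK1 : 1 ≤ K := by
    rw [hK]
    apply Nat.le_floor
    have : 1 ≤ Real.exp (ν - n) := Real.one_le_exp (by linarith)
    push_cast
    linarith
  have hD2 := mean_Dir T hT K hK1
  have hF2 := mean_F T hT0 (G δ n ν) (integrable_G δ n ν hδ0 hδ1 hn)
    (integrable_norm_sq_G δ n ν hδ0 hδ1 hn)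
  rw [integral_norm_sq_G δ n ν hν] at hF2
  have hF2' : ∫ t : ℝ, ‖F δ n ν t‖ ^ 2 * (1 / (1 + (t / T) ^ 2))
      ≤ 2 * Real.pi * ∫ u in n..(ν + 1), g δ u ^ 2 * Real.exp (-u) := hF2
  have h0D : 0 ≤ ∫ t : ℝ, ‖Dir K t‖ ^ 2 * (1 / (1 + (t / T) ^ 2)) :=
    integral_nonneg fun t => by positivity
  have h0F : 0 ≤ ∫ t : ℝ, ‖F δ n ν t‖ ^ 2 * (1 / (1 + (t / T) ^ 2)) :=
    integral_nonneg fun t => by positivity
  have h6 : S ^ 2 ≤ (2 * Real.pi * (T * (1 + Real.log K) + K))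
      * (2 * Real.pi * ∫ u in n..(ν + 1), g δ u ^ 2 * Real.exp (-u)) :=
    hCS.trans (mul_le_mul hD2 hF2' h0F (h0D.trans hD2))
  have h7 : ((R : ℝ) * (δ / 8)) ^ 2 ≤ (CU * (ν - n + 1) * CW * S) ^ 2 :=
    pow_le_pow_left₀ (by positivity) hsum 2
  calc ((R : ℝ) * (δ / 8)) ^ 2 ≤ (CU * (ν - n + 1) * CW * S) ^ 2 := h7
    _ = (CU * (ν - n + 1) * CW) ^ 2 * S ^ 2 := by ring
    _ ≤ _ := mul_le_mul_of_nonneg_left h6 (sq_nonneg _)

end Pool.Agent.H95.GC
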