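import Mathlib

set_option autoImplicit false

namespace Pool.Agent.H95.GC

open Set MeasureTheory

/-- `M x H` is the sum of `μ(n)` over the integers `n` with `|n - x| < H / 2`
(written exactly as in the frozen statement S15903). -/
noncomputable def M (x H : ℝ) : ℝ :=
  ∑ n ∈ (Finset.range (⌈x + H⌉₊ + 1)).filter (fun n : ℕ => |(n : ℝ) - x| < H / 2),
    ((ArithmeticFunction.moebius n : ℤ) : ℝ)

/-- The variance `V(X;H) = (1/X) ∫_X^{2X} M(x;H)^2 dx`. -/
noncomputable def V (X H : ℝ) : ℝ := (1 / X) * ∫ x in X..2 * X, (M x H) ^ 2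

/-- A smooth step: `1` for `v ≤ 0`, `0` for `v ≥ 1`, between `0` and `1` always. -/
noncomputable def stp (v : ℝ) : ℝ := Real.smoothTransition (1 - v)

/-- The smoothly truncated zeta sum `∑_k k^{-s} stp (log k - w)` (the terms with `k ≥ e^{w+1}`
vanish, and `e < 3`). -/
noncomputable def Z (s : ℂ) (w : ℝ) : ℂ :=
  ∑ k ∈ Finset.Icc 1 ⌊3 * Real.exp w⌋₊, (k : ℂ) ^ (-s) * (stp (Real.log k - w) : ℂ)

/-- The Dirichlet polynomial `∑_{k ≤ K} k^{-1/2-it}`. -/
noncomputable def Dir (K : ℕ) (t : ℝ) : ℂ :=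
  ∑ k ∈ Finset.Icc 1 K, Complex.exp (-((1 / 2 + t * Complex.I) * (Real.log k : ℂ)))

/-- The periodic function `({x}^2 - {x})/2`, which lies in `[-1/8, 0]`. -/
noncomputable def Q (x : ℝ) : ℝ := ((Int.fract x) ^ 2 - Int.fract x) / 2

end Pool.Agent.H95.GC
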