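import Pool.Agent.H95.GC.ZetaForm

set_option autoImplicit false

namespace Pool.Agent.H95.GC

open Set MeasureTheory

/-! ### The smooth step and its derivatives -/

private lemma limit_contDiff : ContDiff ℝ (⊤ : ℕ∞) stp := by
  unfold stp
  exact Real.smoothTransition.contDiff.comp (contDiff_const.sub contDiff_id)

private lemma limit_stp_one {v : ℝ} (h : v ≤ 0) : stp v = 1 :=
  Real.smoothTransition.one_of_one_le (by linarith)

private lemma limit_stp_zero {v : ℝ} (h : 1 ≤ v) : stp v = 0 :=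
  Real.smoothTransition.zero_of_nonpos (by linarith)

private lemma limit_stp_le (v : ℝ) : |stp v| ≤ 1 := by
  rw [abs_le]
  have h1 := Real.smoothTransition.nonneg (1 - v)
  have h2 := Real.smoothTransition.le_one (1 - v)
  unfold stp
  constructor <;> linarith

/-- first derivative -/
private noncomputable def s1 : ℝ → ℝ := deriv stp

/-- second derivative -/
private noncomputable def s2 : ℝ → ℝ := deriv s1

private lemma s1_contDiff : ContDiff ℝ (⊤ : ℕ∞) s1 := by
  have h : ContDiff ℝ ((⊤ : ℕ∞) + 1 : WithTop ℕ∞) stp := by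
    have := limit_contDiff
    simpa using this
  exact (contDiff_succ_iff_deriv.1 h).2.2

private lemma s2_contDiff : ContDiff ℝ (⊤ : ℕ∞) s2 := by
  have h : ContDiff ℝ ((⊤ : ℕ∞) + 1 : WithTop ℕ∞) s1 := by
    have := s1_contDiff
    simpa using this
  exact (contDiff_succ_iff_deriv.1 h).2.2

private lemma hasDerivAt_stp (v : ℝ) : HasDerivAt stp (s1 v) v :=
  ((limit_contDiff.differentiable (by simp)) v).hasDerivAt

private lemma hasDerivAt_s1 (v : ℝ) : HasDerivAt s1 (s2 v) v :=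
  ((s1_contDiff.differentiable (by simp)) v).hasDerivAt

private lemma s1_zero {v : ℝ} (h : v < 0 ∨ 1 < v) : s1 v = 0 := by
  rcases h with h | h
  · have : stp =ᶠ[nhds v] fun _ => 1 := by
      filter_upwards [Iio_mem_nhds h] with u hu
      exact limit_stp_one (le_of_lt hu)
    unfold s1
    rw [this.deriv_eq]
    simp
  · have : stp =ᶠ[nhds v] fun _ => 0 := by
      filter_upwards [Ioi_mem_nhds h] with u hu
      exact limit_stp_zero (le_of_lt hu)
    unfold s1
    rw [this.deriv_eq]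
    simp

private lemma s2_zero {v : ℝ} (h : v < 0 ∨ 1 < v) : s2 v = 0 := by
  rcases h with h | h
  · have : s1 =ᶠ[nhds v] fun _ => 0 := by
      filter_upwards [Iio_mem_nhds h] with u hu
      exact s1_zero (Or.inl hu)
    unfold s2
    rw [this.deriv_eq]
    simp
  · have : s1 =ᶠ[nhds v] fun _ => 0 := by
      filter_upwards [Ioi_mem_nhds h] with u hu
      exact s1_zero (Or.inr hu)
    unfold s2
    rw [this.deriv_eq]
    simp

private lemma exists_bound (f : ℝ → ℝ) (hf : Continuous f)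
    (h0 : ∀ v, v < 0 ∨ 1 < v → f v = 0) : ∃ C, 0 ≤ C ∧ ∀ v, |f v| ≤ C := by
  obtain ⟨C, hC⟩ := (isCompact_Icc (a := (0 : ℝ)) (b := 1)).exists_bound_of_continuousOn
    hf.continuousOn
  refine ⟨max C 0, le_max_right _ _, fun v => ?_⟩
  by_cases h : v < 0 ∨ 1 < v
  · rw [h0 v h]
    simp
  · push Not at h
    exact (hC v ⟨h.1, h.2⟩).trans (le_max_left _ _)

/-! ### The function and its derivatives -/

private noncomputable def gg (s : ℂ) (w x : ℝ) : ℂ := (x : ℂ) ^ (-s) * (stp (Real.log x - w) : ℂ)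

private noncomputable def gg1 (s : ℂ) (w x : ℝ) : ℂ :=
  (x : ℂ) ^ (-s - 1) * (-s * (stp (Real.log x - w) : ℂ) + (s1 (Real.log x - w) : ℂ))

/-- the bounded factor -/
private noncomputable def hh (s : ℂ) (w x : ℝ) : ℂ :=
  s * (s + 1) * (stp (Real.log x - w) : ℂ) - (2 * s + 1) * (s1 (Real.log x - w) : ℂ)
    + (s2 (Real.log x - w) : ℂ)

private noncomputable def gg2 (s : ℂ) (w x : ℝ) : ℂ := (x : ℂ) ^ (-s - 2) * hh s w x

private lemma hasDerivAt_cpow (r : ℂ) {x : ℝ} (hx : 0 < x) :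
    HasDerivAt (fun y : ℝ => (y : ℂ) ^ r) (r * (x : ℂ) ^ (r - 1)) x := by
  have h := (hasDerivAt_id (x : ℂ)).cpow_const (c := r)
    (Or.inl (by simpa using hx))
  have h2 := h.comp_ofReal
  simpa using h2

private lemma hasDerivAt_comp_log (f f' : ℝ → ℝ) (hf : ∀ v, HasDerivAt f (f' v) v) (w : ℝ) {x : ℝ}
    (hx : 0 < x) : HasDerivAt (fun y : ℝ => (f (Real.log y - w) : ℂ))
      ((f' (Real.log x - w) : ℂ) * (x : ℂ)⁻¹) x := by
  have h1 : HasDerivAt (fun y : ℝ => Real.log y - w) (x⁻¹) x :=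
    (Real.hasDerivAt_log hx.ne').sub_const w
  have h2 := (hf (Real.log x - w)).comp x h1
  have h3 := h2.ofReal_comp
  simpa using h3

private lemma cpow_sub_one' (r : ℂ) {x : ℝ} (hx : 0 < x) :
    (x : ℂ) ^ (r - 1) = (x : ℂ) ^ r * (x : ℂ)⁻¹ := by
  have hx' : (x : ℂ) ≠ 0 := by exact_mod_cast hx.ne'
  rw [Complex.cpow_sub _ _ hx', Complex.cpow_one, div_eq_mul_inv]

private lemma hasDerivAt_gg (s : ℂ) (w : ℝ) {x : ℝ} (hx : 0 < x) :
    HasDerivAt (gg s w) (gg1 s w x) x := by
  have h := (hasDerivAt_cpow (-s) hx).mul (hasDerivAt_comp_log stp s1 hasDerivAt_stp w hx)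
  refine h.congr_deriv ?_
  unfold gg1
  rw [cpow_sub_one' _ hx]
  ring

private lemma hasDerivAt_gg1 (s : ℂ) (w : ℝ) {x : ℝ} (hx : 0 < x) :
    HasDerivAt (gg1 s w) (gg2 s w x) x := by
  have h1 := ((hasDerivAt_comp_log stp s1 hasDerivAt_stp w hx).const_mul (-s)).add
    (hasDerivAt_comp_log s1 s2 hasDerivAt_s1 w hx)
  have h := (hasDerivAt_cpow (-s - 1) hx).mul h1
  refine h.congr_deriv ?_
  unfold gg2 hh
  have h2 : (-s - 2 : ℂ) = (-s - 1) - 1 := by ring
  rw [h2, cpow_sub_one' (-s - 1) hx]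
  simp only [Pi.add_apply]
  ring

private lemma continuousOn_cpow (r : ℂ) : ContinuousOn (fun x : ℝ => (x : ℂ) ^ r) (Ioi 0) :=
  fun _ hx => (hasDerivAt_cpow r hx).continuousAt.continuousWithinAt

private lemma continuousOn_hh (s : ℂ) (w : ℝ) : ContinuousOn (hh s w) (Ioi 0) := by
  have hl : ContinuousOn (fun x : ℝ => Real.log x - w) (Ioi 0) :=
    (Real.continuousOn_log.mono fun x hx => (ne_of_gt hx)).sub continuousOn_const
  unfold hh
  refine ((ContinuousOn.mul continuousOn_const ?_).sub (ContinuousOn.mul continuousOn_const ?_)).add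
    ?_
  · exact Complex.continuous_ofReal.comp_continuousOn
      (limit_contDiff.continuous.comp_continuousOn hl)
  · exact Complex.continuous_ofReal.comp_continuousOn
      (s1_contDiff.continuous.comp_continuousOn hl)
  · exact Complex.continuous_ofReal.comp_continuousOn
      (s2_contDiff.continuous.comp_continuousOn hl)

private lemma continuousOn_gg2 (s : ℂ) (w : ℝ) : ContinuousOn (gg2 s w) (Ioi 0) :=
  (continuousOn_cpow _).mul (continuousOn_hh s w)

private lemma hh_eq {s : ℂ} {w x : ℝ} (h : Real.log x - w < 0) : hh s w x = s * (s + 1) := by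
  unfold hh
  rw [limit_stp_one h.le, s1_zero (Or.inl h), s2_zero (Or.inl h)]
  simp

private lemma hh_zero {s : ℂ} {w x : ℝ} (h : 1 < Real.log x - w) : hh s w x = 0 := by
  unfold hh
  rw [limit_stp_zero h.le, s1_zero (Or.inr h), s2_zero (Or.inr h)]
  simp

private lemma exists_hh_bound (s : ℂ) : ∃ C, 0 ≤ C ∧ ∀ w x, ‖hh s w x‖ ≤ C := by
  obtain ⟨C1, h1, hC1⟩ := exists_bound s1 s1_contDiff.continuous (fun v h => s1_zero h)
  obtain ⟨C2, h2, hC2⟩ := exists_bound s2 s2_contDiff.continuous (fun v h => s2_zero h)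
  refine ⟨‖s * (s + 1)‖ + ‖2 * s + 1‖ * C1 + C2, by positivity, fun w x => ?_⟩
  unfold hh
  refine (norm_add_le _ _).trans (add_le_add ((norm_sub_le _ _).trans (add_le_add ?_ ?_)) ?_)
  · rw [norm_mul, Complex.norm_real, Real.norm_eq_abs]
    exact mul_le_of_le_one_right (norm_nonneg _) (limit_stp_le _)
  · rw [norm_mul, Complex.norm_real, Real.norm_eq_abs]
    exact mul_le_mul_of_nonneg_left (hC1 _) (norm_nonneg _)
  · rw [Complex.norm_real, Real.norm_eq_abs]
    exact hC2 _

private lemma three_bound {w : ℝ} (hw : 2 ≤ w) :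
    Real.exp (w + 1) < (⌊3 * Real.exp w⌋₊ : ℝ) ∧ 1 ≤ ⌊3 * Real.exp w⌋₊ := by
  have h1 : (3 : ℝ) ≤ Real.exp w := by
    have := Real.add_one_le_exp w
    linarith
  have h2 : 3 * Real.exp w - 1 < (⌊3 * Real.exp w⌋₊ : ℝ) := Nat.sub_one_lt_floor _
  have h3 := Real.exp_one_lt_d9
  have h4 : Real.exp (w + 1) < 3 * Real.exp w - 1 / 2 := by
    rw [Real.exp_add]
    nlinarith
  have h5 : Real.exp (w + 1) ≤ 3 * Real.exp w - 1 := by
    rw [Real.exp_add]
    have h6 : 7 ≤ Real.exp w := by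
      have h7 : Real.exp 2 ≤ Real.exp w := Real.exp_le_exp.2 hw
      have h8 : Real.exp 2 = Real.exp 1 * Real.exp 1 := by
        rw [← Real.exp_add]
        norm_num
      have h9 := Real.exp_one_gt_d9
      nlinarith
    nlinarith
  refine ⟨lt_of_le_of_lt h5 h2, ?_⟩
  rw [Nat.one_le_floor_iff]
  linarith

private lemma log_gt {w x : ℝ} (hx : Real.exp (w + 1) < x) : 1 < Real.log x - w := by
  have := (Real.lt_log_iff_exp_lt ((Real.exp_pos _).trans hx)).2 hx
  linarith

/-- main part of the integral -/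
private lemma integral_gg_Ioi (s : ℂ) (w : ℝ) :
    ∫ x in Ioi (0 : ℝ), gg s w x = Complex.exp ((1 - s) * w) *
        ∫ u in Ioi (0 : ℝ), (u : ℂ) ^ (-s) * (stp (Real.log u) : ℂ) := by
  have h1 := integral_comp_mul_left_Ioi (gg s w) 0 (Real.exp_pos w)
  rw [mul_zero] at h1
  have h2 : ∫ u in Ioi (0 : ℝ), gg s w (Real.exp w * u) =
      ∫ u in Ioi (0 : ℝ), Complex.exp (-s * w) * ((u : ℂ) ^ (-s) * (stp (Real.log u) : ℂ)) := by
    refine setIntegral_congr_fun measurableSet_Ioi fun u hu => ?_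
    have hu : 0 < u := hu
    unfold gg
    have h3 : ((Real.exp w * u : ℝ) : ℂ) ^ (-s) = Complex.exp (-s * w) * (u : ℂ) ^ (-s) := by
      push_cast
      rw [← Complex.ofReal_exp, Complex.mul_cpow_ofReal_nonneg (Real.exp_pos _).le hu.le,
        Complex.ofReal_exp, Complex.cpow_def_of_ne_zero (Complex.exp_ne_zero _),
        ← Complex.ofReal_exp, ← Complex.ofReal_log (Real.exp_pos _).le, Real.log_exp]
      congr 2
      ring
    have h4 : Real.log (Real.exp w * u) - w = Real.log u := by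
      rw [Real.log_mul (Real.exp_pos _).ne' hu.ne', Real.log_exp]
      ring
    show ((Real.exp w * u : ℝ) : ℂ) ^ (-s) * _ = _
    rw [h3, h4]
    ring
  rw [h2, integral_const_mul] at h1
  have h5 : ((Real.exp w : ℝ) : ℂ) * ((Real.exp w)⁻¹ • ∫ x in Ioi (0 : ℝ), gg s w x) =
      ∫ x in Ioi (0 : ℝ), gg s w x := by
    rw [Complex.real_smul, ← mul_assoc, ← Complex.ofReal_mul,
      mul_inv_cancel₀ (Real.exp_pos w).ne', Complex.ofReal_one, one_mul]
  rw [← h5, ← h1, ← mul_assoc, Complex.ofReal_exp, ← Complex.exp_add]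
  congr 2
  ring

private lemma gg_small {s : ℂ} {w x : ℝ} (hw : 0 ≤ w) (hx : 0 < x) (hx1 : x ≤ 1) :
    gg s w x = (x : ℂ) ^ (-s) := by
  unfold gg
  rw [limit_stp_one, Complex.ofReal_one, mul_one]
  have := Real.log_nonpos hx.le hx1
  linarith

private lemma gg_large {s : ℂ} {w x : ℝ} (hx : Real.exp (w + 1) < x) : gg s w x = 0 := by
  unfold gg
  rw [limit_stp_zero (log_gt hx).le]
  simp

private lemma continuousOn_gg (s : ℂ) (w : ℝ) : ContinuousOn (gg s w) (Ioi 0) :=
  fun _ hx => (hasDerivAt_gg s w hx).continuousAt.continuousWithinAt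

private lemma integral_gg_unit {s : ℂ} (h1 : s.re < 1) {w : ℝ} (hw : 0 ≤ w) :
    ∫ x in Ioc (0 : ℝ) 1, gg s w x = 1 / (1 - s) := by
  rw [setIntegral_congr_fun measurableSet_Ioc
    (fun x hx => gg_small hw hx.1 hx.2 : EqOn (gg s w) (fun x : ℝ => (x : ℂ) ^ (-s)) (Ioc 0 1)),
    ← intervalIntegral.integral_of_le zero_le_one, integral_cpow]
  · have h0 : (-s + 1 : ℂ) ≠ 0 := by
      intro h
      have := congrArg Complex.re h
      simp at this
      linarith
    rw [Complex.ofReal_one, Complex.one_cpow, Complex.ofReal_zero, Complex.zero_cpow h0]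
    congr 1
    · ring
    · ring
  · left
    simp
    linarith

private lemma integral_gg_N {s : ℂ} (h1 : s.re < 1) {w : ℝ} (hw : 2 ≤ w) :
    ∫ x in (1 : ℝ)..(⌊3 * Real.exp w⌋₊ : ℝ), gg s w x =
      (∫ x in Ioi (0 : ℝ), gg s w x) - 1 / (1 - s) := by
  obtain ⟨hN, hN1⟩ := three_bound hw
  have hN1' : (1 : ℝ) ≤ (⌊3 * Real.exp w⌋₊ : ℝ) := by exact_mod_cast hN1
  have hint1 : IntegrableOn (gg s w) (Ioc 0 1) := by
    have : IntegrableOn (fun x : ℝ => (x : ℂ) ^ (-s)) (Ioc 0 1) := by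
      rw [← intervalIntegrable_iff_integrableOn_Ioc_of_le zero_le_one]
      exact intervalIntegral.intervalIntegrable_cpow' (by simp; linarith)
    exact this.congr_fun (fun x hx => (gg_small (by linarith) hx.1 hx.2).symm) measurableSet_Ioc
  have hint2 : IntegrableOn (gg s w) (Ioc 1 (⌊3 * Real.exp w⌋₊ : ℝ)) := by
    refine (ContinuousOn.integrableOn_Icc ?_).mono_set Ioc_subset_Icc_self
    exact (continuousOn_gg s w).mono fun x hx => lt_of_lt_of_le zero_lt_one hx.1
  have hint3 : IntegrableOn (gg s w) (Ioi 1) := by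
    rw [← Ioc_union_Ioi_eq_Ioi hN1']
    refine hint2.union ?_
    have : EqOn (gg s w) (fun _ => 0) (Ioi (⌊3 * Real.exp w⌋₊ : ℝ)) := fun x hx =>
      gg_large (lt_trans hN hx)
    exact (integrableOn_zero).congr_fun this.symm measurableSet_Ioi
  have h2 : ∫ x in Ioi (1 : ℝ), gg s w x = ∫ x in Ioc (1 : ℝ) (⌊3 * Real.exp w⌋₊ : ℝ), gg s w x := by
    refine setIntegral_eq_of_subset_of_forall_sdiff_eq_zero measurableSet_Ioi Ioc_subset_Ioi_self ?_
    intro x hx
    refine gg_large (lt_trans hN ?_)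
    have h3 := hx.2
    rw [mem_Ioc, not_and, not_le] at h3
    exact h3 hx.1
  rw [intervalIntegral.integral_of_le hN1', ← h2, ← Ioc_union_Ioi_eq_Ioi (zero_le_one (α := ℝ)),
    setIntegral_union (Ioc_disjoint_Ioi le_rfl) measurableSet_Ioi hint1 hint3,
    integral_gg_unit h1 (by linarith)]
  ring

private lemma abs_Q_le (x : ℝ) : |Q x| ≤ 1 := by
  unfold Q
  have h1 := Int.fract_nonneg x
  have h2 := (Int.fract_lt_one x).le
  rw [abs_le]
  constructor <;> nlinarith

private lemma measurable_Q : Measurable Q := by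
  unfold Q
  exact ((measurable_fract.pow_const 2).sub measurable_fract).div_const 2

private lemma tendsto_remainder {s : ℂ} (h0 : 0 < s.re) :
    Filter.Tendsto (fun w : ℝ => ∫ x in Ioi (1 : ℝ), (Q x : ℂ) * gg2 s w x) Filter.atTop
      (nhds (s * (s + 1) * ∫ x in Ioi (1 : ℝ), (Q x : ℂ) * (x : ℂ) ^ (-s - 2))) := by
  obtain ⟨C, hC0, hC⟩ := exists_hh_bound s
  rw [← integral_const_mul]
  refine tendsto_integral_filter_of_dominated_convergence (fun x => C * x ^ (-s.re - 2)) ?_ ?_ ?_ ?_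
  · refine Filter.Eventually.of_forall fun w => ?_
    refine AEStronglyMeasurable.mul ?_ ?_
    · exact (Complex.continuous_ofReal.measurable.comp measurable_Q).aestronglyMeasurable
    · exact ((continuousOn_gg2 s w).mono (Ioi_subset_Ioi zero_le_one)).aestronglyMeasurable
        measurableSet_Ioi
  · refine Filter.Eventually.of_forall fun w => ?_
    rw [ae_restrict_iff' measurableSet_Ioi]
    refine Filter.Eventually.of_forall fun x hx => ?_
    have hx0 : (0 : ℝ) < x := lt_trans zero_lt_one hx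
    unfold gg2
    rw [norm_mul, norm_mul, Complex.norm_real, Real.norm_eq_abs,
      Complex.norm_cpow_eq_rpow_re_of_pos hx0]
    have h1 : (-s - 2 : ℂ).re = -s.re - 2 := by simp
    rw [h1]
    have h2 := abs_Q_le x
    have h3 := hC w x
    have h4 : 0 ≤ x ^ (-s.re - 2) := Real.rpow_nonneg hx0.le _
    calc |Q x| * (x ^ (-s.re - 2) * ‖hh s w x‖) ≤ 1 * (x ^ (-s.re - 2) * C) := by gcongr
      _ = C * x ^ (-s.re - 2) := by ring
  · exact (integrableOn_Ioi_rpow_of_lt (by linarith) zero_lt_one).const_mul C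
  · rw [ae_restrict_iff' measurableSet_Ioi]
    refine Filter.Eventually.of_forall fun x hx => ?_
    have hx0 : (0 : ℝ) < x := lt_trans zero_lt_one hx
    refine tendsto_const_nhds.congr' ?_
    filter_upwards [Filter.eventually_gt_atTop (Real.log x)] with w hw
    unfold gg2
    rw [hh_eq (by linarith)]
    ring

/-- Smoothly truncated zeta sums, minus their main term, converge to `ζ(s)` in the strip. -/
theorem Z_limit (s : ℂ) (h0 : 0 < s.re) (h1 : s.re < 1) :
    Filter.Tendsto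
      (fun w : ℝ => Z s w - Complex.exp ((1 - s) * w) *
        ∫ u in Ioi (0 : ℝ), (u : ℂ) ^ (-s) * (stp (Real.log u) : ℂ))
      Filter.atTop (nhds (riemannZeta s)) := by
  have hs1 : s ≠ 1 := by
    rintro rfl
    simp at h1
  rw [zeta_formula s (by linarith) hs1]
  have key : ∀ w : ℝ, 2 ≤ w → Z s w - Complex.exp ((1 - s) * w) *
        ∫ u in Ioi (0 : ℝ), (u : ℂ) ^ (-s) * (stp (Real.log u) : ℂ) =
      1 / (s - 1) + 1 / 2 - ∫ x in Ioi (1 : ℝ), (Q x : ℂ) * gg2 s w x := by
    intro w hw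
    obtain ⟨hN, hN1⟩ := three_bound hw
    have hN1' : (1 : ℝ) ≤ (⌊3 * Real.exp w⌋₊ : ℝ) := by exact_mod_cast hN1
    have hem := em_sum (gg s w) (gg1 s w) (gg2 s w) (fun x hx => hasDerivAt_gg s w hx)
      (fun x hx => hasDerivAt_gg1 s w hx) (continuousOn_gg2 s w) _ hN1
    have hZ : Z s w = ∑ k ∈ Finset.Icc 1 ⌊3 * Real.exp w⌋₊, gg s w k := by
      unfold Z gg
      refine Finset.sum_congr rfl fun k _ => ?_
      push_cast
      rfl
    have hg1 : gg s w 1 = 1 := by
      rw [gg_small (by linarith) zero_lt_one le_rfl]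
      simp
    have hgN : gg s w (⌊3 * Real.exp w⌋₊ : ℝ) = 0 := gg_large hN
    have hQ : ∫ x in Ioi (1 : ℝ), (Q x : ℂ) * gg2 s w x =
        ∫ x in (1 : ℝ)..(⌊3 * Real.exp w⌋₊ : ℝ), (Q x : ℂ) * gg2 s w x := by
      rw [intervalIntegral.integral_of_le hN1']
      refine setIntegral_eq_of_subset_of_forall_sdiff_eq_zero measurableSet_Ioi
        Ioc_subset_Ioi_self ?_
      intro x hx
      have h3 := hx.2
      rw [mem_Ioc, not_and, not_le] at h3
      have h4 := h3 hx.1
      unfold gg2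
      rw [hh_zero (log_gt (lt_trans hN h4))]
      simp
    rw [hZ, hem, hg1, hgN, hQ, integral_gg_N h1 hw, integral_gg_Ioi]
    have h5 : (1 : ℂ) / (s - 1) = - (1 / (1 - s)) := by
      rw [← neg_sub, one_div, one_div, inv_neg]
    rw [h5]
    ring
  refine Filter.Tendsto.congr' ?_ ((tendsto_const_nhds (x := 1 / (s - 1) + 1 / 2)).sub
    (tendsto_remainder h0))
  filter_upwards [Filter.eventually_ge_atTop (2 : ℝ)] with w hw
  exact (key w hw).symm

end Pool.Agent.H95.GC
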