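import Pool.Agent.H95.GC.Defs

set_option autoImplicit false

namespace Pool.Agent.H95.GC

open Set MeasureTheory

theorem integrable_lorentz (T : ℝ) (hT : 0 < T) :
    Integrable (fun t : ℝ => 1 / (1 + (t / T) ^ 2)) := by
  have h := (integrable_inv_one_add_sq).comp_div hT.ne'
  refine h.congr (Filter.Eventually.of_forall fun t => ?_)
  simp [one_div]

private theorem lorentz_fourier (ξ : ℝ) :
    FourierTransform.fourier (fun x : ℝ => ((Real.exp (-(2 * Real.pi * |x|)) : ℝ) : ℂ)) ξ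
      = ((1 / (Real.pi * (1 + ξ ^ 2)) : ℝ) : ℂ) := by
  have hpi := Real.pi_pos
  rw [Real.fourier_real_eq_integral_exp_smul]
  set a : ℂ := 2 * Real.pi - 2 * Real.pi * ξ * Complex.I with ha
  set b : ℂ := -(2 * Real.pi) - 2 * Real.pi * ξ * Complex.I with hb
  have hare : 0 < a.re := by simp [ha, hpi]
  have hbre : b.re < 0 := by simp [hb, hpi]
  have e1 : ∀ v ∈ Iic (0 : ℝ), Complex.exp (((-2 * Real.pi * v * ξ : ℝ) : ℂ) * Complex.I) •
      ((Real.exp (-(2 * Real.pi * |v|)) : ℝ) : ℂ) = Complex.exp (a * v) := by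
    intro v hv
    rw [abs_of_nonpos hv, smul_eq_mul, Complex.ofReal_exp, ← Complex.exp_add]
    congr 1
    rw [ha]; push_cast; ring
  have e2 : ∀ v ∈ Ioi (0 : ℝ), Complex.exp (((-2 * Real.pi * v * ξ : ℝ) : ℂ) * Complex.I) •
      ((Real.exp (-(2 * Real.pi * |v|)) : ℝ) : ℂ) = Complex.exp (b * v) := by
    intro v hv
    rw [abs_of_pos hv, smul_eq_mul, Complex.ofReal_exp, ← Complex.exp_add]
    congr 1
    rw [hb]; push_cast; ring
  have i1 : IntegrableOn (fun v : ℝ => Complex.exp (((-2 * Real.pi * v * ξ : ℝ) : ℂ) * Complex.I) •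
      ((Real.exp (-(2 * Real.pi * |v|)) : ℝ) : ℂ)) (Iic 0) := by
    refine (integrableOn_congr_fun (fun v hv => e1 v hv) measurableSet_Iic).2 ?_
    exact integrableOn_exp_mul_complex_Iic hare 0
  have i2 : IntegrableOn (fun v : ℝ => Complex.exp (((-2 * Real.pi * v * ξ : ℝ) : ℂ) * Complex.I) •
      ((Real.exp (-(2 * Real.pi * |v|)) : ℝ) : ℂ)) (Ioi 0) := by
    refine (integrableOn_congr_fun (fun v hv => e2 v hv) measurableSet_Ioi).2 ?_
    exact integrableOn_exp_mul_complex_Ioi hbre 0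
  rw [← intervalIntegral.integral_Iic_add_Ioi i1 i2, setIntegral_congr_fun measurableSet_Iic e1,
    setIntegral_congr_fun measurableSet_Ioi e2, integral_exp_mul_complex_Iic hare,
    integral_exp_mul_complex_Ioi hbre]
  have ha0 : a ≠ 0 := fun h => by rw [h] at hare; simp at hare
  have hb0 : b ≠ 0 := fun h => by rw [h] at hbre; simp at hbre
  have h1 : (1 + (ξ : ℂ) ^ 2) ≠ 0 := by
    have : (0 : ℝ) < 1 + ξ ^ 2 := by positivity
    exact_mod_cast this.ne'
  have hpi' : (Real.pi : ℂ) ≠ 0 := by exact_mod_cast hpi.ne'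
  have hab : a * b = -(4 * Real.pi ^ 2 * (1 + (ξ : ℂ) ^ 2)) := by
    rw [ha, hb]; ring_nf; rw [Complex.I_sq]; ring
  have hba : b - a = -(4 * Real.pi) := by rw [ha, hb]; ring
  simp only [Complex.ofReal_zero, mul_zero, Complex.exp_zero]
  have : (1 : ℂ) / a + -1 / b = (b - a) / (a * b) := by field_simp; ring
  rw [this, hab, hba]
  push_cast
  field_simp

private theorem lorentz_one (x : ℝ) :
    ∫ v : ℝ, Complex.exp (2 * Real.pi * v * x * Complex.I) * ((1 / (1 + v ^ 2) : ℝ) : ℂ)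
      = ((Real.pi * Real.exp (-(2 * Real.pi * |x|)) : ℝ) : ℂ) := by
  have hpi := Real.pi_pos
  set f : ℝ → ℂ := fun x : ℝ => ((Real.exp (-(2 * Real.pi * |x|)) : ℝ) : ℂ) with hf
  have hcont : Continuous f := by
    rw [hf]; fun_prop
  have hint : Integrable f := by
    have h : Integrable (fun x : ℝ => Real.exp (-(2 * Real.pi * |x|))) := by
      have i1 : IntegrableOn (fun x : ℝ => Real.exp (-(2 * Real.pi * |x|))) (Iic 0) := by
        refine (integrableOn_congr_fun (g := fun x : ℝ => Real.exp ((2 * Real.pi) * x))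
          (fun v hv => ?_) measurableSet_Iic).2 (integrableOn_exp_mul_Iic (by positivity) 0)
        simp only
        rw [abs_of_nonpos hv]; congr 1; ring
      have i2 : IntegrableOn (fun x : ℝ => Real.exp (-(2 * Real.pi * |x|))) (Ioi 0) := by
        refine (integrableOn_congr_fun (g := fun x : ℝ => Real.exp ((-(2 * Real.pi)) * x))
          (fun v hv => ?_) measurableSet_Ioi).2 (integrableOn_exp_mul_Ioi (by linarith) 0)
        simp only
        rw [abs_of_pos hv]; congr 1; ring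
      rw [← integrableOn_univ, ← Iic_union_Ioi (a := (0 : ℝ))]
      exact i1.union i2
    exact h.ofReal
  have hF : FourierTransform.fourier f = fun ξ : ℝ => ((1 / (Real.pi * (1 + ξ ^ 2)) : ℝ) : ℂ) :=
    funext lorentz_fourier
  have hFint : Integrable (FourierTransform.fourier f) := by
    rw [hF]
    have : Integrable (fun ξ : ℝ => 1 / (Real.pi * (1 + ξ ^ 2))) := by
      refine (integrable_inv_one_add_sq.const_mul (1 / Real.pi)).congr
        (Filter.Eventually.of_forall fun t => ?_)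
      have : (1 + t ^ 2) ≠ 0 := by positivity
      field_simp
    exact this.ofReal
  have hinv := congrFun (hcont.fourierInv_fourier_eq hint hFint) x
  rw [hF, Real.fourierInv_eq'] at hinv
  have h2 : ∀ v : ℝ, Complex.exp ((2 * Real.pi * inner ℝ v x : ℝ) * Complex.I) •
      ((1 / (Real.pi * (1 + v ^ 2)) : ℝ) : ℂ) = (1 / Real.pi : ℂ) *
        (Complex.exp (2 * Real.pi * v * x * Complex.I) * ((1 / (1 + v ^ 2) : ℝ) : ℂ)) := by
    intro v
    have h3 : (inner ℝ v x : ℝ) = v * x := by simp [mul_comm]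
    have : (1 + (v : ℂ) ^ 2) ≠ 0 := by
      have : (0 : ℝ) < 1 + v ^ 2 := by positivity
      exact_mod_cast this.ne'
    have hpi' : (Real.pi : ℂ) ≠ 0 := by exact_mod_cast hpi.ne'
    rw [h3, smul_eq_mul]
    push_cast
    rw [show (2 * (Real.pi : ℂ) * (v * x) * Complex.I) = 2 * Real.pi * v * x * Complex.I by ring]
    field_simp
  simp only [h2] at hinv
  rw [integral_const_mul] at hinv
  have hpi' : (Real.pi : ℂ) ≠ 0 := by exact_mod_cast hpi.ne'
  have h4 : ∫ v : ℝ, Complex.exp (2 * Real.pi * v * x * Complex.I) * ((1 / (1 + v ^ 2) : ℝ) : ℂ)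
      = Real.pi * f x := by
    rw [← hinv, ← mul_assoc, mul_one_div_cancel hpi', one_mul]
  rw [h4, hf]
  push_cast
  ring

/-- Fourier transform of the Cauchy kernel. -/
theorem lorentz (T : ℝ) (hT : 0 < T) (a : ℝ) :
    ∫ t : ℝ, Complex.exp (-(a * t * Complex.I)) * ((1 / (1 + (t / T) ^ 2) : ℝ) : ℂ)
      = ((Real.pi * T * Real.exp (-(T * |a|)) : ℝ) : ℂ) := by
  have hpi := Real.pi_pos
  have h1 := Measure.integral_comp_mul_left
    (fun t : ℝ => Complex.exp (-(a * t * Complex.I)) * ((1 / (1 + (t / T) ^ 2) : ℝ) : ℂ)) T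
  have h2 : (fun v : ℝ => Complex.exp (-(a * ((T * v : ℝ) : ℂ) * Complex.I)) *
      ((1 / (1 + (T * v / T) ^ 2) : ℝ) : ℂ)) = fun v : ℝ =>
      Complex.exp (2 * Real.pi * v * ((-(a * T) / (2 * Real.pi) : ℝ) : ℂ) * Complex.I)
        * ((1 / (1 + v ^ 2) : ℝ) : ℂ) := by
    funext v
    have hpi' : (Real.pi : ℂ) ≠ 0 := by exact_mod_cast hpi.ne'
    rw [mul_div_cancel_left₀ v hT.ne']
    congr 2
    push_cast
    field_simp
  rw [h2, lorentz_one] at h1
  have h3 : |(-(a * T) / (2 * Real.pi))| = T * |a| / (2 * Real.pi) := by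
    rw [abs_div, abs_neg, abs_mul, abs_of_pos hT, abs_of_pos (by positivity : 0 < 2 * Real.pi)]
    ring
  rw [h3, abs_of_pos (by positivity : 0 < T⁻¹), Complex.real_smul] at h1
  have hT' : (T : ℂ) ≠ 0 := by exact_mod_cast hT.ne'
  have h4 : ∫ t : ℝ, Complex.exp (-(a * t * Complex.I)) * ((1 / (1 + (t / T) ^ 2) : ℝ) : ℂ)
      = T * ((Real.pi * Real.exp (-(2 * Real.pi * (T * |a| / (2 * Real.pi)))) : ℝ) : ℂ) := by
    rw [h1, ← mul_assoc, Complex.ofReal_inv, mul_inv_cancel₀ hT', one_mul]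
  rw [h4]
  rw [show 2 * Real.pi * (T * |a| / (2 * Real.pi)) = T * |a| by field_simp]
  push_cast
  ring

end Pool.Agent.H95.GC
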