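import Pool.Agent.H95.GC.Core
import Pool.Agent.H95.GC.Blocks
import Pool.Agent.H95.GC.Subdiv

set_option autoImplicit false

namespace Pool.Agent.H95.GC

open Set MeasureTheory

/-- There is an absolute constant `c > 0` such that for every `A`, all large `T` and all
`1 ≤ N ≤ T^A` some `X ∈ [N, N T]` and some `H ∈ [X/T, 4X/T]` satisfy
`V(X; H/m) ≥ c H / (m^2 (log T)^4)` for all `m ≥ 1`. -/
theorem main : ∃ c : ℝ, 0 < c ∧ ∀ A : ℝ, 0 < A → ∃ T₀ : ℝ, 1 ≤ T₀ ∧ ∀ T : ℝ, T₀ ≤ T →
    ∀ N : ℝ, 1 ≤ N → N ≤ T ^ A → ∃ X H : ℝ, N ≤ X ∧ X ≤ N * T ∧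
      X / T ≤ H ∧ H ≤ 4 * (X / T) ∧
      ∀ m : ℕ, 1 ≤ m → c * H / ((m : ℝ) ^ 2 * Real.log T ^ 4) ≤ V X (H / m) := by
  obtain ⟨c₀, hc₀, hcore'⟩ := core
  refine ⟨c₀ / 2, by positivity, ?_⟩
  intro A hA
  obtain ⟨T₁, hT₁1, hcore⟩ := hcore' (2 * A + 1) (by positivity)
  refine ⟨max (40 * T₁) 6400, le_max_of_le_right (by norm_num), ?_⟩
  intro T hT N hN1 hNA
  have hTa : 40 * T₁ ≤ T := (le_max_left _ _).trans hT
  have he2 : 6400 ≤ T := (le_max_right _ _).trans hT
  have hT0 : 0 < T := by linarith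
  have hT1 : 1 ≤ T := by linarith
  set T' : ℝ := T / 40 with hT'
  have hT'0 : 0 < T' := by positivity
  have hT'1 : 1 ≤ T' := by rw [hT']; linarith
  have hT'2 : T₁ ≤ T' := by rw [hT']; linarith
  have hN0 : 0 < N := by linarith
  -- log comparisons
  have hlogT' : Real.log T ≤ 2 * Real.log T' := by
    have h1 : T ≤ T' ^ 2 := by
      rw [hT']
      nlinarith
    calc Real.log T ≤ Real.log (T' ^ 2) := Real.log_le_log hT0 h1
      _ = 2 * Real.log T' := by rw [Real.log_pow]; norm_num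
  have hlogT'1 : Real.log T' ≤ Real.log T := Real.log_le_log hT'0 (by rw [hT']; linarith)
  have hlog1 : 1 ≤ Real.log T' := by
    rw [Real.le_log_iff_exp_le hT'0]
    have := Real.exp_one_lt_d9
    rw [hT']; linarith
  have hlog2 : 1 ≤ Real.log T := by linarith
  set n : ℝ := Real.log (5 / 4 * N) with hn
  have hn0 : 0 ≤ n := Real.log_nonneg (by linarith)
  have hexpn : Real.exp n = 5 / 4 * N := Real.exp_log (by linarith)
  have hnA : n ≤ (2 * A + 1) * Real.log T' := by
    have h1 : n = Real.log (5 / 4) + Real.log N := Real.log_mul (by norm_num) hN0.ne'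
    have h2 : Real.log (5 / 4) ≤ 1 := by
      have := Real.log_le_sub_one_of_pos (show (0 : ℝ) < 5 / 4 by norm_num)
      linarith
    have h3 : Real.log N ≤ A * Real.log T := by
      calc Real.log N ≤ Real.log (T ^ A) := Real.log_le_log hN0 hNA
        _ = A * Real.log T := Real.log_rpow hT0 A
    have h4 : A * Real.log T ≤ A * (2 * Real.log T') := mul_le_mul_of_nonneg_left hlogT' hA.le
    nlinarith
  set n' : ℝ := n + Real.log T' + 1 with hn'
  have hnn' : n ≤ n' := by
    rw [hn']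
    linarith
  have hδT : 1 / (40 * T') = 1 / T := by rw [hT']; field_simp
  have hδT2 : 1 / (20 * T') = 2 * (1 / T) := by rw [hT']; field_simp; norm_num
  obtain ⟨Y, H, hY1, hY2, hH1, hH2, hineq⟩ := blocks (fun x H => M x H ^ 2)
    (by
      have h : Function.uncurry (fun x H => M x H ^ 2) = fun p => (Function.uncurry M p) ^ 2 := by
        funext p; rfl
      rw [h]
      exact measurable_M.pow_const 2)
    (fun x H => sq_nonneg _)
    (fun x H hH => by
      have := pow_le_pow_left₀ (abs_nonneg _) (abs_M_le x H hH) 2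
      rwa [sq_abs] at this)
    (1 / T) n n' (c₀ / (T' * Real.log T' ^ 3)) (by positivity) hnn' (by positivity)
    (by
      intro δ hδ
      exact hcore T' hT'2 n hn0 hnA δ (by rw [hδT]; exact hδ.1) (by rw [hδT2]; exact hδ.2))
  rw [hexpn] at hY1
  have hY0 : 0 < Y := by linarith
  have hH0 : 0 < H := lt_of_lt_of_le (by positivity) hH1
  have h1T : (1 / T) * Y = Y / T := by ring
  rw [h1T] at hH1 hH2
  refine ⟨4 / 5 * Y, H, by linarith, ?_, ?_, ?_, ?_⟩
  · -- X ≤ N T
    have h1 : Y ≤ 5 / 4 * N * (T' * 3) := by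
      refine hY2.trans ?_
      rw [hn', Real.exp_add, Real.exp_add, hexpn, mul_assoc, Real.exp_log hT'0]
      apply mul_le_mul_of_nonneg_left _ (by linarith)
      apply mul_le_mul_of_nonneg_left _ (by positivity)
      linarith [Real.exp_one_lt_d9]
    calc 4 / 5 * Y ≤ 4 / 5 * (5 / 4 * N * (T' * 3)) := by linarith
      _ = N * (T' * 3) := by ring
      _ ≤ N * T := mul_le_mul_of_nonneg_left (by rw [hT']; linarith) hN0.le
  · calc 4 / 5 * Y / T ≤ Y / T := by
          apply div_le_div_of_nonneg_right _ hT0.le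
          linarith
      _ ≤ H := hH1
  · calc H ≤ 14 / 5 * (Y / T) := hH2
      _ ≤ 4 * (4 / 5 * Y / T) := by
          have : 0 < Y / T := by positivity
          have h2 : 4 / 5 * Y / T = 4 / 5 * (Y / T) := by ring
          rw [h2]; linarith
  · intro m hm
    have hm0 : (0 : ℝ) < m := by exact_mod_cast hm
    have hsub := subdiv Y H m hm hH0 (by
      have h1 : Y / T ≤ Y / 7 := by
        apply div_le_div_of_nonneg_left hY0.le (by norm_num) (by linarith)
      linarith)
    set X : ℝ := 4 / 5 * Y with hX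
    have hX0 : 0 < X := by rw [hX]; positivity
    have hV : ∫ x in X..(2 * X), M x (H / m) ^ 2 = X * V X (H / m) := by
      unfold V
      field_simp
    rw [hV] at hsub
    have hV0 : 0 ≤ V X (H / m) := by
      unfold V
      apply mul_nonneg (by positivity)
      apply intervalIntegral.integral_nonneg (by linarith)
      intro x _
      positivity
    set l := Real.log T with hl
    set W := (m : ℝ) ^ 2 * V X (H / m) with hW
    have hW0 : 0 ≤ W := by positivity
    have hLpos : 0 ≤ 6 * (n' - n + 1) := by linarith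
    have h1 : c₀ / (T' * Real.log T' ^ 3) * Y ^ 2 ≤ 6 * (n' - n + 1) * (X * W) := by
      refine hineq.trans ?_
      have h2 := mul_le_mul_of_nonneg_left hsub hLpos
      calc _ ≤ _ := h2
        _ = _ := by rw [hW]; ring
    have hL : n' - n + 1 ≤ 3 * l := by
      rw [hn']
      linarith
    have h3 : c₀ / (T' * l ^ 3) ≤ c₀ / (T' * Real.log T' ^ 3) := by
      apply div_le_div_of_nonneg_left hc₀.le (by positivity)
      apply mul_le_mul_of_nonneg_left _ hT'0.le
      exact pow_le_pow_left₀ (by linarith) hlogT'1 3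
    have h4 : c₀ / (T' * l ^ 3) * Y ^ 2 ≤ 18 * l * (X * W) := by
      calc c₀ / (T' * l ^ 3) * Y ^ 2 ≤ c₀ / (T' * Real.log T' ^ 3) * Y ^ 2 :=
            mul_le_mul_of_nonneg_right h3 (sq_nonneg _)
        _ ≤ 6 * (n' - n + 1) * (X * W) := h1
        _ ≤ 6 * (3 * l) * (X * W) := by
            apply mul_le_mul_of_nonneg_right _ (by positivity)
            linarith
        _ = _ := by ring
    have h5 : c₀ * Y ^ 2 ≤ 18 * l * (X * W) * (T' * l ^ 3) := by
      have h6 : c₀ / (T' * l ^ 3) * Y ^ 2 = c₀ * Y ^ 2 / (T' * l ^ 3) := by ring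
      rw [h6, div_le_iff₀ (by positivity)] at h4
      exact h4
    have h7 : c₀ * Y ^ 2 ≤ (9 / 25 * (W * l ^ 4 * T)) * Y := by
      calc c₀ * Y ^ 2 ≤ 18 * l * (X * W) * (T' * l ^ 3) := h5
        _ = _ := by rw [hX, hT']; ring
    have h8 : c₀ * Y ≤ 9 / 25 * (W * l ^ 4 * T) := by
      have h9 : (c₀ * Y) * Y ≤ (9 / 25 * (W * l ^ 4 * T)) * Y := by
        calc (c₀ * Y) * Y = c₀ * Y ^ 2 := by ring
          _ ≤ _ := h7
      exact le_of_mul_le_mul_right h9 hY0
    have hHY : T * H ≤ 14 / 5 * Y := by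
      calc T * H ≤ T * (14 / 5 * (Y / T)) := mul_le_mul_of_nonneg_left hH2 hT0.le
        _ = 14 / 5 * Y := by field_simp
    have h10 : c₀ / 2 * H * T ≤ (W * l ^ 4) * T := by
      have h11 : c₀ * (T * H) ≤ c₀ * (14 / 5 * Y) := mul_le_mul_of_nonneg_left hHY hc₀.le
      have h12 : 0 ≤ W * l ^ 4 * T := by positivity
      nlinarith
    have h13 : c₀ / 2 * H ≤ W * l ^ 4 := le_of_mul_le_mul_right h10 hT0
    rw [div_le_iff₀ (by positivity)]
    calc c₀ / 2 * H ≤ W * l ^ 4 := h13
      _ = _ := by rw [hW]; ring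

end Pool.Agent.H95.GC
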